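import Pool.Agent.Q31.GV.Mom

set_option autoImplicit false

/-! # Sums of consecutive gaps are rarely very large -/

open Filter Topology Finset MeasureTheory

namespace Pool.Agent.Q31.GV

open SG (ord NZ)
open Pool.Agent.Y743.LR (dif yv dl dif_yv)

/-- sum of the absolute values of `J` gaps -/
noncomputable def SA (J n : ℕ) : ℝ := ∑ j ∈ range J, |dl (n + j)|

/-- comparison of `dl` and `dif` on a block -/
lemma near_ev : ∃ K : ℝ, 0 ≤ K ∧ ∀ k : ℕ, ∀ᶠ T : ℝ in atTop, ∀ m : ℕ, NZ T ≤ m →
    m ≤ NZ (2 * T) + k → 0 ≤ dif (yv T) m ∧ |dif (yv T) m - dl m| ≤ K / Real.log T * dif (yv T) m := by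
  obtain ⟨κ, D, C2, hκ, hκ1, hD, hC2, hgood⟩ := Pool.Agent.Y743.LR.good_ev
  have h2p : 0 ≤ Real.log (2 * Real.pi) := Real.log_nonneg (by linarith [Real.pi_gt_three])
  refine ⟨|Real.log κ| + |Real.log D| + Real.log (2 * Real.pi), by positivity, fun k => ?_⟩
  obtain ⟨T0, hT0, hg⟩ := hgood k
  filter_upwards [eventually_ge_atTop T0] with T hT m h1 h2
  have hT10 : 10 ≤ T := hT0.trans hT
  have hT1 : 1 < T := by linarith
  have hgd := hg T hT
  obtain ⟨a1, a2, a3⟩ := Pool.Agent.Y743.LR.gam_le hκ hT1.le hgd.lgκ hgd.n1 hgd.n2 h1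
  have h4 : 1 ≤ m := hgd.n1.trans h1
  have h3 : ord m ≤ D * T := (SG.ord_le_iff h4 _).mpr (h2.trans hgd.n3)
  exact ⟨a2, Pool.Agent.Y743.LR.dl_close (D := D) hκ (by linarith) hT1 h4 a1 h3⟩

/-- the same with fixed constants -/
lemma near2 (k : ℕ) : ∀ᶠ T : ℝ in atTop, ∀ m : ℕ, NZ T ≤ m → m ≤ NZ (2 * T) + k →
    0 ≤ dif (yv T) m ∧ |dl m| ≤ 2 * dif (yv T) m ∧ dif (yv T) m ≤ 2 * |dl m| := by
  obtain ⟨K, hK, h⟩ := near_ev
  filter_upwards [h k, Real.tendsto_log_atTop.eventually_ge_atTop (2 * K + 1)] with T hT hL m h1 h2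
  obtain ⟨a1, a2⟩ := hT m h1 h2
  have hLpos : 0 < Real.log T := by linarith
  have hKL : K / Real.log T ≤ 1 / 2 := by
    rw [div_le_div_iff₀ hLpos (by norm_num)]
    linarith
  have h3 : K / Real.log T * dif (yv T) m ≤ 1 / 2 * dif (yv T) m :=
    mul_le_mul_of_nonneg_right hKL a1
  have h4 := (abs_le.mp a2).1
  have h5 := (abs_le.mp a2).2
  refine ⟨a1, ?_, ?_⟩
  · rw [abs_le]
    constructor <;> linarith
  · have := le_abs_self (dl m)
    linarith

lemma SA_le_Zr {T : ℝ} (hT : 1 < T) {J n : ℕ}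
    (h : ∀ j < J, |dl (n + j)| ≤ 2 * dif (yv T) (n + j)) : SA J n ≤ 2 * Zr T J n := by
  rw [Zr_sum hT, Finset.mul_sum]
  unfold SA
  exact Finset.sum_le_sum fun j hj => h j (Finset.mem_range.mp hj)

/-- **large sums of gaps are rare** -/
theorem big (hRH : RiemannHypothesis) : ∃ J0 : ℕ, 1 ≤ J0 ∧ ∀ J : ℕ, J0 ≤ J →
    ∀ᶠ N : ℕ in atTop, (((Icc 1 N).filter fun n => 640 * (J : ℝ) < SA J n).card : ℝ) ≤
      N * Real.exp (-J) := by
  classical
  obtain ⟨i0, hfew⟩ := few_vol (H177.Lat.rhs_of hRH)
  refine ⟨i0 + 5, by omega, fun J hJ => ?_⟩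
  have hJ1 : 1 ≤ J := by omega
  have hJ0 : (0 : ℝ) < J := by exact_mod_cast hJ1
  obtain ⟨f, hf⟩ : ∃ f : ℕ → ℝ, f = fun n => if 640 * (J : ℝ) < SA J n then 1 else 0 := ⟨_, rfl⟩
  have hf0 : ∀ n, 0 ≤ f n := fun n => by
    rw [hf]
    show (0 : ℝ) ≤ if 640 * (J : ℝ) < SA J n then 1 else 0
    split_ifs <;> norm_num
  have hstep : ∀ᶠ T : ℝ in atTop, ∑ n ∈ Finset.Icc 1 (NZ (2 * T)), f n ≤
      ∑ n ∈ Finset.Icc 1 (NZ T), f n + Real.exp (-(160 * J)) * (T * Real.log T) := by
    filter_upwards [hfew (160 * J) (by omega), near2 J, eventually_ge_atTop (10 : ℝ),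
      Real.tendsto_log_atTop.eventually_ge_atTop (2 * Real.pi * (160 * J) + 1)] with T hv hn hT10 hLL
    have hT1 : 1 < T := by linarith
    have hTpos : 0 < T := by linarith
    have hpi := Real.pi_pos
    have hL := Real.log_pos hT1
    have hw : 0 < ww T := by unfold ww; positivity
    have hwi : ww T * (160 * J) ≤ 1 := by
      unfold ww
      rw [div_mul_eq_mul_div, div_le_one hL]
      linarith
    have hmon : NZ T ≤ NZ (2 * T) := SG.NZ_mono (by linarith)
    -- the bad indices of the block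
    obtain ⟨Bd, hBd⟩ : ∃ Bd : Finset ℕ, Bd = (Icc (NZ T + 1) (NZ (2 * T))).filter
        (fun n => 640 * (J : ℝ) < SA J n) := ⟨_, rfl⟩
    have hsplit : ∑ n ∈ Icc 1 (NZ (2 * T)), f n = ∑ n ∈ Icc 1 (NZ T), f n + (Bd.card : ℝ) := by
      have e : ∀ m : ℕ, Icc 1 m = Ico 1 (m + 1) := fun m => by
        ext x
        rw [Finset.mem_Icc, Finset.mem_Ico]
        omega
      have e2 : Icc (NZ T + 1) (NZ (2 * T)) = Ico (NZ T + 1) (NZ (2 * T) + 1) := by
        ext x
        rw [Finset.mem_Icc, Finset.mem_Ico]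
        omega
      have h1 : (Bd.card : ℝ) = ∑ n ∈ Ico (NZ T + 1) (NZ (2 * T) + 1), f n := by
        rw [hBd, e2, hf, Finset.card_filter]
        push_cast
        rfl
      rw [h1, e, e, Finset.sum_Ico_consecutive _ (by omega) (by omega)]
    rw [hsplit]
    -- properties of the bad indices
    have hbad : ∀ n ∈ Bd, 1 ≤ n ∧ T < ord n ∧ ord n ≤ 2 * T ∧
        ord n + 2 * (ww T * (160 * J)) < ord (n + J) := by
      intro n hn'
      rw [hBd, Finset.mem_filter, Finset.mem_Icc] at hn'
      obtain ⟨⟨h1, h2⟩, h3⟩ := hn'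
      have hn1 : 1 ≤ n := by omega
      refine ⟨hn1, ?_, (SG.ord_le_iff hn1 _).mpr h2, ?_⟩
      · by_contra hcon
        push Not at hcon
        have := (SG.ord_le_iff hn1 _).mp hcon
        omega
      · have h4 := SA_le_Zr (T := T) hT1 (J := J) (n := n)
          (fun j hj => (hn (n + j) (by omega) (by omega)).2.1)
        have h5 : 320 * (J : ℝ) < Zr T J n := by linarith
        unfold Zr at h5
        rw [lt_div_iff₀ hw] at h5
        linarith
    -- the intervals
    have hpt : ∀ t : ℝ, ∑ n ∈ Bd, ind (Set.Icc (ord n) (ord n + ww T * (160 * J))) t ≤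
        J * ind (FS T (160 * J) ∩ Set.Icc T (3 * T)) t := by
      intro t
      have h1 : ∑ n ∈ Bd, ind (Set.Icc (ord n) (ord n + ww T * (160 * J))) t =
          ((Bd.filter fun n => t ∈ Set.Icc (ord n) (ord n + ww T * (160 * J))).card : ℝ) := by
        rw [Finset.card_filter]
        push_cast
        refine Finset.sum_congr rfl fun n _ => ?_
        unfold ind
        rw [Set.indicator_apply]
      rw [h1]
      by_cases hemp : (Bd.filter fun n => t ∈ Set.Icc (ord n) (ord n + ww T * (160 * J))) = ∅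
      · rw [hemp, Finset.card_empty, Nat.cast_zero]
        exact mul_nonneg hJ0.le (ind_nonneg _ _)
      · have h2 : ∀ n ∈ Bd.filter (fun n => t ∈ Set.Icc (ord n) (ord n + ww T * (160 * J))),
            n ≤ NZ t ∧ NZ t < n + J ∧ NZ (t + ww T * (160 * J)) < n + J ∧ T ≤ t ∧ t ≤ 3 * T := by
          intro n hn'
          rw [Finset.mem_filter] at hn'
          obtain ⟨h3, h4, h5⟩ := hn'
          obtain ⟨b1, b2, b3, b4⟩ := hbad n h3
          have h6 : NZ (t + ww T * (160 * J)) < n + J := by
            by_contra hcon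
            push Not at hcon
            have := (SG.ord_le_iff (by omega) _).mpr hcon
            linarith
          have h7 : NZ t ≤ NZ (t + ww T * (160 * J)) := SG.NZ_mono (by
            have : 0 ≤ ww T * (160 * J) := by positivity
            linarith)
          exact ⟨(SG.ord_le_iff b1 _).mp h4, by omega, h6, by linarith, by linarith⟩
        have h3 : Bd.filter (fun n => t ∈ Set.Icc (ord n) (ord n + ww T * (160 * J))) ⊆
            Ioc (NZ t - J) (NZ t) := by
          intro n hn'
          obtain ⟨c1, c2, _⟩ := h2 n hn'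
          rw [Finset.mem_Ioc]
          have : 1 ≤ n := (hbad n (Finset.mem_filter.mp hn').1).1
          omega
        have h4 := Finset.card_le_card h3
        rw [Nat.card_Ioc] at h4
        have h5 : ((Bd.filter fun n => t ∈ Set.Icc (ord n) (ord n + ww T * (160 * J))).card : ℝ)
            ≤ J := by
          have : (Bd.filter fun n => t ∈ Set.Icc (ord n) (ord n + ww T * (160 * J))).card ≤ J := by
            omega
          exact_mod_cast this
        obtain ⟨n, hn'⟩ := Finset.nonempty_iff_ne_empty.mpr hemp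
        obtain ⟨c1, c2, c3, c4, c5⟩ := h2 n hn'
        have h6 : t ∈ FS T (160 * J) ∩ Set.Icc T (3 * T) := by
          refine ⟨?_, c4, c5⟩
          rw [mem_FS]
          push_cast
          have h7 : (NZ (t + ww T * (160 * J)) : ℝ) ≤ NZ t + J := by
            have : NZ (t + ww T * (160 * J)) ≤ NZ t + J := by omega
            exact_mod_cast this
          linarith
        rw [ind_mem h6, mul_one]
        exact h5
    -- integrate
    have hmeas : MeasurableSet (FS T (160 * J) ∩ Set.Icc T (3 * T)) :=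
      (FS_meas T (160 * J)).inter measurableSet_Icc
    have hvf : volume (FS T (160 * J) ∩ Set.Icc T (3 * T)) ≠ ⊤ := by
      refine ne_top_of_le_ne_top (b := volume (Set.Icc T (3 * T))) ?_
        (measure_mono Set.inter_subset_right)
      rw [Real.volume_Icc]; exact ENNReal.ofReal_ne_top
    have hint1 : ∀ n ∈ Bd, Integrable (ind (Set.Icc (ord n) (ord n + ww T * (160 * J)))) := by
      intro n _
      unfold ind
      exact (integrable_indicator_iff measurableSet_Icc).mpr
        (integrableOn_const (by rw [Real.volume_Icc]; exact ENNReal.ofReal_ne_top))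
    have hint2 : Integrable (ind (FS T (160 * J) ∩ Set.Icc T (3 * T))) := by
      unfold ind
      exact (integrable_indicator_iff hmeas).mpr (integrableOn_const hvf)
    have hI := integral_mono (integrable_finsetSum Bd hint1) (hint2.const_mul (J : ℝ)) hpt
    rw [integral_finsetSum Bd hint1, integral_const_mul] at hI
    have e1 : ∀ n ∈ Bd, ∫ t, ind (Set.Icc (ord n) (ord n + ww T * (160 * J))) t =
        ww T * (160 * J) := by
      intro n _
      unfold ind
      rw [integral_indicator measurableSet_Icc, setIntegral_const, smul_eq_mul, mul_one,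
        Measure.real, Real.volume_Icc, ENNReal.toReal_ofReal]
      · ring
      · have : 0 ≤ ww T * (160 * J) := by positivity
        linarith
    have e2 : ∫ t, ind (FS T (160 * J) ∩ Set.Icc T (3 * T)) t =
        (volume (FS T (160 * J) ∩ Set.Icc T (3 * T))).toReal := by
      unfold ind
      rw [integral_indicator hmeas, setIntegral_const, smul_eq_mul, mul_one]
      rfl
    rw [Finset.sum_congr rfl e1, Finset.sum_const, nsmul_eq_mul, e2] at hI
    have h8 : (Bd.card : ℝ) * (ww T * (160 * J)) ≤ J * (T * Real.exp (-(160 * J))) := by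
      refine hI.trans (mul_le_mul_of_nonneg_left ?_ hJ0.le)
      have h9 := hv
      push_cast at h9
      exact h9
    have h10 : (Bd.card : ℝ) ≤ Real.exp (-(160 * J)) * (T * Real.log T) := by
      have h11 : (Bd.card : ℝ) * ww T * 160 ≤ T * Real.exp (-(160 * J)) := by
        have h12 : J * ((Bd.card : ℝ) * ww T * 160) ≤ J * (T * Real.exp (-(160 * J))) := by
          linarith
        exact le_of_mul_le_mul_left h12 hJ0
      have h13 : ww T * Real.log T = 2 * Real.pi := by
        unfold ww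
        field_simp
      have h14 : (Bd.card : ℝ) * ww T * 160 * Real.log T ≤ T * Real.exp (-(160 * J)) * Real.log T :=
        mul_le_mul_of_nonneg_right h11 hL.le
      have h15 : (Bd.card : ℝ) * ww T * 160 * Real.log T = (Bd.card : ℝ) * (160 * (2 * Real.pi)) := by
        rw [← h13]; ring
      rw [h15] at h14
      have h16 : (Bd.card : ℝ) * 1 ≤ (Bd.card : ℝ) * (160 * (2 * Real.pi)) := by
        apply mul_le_mul_of_nonneg_left _ (Nat.cast_nonneg _)
        linarith [Real.pi_gt_three]
      calc (Bd.card : ℝ) ≤ (Bd.card : ℝ) * (160 * (2 * Real.pi)) := by linarith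
        _ ≤ _ := h14
        _ = _ := by ring
    linarith
  have hd := dyadic hf0 (Real.exp_pos (-(160 * (J : ℝ)))) hstep
  filter_upwards [hd] with N hN
  have e : (((Icc 1 N).filter fun n => 640 * (J : ℝ) < SA J n).card : ℝ) =
      ∑ n ∈ Icc 1 N, f n := by
    rw [hf, Finset.card_filter]
    push_cast
    rfl
  rw [e]
  refine hN.trans ?_
  have h1 : 60 * Real.exp (-(160 * (J : ℝ))) ≤ Real.exp (-J) := by
    have h2 : (5 : ℝ) ≤ J := by
      have : 5 ≤ J := by omega
      exact_mod_cast this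
    have h3 : Real.exp (-(160 * (J : ℝ))) ≤ Real.exp (-J + -5) := Real.exp_le_exp.2 (by linarith)
    rw [Real.exp_add] at h3
    have h4 : 60 * Real.exp (-5) ≤ 1 := by
      rw [Real.exp_neg, mul_inv_le_iff₀ (Real.exp_pos _), one_mul]
      have h5 := Real.exp_one_gt_d9
      have h6 : Real.exp 5 = Real.exp 1 ^ 5 := by rw [← Real.exp_nat_mul]; norm_num
      rw [h6]
      have h7 : (2.7182818283 : ℝ) ^ 5 ≤ Real.exp 1 ^ 5 := pow_le_pow_left₀ (by norm_num) h5.le 5
      norm_num at h7 ⊢
      linarith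
    calc 60 * Real.exp (-(160 * (J : ℝ))) ≤ 60 * (Real.exp (-J) * Real.exp (-5)) := by linarith
      _ = Real.exp (-J) * (60 * Real.exp (-5)) := by ring
      _ ≤ Real.exp (-J) * 1 := mul_le_mul_of_nonneg_left h4 (Real.exp_pos _).le
      _ = _ := mul_one _
  have hN0 : (0 : ℝ) ≤ N := Nat.cast_nonneg _
  nlinarith

end Pool.Agent.Q31.GV
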