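import Pool.Agent.Q31.GV.Leb
import Pool.Agent.Q31.GP.Base

set_option autoImplicit false

/-! # The weighted variance of sums of gaps -/

open Filter Topology Set MeasureTheory

namespace Pool.Agent.Q31.GV

open SG (ord NZ)
open Pool.Agent.Y743.LR (dif yv dl dif_yv)

/-- sum of `r` gaps, normalised with `log T` -/
noncomputable def Zr (T : ℝ) (r n : ℕ) : ℝ := (ord (n + r) - ord n) / ww T

lemma min_add {a b X : ℝ} (hX : 0 ≤ X) :
    min |a + b| X ^ 2 ≤ 2 * min |a| X ^ 2 + 2 * b ^ 2 := by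
  have h1 : min |a + b| X ≤ min |a| X + |b| := by
    rcases le_total |a| X with h | h
    · rw [min_eq_left h]
      exact (min_le_left _ _).trans (abs_add_le _ _)
    · rw [min_eq_right h]
      exact (min_le_right _ _).trans (by linarith [abs_nonneg b])
  have h0 : 0 ≤ min |a + b| X := le_min (abs_nonneg _) hX
  have h2 := pow_le_pow_left₀ h0 h1 2
  have h3 : |b| ^ 2 = b ^ 2 := sq_abs b
  nlinarith [sq_nonneg (min |a| X - |b|)]

lemma dif_ww {T : ℝ} (hT : 1 < T) (n : ℕ) : dif (yv T) n = (ord (n + 1) - ord n) / ww T := by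
  have hL := Real.log_pos hT
  have hpi := Real.pi_pos
  rw [dif_yv]
  unfold ww
  field_simp

/-- one gap -/
lemma one_gap {T : ℝ} (hT : 1 < T) (r X i0 : ℕ) (hr : 1 ≤ r) {n : ℕ} (hn : 1 ≤ n)
    (hG : IntervalIntegrable (GG T r X i0) volume (ord n) (ord (n + 1))) :
    dif (yv T) n * min |Zr T r n - r| X ^ 2 ≤
      2 / ww T * (∫ t in (ord n)..(ord (n + 1)), GG T r X i0 t) + 2 / 3 * dif (yv T) n ^ 3 := by
  have hpi := Real.pi_pos
  have hL := Real.log_pos hT
  have hw : 0 < ww T := by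
    unfold ww
    positivity
  have ho : ord n ≤ ord (n + 1) := SG.ord_mono hn (Nat.le_succ n)
  have hX0 : (0 : ℝ) ≤ X := Nat.cast_nonneg X
  have h1 : ∀ t ∈ Ioo (ord n) (ord (n + 1)), min |Zr T r n - r| X ^ 2 ≤
      2 * GG T r X i0 t + 2 * ((t - ord n) / ww T) ^ 2 := by
    intro t ht
    have hN : NZ t = n := by
      have a1 : n ≤ NZ t := (SG.ord_le_iff hn t).mp ht.1.le
      have a2 : ¬ (n + 1 ≤ NZ t) := fun h => by
        have := (SG.ord_le_iff (by omega) t).mpr h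
        linarith [ht.2]
      omega
    have h2 : Zr T r n - r = Dt T r t + (t - ord n) / ww T := by
      unfold Zr Dt
      rw [hN]
      ring
    rw [h2]
    refine (min_add hX0).trans ?_
    have := point hT r X i0 hr t
    linarith
  have hq : IntervalIntegrable (fun t => 2 * ((t - ord n) / ww T) ^ 2) volume (ord n)
      (ord (n + 1)) := by
    apply Continuous.intervalIntegrable
    fun_prop
  have h3 := intervalIntegral.integral_mono_on_of_le_Ioo (μ := volume) ho
    (f := fun _ => min |Zr T r n - r| X ^ 2)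
    (g := fun t => 2 * GG T r X i0 t + 2 * ((t - ord n) / ww T) ^ 2)
    intervalIntegrable_const ((hG.const_mul 2).add hq) h1
  rw [intervalIntegral.integral_const, smul_eq_mul, intervalIntegral.integral_add
    (hG.const_mul 2) hq, intervalIntegral.integral_const_mul] at h3
  have h4 : ∫ t in (ord n)..(ord (n + 1)), 2 * ((t - ord n) / ww T) ^ 2 =
      2 / 3 * (ord (n + 1) - ord n) ^ 3 / ww T ^ 2 := by
    have e : ∀ t ∈ uIcc (ord n) (ord (n + 1)),
        HasDerivAt (fun t => 2 / 3 * (t - ord n) ^ 3 / ww T ^ 2)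
        (2 * ((t - ord n) / ww T) ^ 2) t := by
      intro t _
      have e1 : HasDerivAt (fun t => (t - ord n) ^ 3) (3 * (t - ord n) ^ 2 * 1) t := by
        simpa using ((hasDerivAt_id t).sub_const (ord n)).fun_pow 3
      have e2 := (e1.const_mul (2 / 3)).div_const (ww T ^ 2)
      refine e2.congr_deriv ?_
      field_simp
    rw [intervalIntegral.integral_eq_sub_of_hasDerivAt e hq]
    ring
  rw [h4] at h3
  rw [dif_ww hT]
  have h5 := mul_le_mul_of_nonneg_left h3 (show 0 ≤ 1 / ww T by positivity)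
  calc (ord (n + 1) - ord n) / ww T * min |Zr T r n - r| X ^ 2 =
        1 / ww T * ((ord (n + 1) - ord n) * min |Zr T r n - r| X ^ 2) := by ring
    _ ≤ _ := h5
    _ = _ := by
        field_simp

/-- **one block** -/
theorem block (hRH : SP.RHs) : ∃ C : ℝ, 0 < C ∧ ∀ r : ℕ, 1 ≤ r → ∀ X : ℕ,
    ∀ᶠ T : ℝ in atTop, ∑ n ∈ Finset.Ico (NZ T + 1) (NZ (2 * T)),
      dif (yv T) n * min |Zr T r n - r| X ^ 2 ≤ C * (1 + Real.log r) * (T * Real.log T) := by
  obtain ⟨C1, hC1, i0, hleb⟩ := leb hRH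
  obtain ⟨κ, D, C2, hκ, hκ1, hD, hC2, hgood⟩ := Pool.Agent.Y743.LR.good_ev
  obtain ⟨C3, hC3, hcube⟩ := Pool.Agent.Y743.LR.gam_cube hRH (κ := κ) (D := D) hκ hC2
  refine ⟨C1 + C3, by positivity, fun r hr X => ?_⟩
  obtain ⟨T0, hT0, hg⟩ := hgood 0
  filter_upwards [hleb r hr X, eventually_ge_atTop T0] with T ⟨hGi, hGb⟩ hT
  have hT10 : 10 ≤ T := hT0.trans hT
  have hT1 : 1 < T := by linarith
  have hTpos : 0 < T := by linarith
  have hgd := hg T hT
  have hpi := Real.pi_pos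
  have hpi3 := Real.pi_gt_three
  have hL := Real.log_pos hT1
  have hL1 := hgd.lgT
  have hw : 0 < ww T := by
    unfold ww
    positivity
  have hlogr : 0 ≤ Real.log r := Real.log_nonneg (by exact_mod_cast hr)
  have hRpos : 0 ≤ (C1 + C3) * (1 + Real.log r) * (T * Real.log T) := by positivity
  rcases le_or_gt (NZ (2 * T)) (NZ T + 1) with hab | hab
  · rw [Finset.Ico_eq_empty (by omega), Finset.sum_empty]
    exact hRpos
  have hpos : ∀ n ∈ Finset.Ico (NZ T + 1) (NZ (2 * T)), 1 ≤ n ∧ T < ord n ∧ ord (n + 1) ≤ 2 * T := by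
    intro n hn
    rw [Finset.mem_Ico] at hn
    have h1 : 1 ≤ n := by omega
    refine ⟨h1, ?_, ?_⟩
    · by_contra hcon
      push Not at hcon
      have := (SG.ord_le_iff h1 _).mp hcon
      omega
    · exact (SG.ord_le_iff (by omega) _).mpr (by omega)
  have hsubi : ∀ n ∈ Finset.Ico (NZ T + 1) (NZ (2 * T)),
      IntervalIntegrable (GG T r X i0) volume (ord n) (ord (n + 1)) := by
    intro n hn
    obtain ⟨h1, h2, h3⟩ := hpos n hn
    have ho : ord n ≤ ord (n + 1) := SG.ord_mono h1 (Nat.le_succ n)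
    apply hGi.mono_set
    rw [uIcc_of_le ho, uIcc_of_le (by linarith)]
    exact Icc_subset_Icc h2.le h3
  have h1 : ∀ n ∈ Finset.Ico (NZ T + 1) (NZ (2 * T)), dif (yv T) n * min |Zr T r n - r| X ^ 2 ≤
      2 / ww T * (∫ t in (ord n)..(ord (n + 1)), GG T r X i0 t) + 2 / 3 * dif (yv T) n ^ 3 :=
    fun n hn => one_gap hT1 r X i0 hr (hpos n hn).1 (hsubi n hn)
  refine (Finset.sum_le_sum h1).trans ?_
  rw [Finset.sum_add_distrib, ← Finset.mul_sum, ← Finset.mul_sum]
  have h2 := intervalIntegral.sum_integral_adjacent_intervals_Ico (μ := volume)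
    (f := GG T r X i0) (a := ord) (m := NZ T + 1) (n := NZ (2 * T)) hab.le
    (fun k hk => hsubi k (by rw [Finset.mem_Ico]; exact hk))
  rw [h2]
  have ha : T < ord (NZ T + 1) := (hpos (NZ T + 1) (by rw [Finset.mem_Ico]; omega)).2.1
  have hb : ord (NZ (2 * T)) ≤ 2 * T := (SG.ord_le_iff (by omega) _).mpr le_rfl
  have hab' : ord (NZ T + 1) ≤ ord (NZ (2 * T)) := SG.ord_mono (by omega) hab.le
  have hGnn : ∀ t, 0 ≤ GG T r X i0 t := fun t =>
    le_trans (sq_nonneg _) (point hT1 r X i0 hr t)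
  have h3 : ∫ t in (ord (NZ T + 1))..(ord (NZ (2 * T))), GG T r X i0 t ≤
      ∫ t in T..(2 * T), GG T r X i0 t := by
    apply intervalIntegral.integral_mono_interval ha.le hab' hb _ hGi
    exact Filter.Eventually.of_forall hGnn
  have h4 := hcube 0 T hgd (Finset.Ico (NZ T + 1) (NZ (2 * T))) (by
    intro n hn
    rw [Finset.mem_Ico] at hn
    have : NZ (2 * T) ≤ NZ (3 * T) := SG.NZ_mono (by linarith)
    omega)
  have h5 : 2 / ww T * (∫ t in (ord (NZ T + 1))..(ord (NZ (2 * T))), GG T r X i0 t) ≤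
      Real.log T / 3 * (C1 * (1 + Real.log r) * T) := by
    have h6 : 2 / ww T ≤ Real.log T / 3 := by
      unfold ww
      rw [show 2 / (2 * Real.pi / Real.log T) = Real.log T / Real.pi by field_simp]
      exact div_le_div_of_nonneg_left hL.le (by norm_num) hpi3.le
    exact mul_le_mul h6 (h3.trans hGb) (intervalIntegral.integral_nonneg hab'
      fun t _ => hGnn t) (by positivity)
  have h7 : 0 ≤ C1 * (T * Real.log T) := by positivity
  have h8 : 0 ≤ C3 * (T * Real.log T) := by positivity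
  have h9 : 0 ≤ C1 * (T * Real.log T) * Real.log r := by positivity
  have h10 : 0 ≤ C3 * (T * Real.log T) * Real.log r := by positivity
  nlinarith

/-! ## Dyadic summation -/

lemma dyadic {f : ℕ → ℝ} (hf : ∀ n, 0 ≤ f n) {v : ℝ} (hv : 0 < v)
    (h : ∀ᶠ T : ℝ in atTop, ∑ n ∈ Finset.Icc 1 (NZ (2 * T)), f n ≤
      ∑ n ∈ Finset.Icc 1 (NZ T), f n + v * (T * Real.log T)) :
    ∀ᶠ N : ℕ in atTop, ∑ n ∈ Finset.Icc 1 N, f n ≤ 60 * v * N := by
  obtain ⟨T1, hT1⟩ := h.exists_forall_of_atTop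
  obtain ⟨T0, hT0⟩ : ∃ T0 : ℝ, T0 = max T1 10 := ⟨_, rfl⟩
  have hT01 : T1 ≤ T0 := hT0 ▸ le_max_left _ _
  have hT010 : 10 ≤ T0 := hT0 ▸ le_max_right _ _
  have hmono : ∀ a b : ℕ, a ≤ b → ∑ n ∈ Finset.Icc 1 a, f n ≤ ∑ n ∈ Finset.Icc 1 b, f n := by
    intro a b hab
    exact Finset.sum_le_sum_of_subset_of_nonneg (Finset.Icc_subset_Icc le_rfl hab)
      fun n _ _ => hf n
  have key : ∀ m : ℕ, ∑ n ∈ Finset.Icc 1 (NZ (2 ^ m * T0)), f n ≤
      ∑ n ∈ Finset.Icc 1 (NZ T0), f n + v * (2 ^ m * T0 * Real.log (2 ^ m * T0)) := by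
    intro m
    induction m with
    | zero =>
      rw [pow_zero, one_mul]
      have : 0 ≤ v * (T0 * Real.log T0) := by
        have := Real.log_nonneg (show 1 ≤ T0 by linarith)
        positivity
      linarith
    | succ m ih =>
      have hp : (1 : ℝ) ≤ 2 ^ m := one_le_pow₀ (by norm_num)
      have hge : T0 ≤ 2 ^ m * T0 := by nlinarith
      have h1 := hT1 (2 ^ m * T0) (hT01.trans hge)
      rw [show (2 : ℝ) ^ (m + 1) * T0 = 2 * (2 ^ m * T0) by ring]
      have h2 : Real.log (2 ^ m * T0) ≤ Real.log (2 * (2 ^ m * T0)) :=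
        Real.log_le_log (by linarith) (by linarith)
      have h3 : 0 ≤ Real.log (2 ^ m * T0) := Real.log_nonneg (by linarith)
      have h4 : v * (2 ^ m * T0 * Real.log (2 ^ m * T0)) ≤
          v * (2 ^ m * T0 * Real.log (2 * (2 ^ m * T0))) := by
        apply mul_le_mul_of_nonneg_left _ hv.le
        apply mul_le_mul_of_nonneg_left h2 (by linarith)
      nlinarith
  obtain ⟨F0, hF0⟩ : ∃ F0 : ℝ, F0 = ∑ n ∈ Finset.Icc 1 (NZ T0), f n := ⟨_, rfl⟩
  rw [← hF0] at key
  have h1 := GP.ord_asymp 1 one_pos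
  filter_upwards [h1, SG.ord_tendsto.eventually_ge_atTop (max (2 * T0) 10),
    eventually_ge_atTop ⌈F0 / v⌉₊] with N ⟨hN, _⟩ hN2 hN3
  have hoT : 2 * T0 ≤ ord N := (le_max_left _ _).trans hN2
  have ho10 : 10 ≤ ord N := (le_max_right _ _).trans hN2
  -- choose m
  obtain ⟨m, hm1, hm2⟩ : ∃ m : ℕ, ord N ≤ 2 ^ m * T0 ∧ 2 ^ m * T0 ≤ 2 * ord N := by
    have hlim : Tendsto (fun m : ℕ => (2 : ℝ) ^ m * T0) atTop atTop :=
      (tendsto_pow_atTop_atTop_of_one_lt (by norm_num)).atTop_mul_const (by linarith)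
    have hex : ∃ m : ℕ, ord N ≤ 2 ^ m * T0 := (hlim.eventually_ge_atTop (ord N)).exists
    classical
    refine ⟨Nat.find hex, Nat.find_spec hex, ?_⟩
    rcases Nat.eq_zero_or_pos (Nat.find hex) with h2 | h2
    · rw [h2, pow_zero, one_mul]
      linarith
    · have h3 := Nat.find_min hex (m := Nat.find hex - 1) (by omega)
      push Not at h3
      have h4 : (2 : ℝ) ^ Nat.find hex = 2 * 2 ^ (Nat.find hex - 1) := by
        rw [← pow_succ']
        congr 1
        omega
      rw [h4]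
      linarith
  have h2 : N ≤ NZ (2 ^ m * T0) := by
    rcases Nat.eq_zero_or_pos N with h3 | h3
    · omega
    · exact (SG.ord_le_iff h3 _).mp hm1
  have h3 := (hmono _ _ h2).trans (key m)
  have hlog : Real.log (2 ^ m * T0) ≤ 2 * Real.log (ord N) := by
    have h4 : Real.log (2 ^ m * T0) ≤ Real.log (ord N ^ 2) :=
      Real.log_le_log (by linarith) (by nlinarith)
    rw [Real.log_pow] at h4
    exact_mod_cast h4
  have hlog0 : 0 ≤ Real.log (ord N) := Real.log_nonneg (by linarith)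
  have hlog0' : 0 ≤ Real.log (2 ^ m * T0) := Real.log_nonneg (by linarith)
  have h5 : 2 ^ m * T0 * Real.log (2 ^ m * T0) ≤ 2 * ord N * (2 * Real.log (ord N)) :=
    mul_le_mul hm2 hlog hlog0' (by linarith)
  have hpi := Real.pi_pos
  have hpi4 := Real.pi_lt_d2
  have h6 : ord N * Real.log (ord N) ≤ 2 * Real.pi * (2 * N) := by
    have h7 : GP.X (ord N) = ord N * Real.log (ord N) / (2 * Real.pi) := by
      unfold GP.X
      ring
    rw [h7, div_le_iff₀ (by positivity)] at hN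
    linarith
  have h8 : F0 ≤ v * N := by
    have h9 := (Nat.le_ceil (F0 / v)).trans (by exact_mod_cast hN3 : ((⌈F0 / v⌉₊ : ℕ) : ℝ) ≤ N)
    rw [div_le_iff₀ hv] at h9
    linarith
  have hN0 : (0 : ℝ) ≤ N := Nat.cast_nonneg N
  have h10 : v * (2 ^ m * T0 * Real.log (2 ^ m * T0)) ≤ v * (4 * (2 * Real.pi * (2 * N))) :=
    mul_le_mul_of_nonneg_left (by linarith) hv.le
  have h11 : v * (4 * (2 * Real.pi * (2 * N))) ≤ v * (51 * N) := by
    apply mul_le_mul_of_nonneg_left _ hv.le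
    nlinarith
  have h12 : 0 ≤ v * N := by positivity
  nlinarith

end Pool.Agent.Q31.GV
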