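import Pool.Agent.Q31.GV.Rec

set_option autoImplicit false

/-! # The variance of the sum of `r` consecutive gaps is at most a constant times `1 + log r` -/

open Filter Topology Finset

namespace Pool.Agent.Q31.GV

open Pool.Agent.Y743.LR (dl)

lemma log_cube {J : ℝ} (hJ : 1 ≤ J) : (1 + Real.log J) ^ 3 ≤ 216 * Real.sqrt J := by
  have hJ0 : 0 < J := by linarith
  obtain ⟨x, hx⟩ : ∃ x : ℝ, x = J ^ (1 / 6 : ℝ) := ⟨_, rfl⟩
  have hx0 : 0 < x := by rw [hx]; positivity
  have h1 : Real.log J = 6 * Real.log x := by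
    rw [hx, Real.log_rpow hJ0]
    ring
  have h2 := Real.log_le_sub_one_of_pos hx0
  have h3 : 1 + Real.log J ≤ 6 * x := by rw [h1]; linarith
  have h4 : 0 ≤ 1 + Real.log J := by linarith [Real.log_nonneg hJ]
  have h5 : x ^ 3 = Real.sqrt J := by
    rw [hx, Real.sqrt_eq_rpow, ← Real.rpow_natCast, ← Real.rpow_mul hJ0.le]
    norm_num
  calc (1 + Real.log J) ^ 3 ≤ (6 * x) ^ 3 := pow_le_pow_left₀ h4 h3 3
    _ = 216 * x ^ 3 := by ring
    _ = _ := by rw [h5]

/-- **the variance of the sum of `r` consecutive gaps** -/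
theorem var_le (hRH : RiemannHypothesis) : ∃ C : ℝ, 0 < C ∧ ∀ r : ℕ, 1 ≤ r →
    Vb r (C * (1 + Real.log r)) := by
  obtain ⟨C, c, hC, hc, m0, hm0, hpass⟩ := pass hRH
  obtain ⟨C2, hC2, h2⟩ := mom_SD hRH 1
  obtain ⟨A, hA⟩ : ∃ A : ℝ, A = 6 / c + m0 + 4 := ⟨_, rfl⟩
  have hA0 : 0 < A := by rw [hA]; positivity
  -- the base
  have hbase : ∀ j : ℕ, Vb j (C2 * (j : ℝ) ^ 2) := by
    intro j
    filter_upwards [eventually_ge_atTop j] with N hN
    have h3 := h2 j N hN
    simpa using h3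
  -- the choice of `J`
  have hJ : ∀ r : ℕ, 1 ≤ r → ∃ J : ℕ, m0 ≤ J ∧ 1 ≤ J ∧ (J : ℝ) ≤ A * (1 + Real.log r) ∧
      (r : ℝ) ^ 6 * Real.exp (-c * J * Real.log J) ≤ 1 := by
    intro r hr
    have hr0 : (0 : ℝ) < r := by exact_mod_cast hr
    have hlogr : 0 ≤ Real.log r := Real.log_nonneg (by exact_mod_cast hr)
    refine ⟨⌈6 / c * (1 + Real.log r)⌉₊ + m0 + 3, by omega, by omega, ?_, ?_⟩
    · have h3 := (Nat.ceil_lt_add_one (show 0 ≤ 6 / c * (1 + Real.log r) by positivity)).le
      push_cast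
      rw [hA]
      have h4 : 0 ≤ (m0 : ℝ) * Real.log r := by positivity
      nlinarith
    · obtain ⟨J, hJd⟩ : ∃ J : ℕ, J = ⌈6 / c * (1 + Real.log r)⌉₊ + m0 + 3 := ⟨_, rfl⟩
      rw [← hJd]
      have h3 : (3 : ℝ) ≤ J := by
        have : 3 ≤ J := by omega
        exact_mod_cast this
      have h4 : 6 / c * (1 + Real.log r) ≤ J := by
        have h5 := Nat.le_ceil (6 / c * (1 + Real.log r))
        have h6 : ((⌈6 / c * (1 + Real.log r)⌉₊ : ℕ) : ℝ) ≤ J := by
          have : ⌈6 / c * (1 + Real.log r)⌉₊ ≤ J := by omega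
          exact_mod_cast this
        linarith
      have hl : 1 ≤ Real.log J := by
        rw [Real.le_log_iff_exp_le (by linarith)]
        linarith [Real.exp_one_lt_d9]
      have h7 : 6 * Real.log r ≤ c * J * Real.log J := by
        have h8 : 6 * (1 + Real.log r) ≤ c * J := by
          rw [div_mul_eq_mul_div, div_le_iff₀ hc] at h4
          linarith
        have h9 : c * J * 1 ≤ c * J * Real.log J := mul_le_mul_of_nonneg_left hl (by positivity)
        linarith
      have h10 : (r : ℝ) ^ 6 = Real.exp (6 * Real.log r) := by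
        rw [show (6 : ℝ) * Real.log r = ((6 : ℕ) : ℝ) * Real.log r by norm_num, Real.exp_nat_mul,
          Real.exp_log hr0]
      rw [h10, ← Real.exp_add, Real.exp_le_one_iff]
      linarith
  -- first pass
  obtain ⟨C', hC'⟩ : ∃ C' : ℝ, C' = C + C * C2 * A ^ 3 := ⟨_, rfl⟩
  have hC'0 : 0 < C' := by rw [hC']; positivity
  have hp1 : ∀ r : ℕ, 1 ≤ r → Vb r (C' * (1 + Real.log r) ^ 3) := by
    intro r hr
    obtain ⟨J, hJm, hJ1, hJA, hJe⟩ := hJ r hr
    have hlogr : 0 ≤ Real.log r := Real.log_nonneg (by exact_mod_cast hr)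
    have hJ0 : (0 : ℝ) < J := by exact_mod_cast hJ1
    have hJ1' : (1 : ℝ) ≤ J := by exact_mod_cast hJ1
    refine (hpass r J hr hJm hJe (fun j => C2 * (j : ℝ) ^ 2)
      (fun j _ => ⟨by positivity, hbase j⟩)).mono ?_
    have hs : ∑ j ∈ range J, C2 * (j : ℝ) ^ 2 ≤ C2 * (J : ℝ) ^ 3 := by
      calc _ ≤ ∑ _j ∈ range J, C2 * (J : ℝ) ^ 2 := by
            refine Finset.sum_le_sum fun j hj => ?_
            rw [Finset.mem_range] at hj
            have : (j : ℝ) ≤ J := by exact_mod_cast hj.le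
            exact mul_le_mul_of_nonneg_left (pow_le_pow_left₀ (Nat.cast_nonneg _) this 2) hC2.le
        _ = _ := by
            rw [Finset.sum_const, Finset.card_range, nsmul_eq_mul]
            ring
    have hM : 1 ≤ Real.sqrt J := by
      rw [Real.one_le_sqrt]
      exact hJ1'
    have h3 : C / Real.sqrt J * ∑ j ∈ range J, C2 * (j : ℝ) ^ 2 ≤ C * (C2 * (J : ℝ) ^ 3) := by
      apply mul_le_mul (div_le_self hC.le hM) hs _ hC.le
      exact Finset.sum_nonneg fun _ _ => by positivity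
    have h4 : (J : ℝ) ^ 3 ≤ (A * (1 + Real.log r)) ^ 3 := pow_le_pow_left₀ hJ0.le hJA 3
    have h5 : (1 : ℝ) + Real.log r ≤ (1 + Real.log r) ^ 3 := by
      have : (1 : ℝ) ≤ 1 + Real.log r := by linarith
      calc (1 : ℝ) + Real.log r = (1 + Real.log r) ^ 1 := (pow_one _).symm
        _ ≤ _ := pow_le_pow_right₀ this (by norm_num)
    calc _ ≤ C * (1 + Real.log r) ^ 3 + C * (C2 * (A * (1 + Real.log r)) ^ 3) := by
          apply add_le_add (mul_le_mul_of_nonneg_left h5 hC.le)
          refine h3.trans ?_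
          apply mul_le_mul_of_nonneg_left _ hC.le
          exact mul_le_mul_of_nonneg_left h4 hC2.le
      _ = _ := by
          rw [hC']
          ring
  -- second pass
  refine ⟨C + 216 * (C * C') * A, by positivity, fun r hr => ?_⟩
  obtain ⟨J, hJm, hJ1, hJA, hJe⟩ := hJ r hr
  have hlogr : 0 ≤ Real.log r := Real.log_nonneg (by exact_mod_cast hr)
  have hJ0 : (0 : ℝ) < J := by exact_mod_cast hJ1
  have hJ1' : (1 : ℝ) ≤ J := by exact_mod_cast hJ1
  have hlogJ : 0 ≤ Real.log J := Real.log_nonneg hJ1'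
  refine (hpass r J hr hJm hJe (fun _ => C' * (1 + Real.log J) ^ 3)
    (fun j hj => ⟨by positivity, ?_⟩)).mono ?_
  · rcases Nat.eq_zero_or_pos j with h0 | h0
    · subst h0
      refine (hbase 0).mono ?_
      simp only [Nat.cast_zero, ne_eq, OfNat.ofNat_ne_zero, not_false_eq_true, zero_pow, mul_zero]
      positivity
    · refine (hp1 j h0).mono ?_
      have h3 : Real.log j ≤ Real.log J := Real.log_le_log (by exact_mod_cast h0)
        (by exact_mod_cast hj.le)
      have h4 : 0 ≤ Real.log j := Real.log_nonneg (by exact_mod_cast h0)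
      apply mul_le_mul_of_nonneg_left _ hC'0.le
      exact pow_le_pow_left₀ (by linarith) (by linarith) 3
  · rw [Finset.sum_const, Finset.card_range, nsmul_eq_mul]
    have hM : 0 < Real.sqrt J := Real.sqrt_pos.2 hJ0
    have hMM : Real.sqrt J * Real.sqrt J = J := Real.mul_self_sqrt hJ0.le
    have h3 := log_cube hJ1'
    have h4 : C / Real.sqrt J * (J * (C' * (1 + Real.log J) ^ 3)) ≤ 216 * (C * C') * J := by
      have h5 : (J : ℝ) / Real.sqrt J = Real.sqrt J := by rw [div_eq_iff hM.ne', hMM]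
      calc C / Real.sqrt J * (J * (C' * (1 + Real.log J) ^ 3)) =
            (C * C') * (J / Real.sqrt J) * (1 + Real.log J) ^ 3 := by ring
        _ = (C * C') * Real.sqrt J * (1 + Real.log J) ^ 3 := by rw [h5]
        _ ≤ (C * C') * Real.sqrt J * (216 * Real.sqrt J) :=
            mul_le_mul_of_nonneg_left h3 (by positivity)
        _ = 216 * (C * C') * (Real.sqrt J * Real.sqrt J) := by ring
        _ = _ := by rw [hMM]
    have h6 : 216 * (C * C') * J ≤ 216 * (C * C') * (A * (1 + Real.log r)) :=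
      mul_le_mul_of_nonneg_left hJA (by positivity)
    linarith

end Pool.Agent.Q31.GV
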