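import Pool.Agent.Q31.GV.LowB
import Pool.Agent.Q31.GV.Fin
import Pool.Agent.Q31.GP.Half

set_option autoImplicit false

/-! # Lower bound for the variance of sums of gaps -/

open Filter Topology Finset MeasureTheory

namespace Pool.Agent.Q31.GV

open SG (ord NZ)
open Pool.Agent.Y743.LR (dif yv dl dif_yv)

lemma Zr_cube {T : ℝ} (hT : 1 < T) (r n : ℕ) (h : ∀ i < r, 0 ≤ dif (yv T) (n + i)) :
    Zr T r n ^ 3 ≤ (r : ℝ) ^ 2 * ∑ i ∈ range r, dif (yv T) (n + i) ^ 3 := by
  rw [Zr_sum hT]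
  have h1 : ∀ i ∈ range r, dif (yv T) (n + i) = max (dif (yv T) (n + i)) 0 := by
    intro i hi
    rw [max_eq_left (h i (Finset.mem_range.mp hi))]
  rw [Finset.sum_congr rfl h1]
  have h2 := cube_sum_le (r := r) (f := fun i => max (dif (yv T) (n + i)) 0)
    (fun i => le_max_right _ _)
  refine h2.trans (le_of_eq ?_)
  congr 1
  refine Finset.sum_congr rfl fun i hi => ?_
  rw [← h1 i hi]

/-- **lower bound for the weighted variance**, form for the sequence of gaps -/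
theorem low_N (hRH : RiemannHypothesis) : ∃ a b : ℝ, 0 < a ∧ 0 < b ∧ ∀ r : ℕ, 1 ≤ r →
    ∀ᶠ N : ℕ in atTop, (a * Real.log r - b) * N ≤
      ∑ n ∈ Icc 1 N, |dl n| * ((SD r n - r) ^ 2 + (SD r (n + 1) - r) ^ 2) := by
  have hRHs := H177.Lat.rhs_of hRH
  obtain ⟨a, b, ha, hb, hlow⟩ := low_block hRH
  obtain ⟨κ, D, C2, hκ, hκ1, hD, hC2, hgood⟩ := Pool.Agent.Y743.LR.good_ev
  obtain ⟨C3, hC3, hcube⟩ := Pool.Agent.Y743.LR.gam_cube hRHs (κ := κ) (D := D) hκ hC2
  obtain ⟨K, hK, hn3⟩ := near3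
  refine ⟨3 / 32 * a, b + 1, by positivity, by positivity, fun r hr => ?_⟩
  have hr1 : (1 : ℝ) ≤ r := by exact_mod_cast hr
  have hlogr : 0 ≤ Real.log r := Real.log_nonneg hr1
  obtain ⟨T0, hT0, hg⟩ := hgood 0
  -- the statement on a block
  have hblk : ∀ᶠ T : ℝ in atTop, (a * Real.log r - (b + 1)) * (T * Real.log T) ≤
      4 * ∑ n ∈ Icc (NZ T) (NZ (2 * T)), |dl n| * ((SD r n - r) ^ 2 + (SD r (n + 1) - r) ^ 2) := by
    filter_upwards [hlow r hr, eventually_ge_atTop T0, hn3, many r,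
      Real.tendsto_log_atTop.eventually_ge_atTop
        (K + 1 + 16 * K ^ 2 * ((1 + (r : ℝ) ^ 3) * C3))] with T hl hT hcmp hM2 hTL
    have hT10 : 10 ≤ T := hT0.trans hT
    have hT1 : 1 < T := by linarith
    have hgd := hg T hT
    have hL := Real.log_pos hT1
    obtain ⟨L, hLd⟩ : ∃ L : ℝ, L = Real.log T := ⟨_, rfl⟩
    rw [← hLd] at hl hTL hL ⊢
    have hq0 : 0 ≤ 16 * K ^ 2 * ((1 + (r : ℝ) ^ 3) * C3) := by positivity
    have hKL2 : 16 * K ^ 2 * ((1 + (r : ℝ) ^ 3) * C3) ≤ L := by linarith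
    have hL1 : 1 ≤ L := by linarith
    have hYpos : 0 < T * L := by positivity
    have hn1 := hgd.n1
    have hpt : ∀ n ∈ Icc (NZ T) (NZ (2 * T)), dif (yv T) n *
        ((Zr T r n - r) ^ 2 + (Zr T r (n + 1) - r) ^ 2) ≤
        4 * (|dl n| * ((SD r n - r) ^ 2 + (SD r (n + 1) - r) ^ 2)) +
        4 * (K / L) ^ 2 * (2 * dif (yv T) n ^ 3 + (Zr T r n ^ 3 + Zr T r (n + 1) ^ 3)) := by
      intro n hn
      rw [Finset.mem_Icc] at hn
      obtain ⟨b1, b2, b3, b4⟩ := hcmp n hn.1 (by omega)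
      have hZ : ∀ s ≤ 1, 0 ≤ Zr T r (n + s) ∧ |Zr T r (n + s) - SD r (n + s)| ≤
          K / L * Zr T r (n + s) := by
        intro s hs
        constructor
        · rw [Zr_sum hT1]
          refine Finset.sum_nonneg fun i hi => ?_
          rw [Finset.mem_range] at hi
          exact (hcmp (n + s + i) (by omega) (by omega)).1
        · rw [Zr_sum hT1]
          unfold SD
          rw [← Finset.sum_sub_distrib, Finset.mul_sum]
          refine (Finset.abs_sum_le_sum_abs _ _).trans (Finset.sum_le_sum fun i hi => ?_)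
          rw [Finset.mem_range] at hi
          rw [hLd]
          exact (hcmp (n + s + i) (by omega) (by omega)).2.2.2
      have hsq : ∀ s ≤ 1, (Zr T r (n + s) - r) ^ 2 ≤ 2 * (SD r (n + s) - r) ^ 2 +
          2 * ((K / L) ^ 2 * Zr T r (n + s) ^ 2) := by
        intro s hs
        obtain ⟨c1, c2⟩ := hZ s hs
        have c3 : (Zr T r (n + s) - SD r (n + s)) ^ 2 ≤ (K / L * Zr T r (n + s)) ^ 2 := by
          rw [← sq_abs]
          exact pow_le_pow_left₀ (abs_nonneg _) c2 2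
        rw [mul_pow] at c3
        nlinarith [sq_nonneg ((SD r (n + s) - r) - (Zr T r (n + s) - SD r (n + s)))]
      have h0 := hsq 0 (by norm_num)
      have h1 := hsq 1 le_rfl
      have z0 := mul_sq_le b1 (hZ 0 (by norm_num)).1
      have z1 := mul_sq_le b1 (hZ 1 le_rfl).1
      rw [add_zero] at h0 z0
      have hKK : 0 ≤ (K / L) ^ 2 := sq_nonneg _
      have hA : 0 ≤ (SD r n - r) ^ 2 + (SD r (n + 1) - r) ^ 2 := by positivity
      have s1 : dif (yv T) n * ((Zr T r n - r) ^ 2 + (Zr T r (n + 1) - r) ^ 2) ≤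
          dif (yv T) n * (2 * ((SD r n - r) ^ 2 + (SD r (n + 1) - r) ^ 2) +
            2 * ((K / L) ^ 2 * (Zr T r n ^ 2 + Zr T r (n + 1) ^ 2))) :=
        mul_le_mul_of_nonneg_left (by linarith) b1
      have s2 : dif (yv T) n * ((SD r n - r) ^ 2 + (SD r (n + 1) - r) ^ 2) ≤
          (2 * |dl n|) * ((SD r n - r) ^ 2 + (SD r (n + 1) - r) ^ 2) :=
        mul_le_mul_of_nonneg_right b3 hA
      have s3 : (K / L) ^ 2 * (dif (yv T) n * Zr T r n ^ 2 + dif (yv T) n * Zr T r (n + 1) ^ 2) ≤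
          (K / L) ^ 2 * (2 * dif (yv T) n ^ 3 + (Zr T r n ^ 3 + Zr T r (n + 1) ^ 3)) :=
        mul_le_mul_of_nonneg_left (by linarith) hKK
      have s4 : 0 ≤ (K / L) ^ 2 * (2 * dif (yv T) n ^ 3 + (Zr T r n ^ 3 + Zr T r (n + 1) ^ 3)) :=
        mul_nonneg hKK (by
          have u0 := pow_nonneg b1 3
          have u1 := pow_nonneg (hZ 0 (by norm_num)).1 3
          have u2 := pow_nonneg (hZ 1 le_rfl).1 3
          rw [add_zero] at u1
          linarith)
      nlinarith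
    have hsum := Finset.sum_le_sum hpt
    rw [Finset.sum_add_distrib, ← Finset.mul_sum, ← Finset.mul_sum, Finset.sum_add_distrib,
      ← Finset.mul_sum, Finset.sum_add_distrib] at hsum
    have hc1 := hcube 0 T hgd (Icc (NZ T) (NZ (2 * T))) (by
      intro n hn
      rw [Finset.mem_Icc] at hn
      omega)
    have hcz : ∀ s ≤ 1, ∑ n ∈ Icc (NZ T) (NZ (2 * T)), Zr T r (n + s) ^ 3 ≤
        (r : ℝ) ^ 3 * (C3 * (T * Real.log T)) := by
      intro s hs
      calc ∑ n ∈ Icc (NZ T) (NZ (2 * T)), Zr T r (n + s) ^ 3 ≤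
            ∑ n ∈ Icc (NZ T) (NZ (2 * T)), (r : ℝ) ^ 2 *
              ∑ i ∈ range r, dif (yv T) (n + s + i) ^ 3 := by
            refine Finset.sum_le_sum fun n hn => Zr_cube hT1 r (n + s) fun i hi => ?_
            rw [Finset.mem_Icc] at hn
            exact (hcmp (n + s + i) (by omega) (by omega)).1
        _ = (r : ℝ) ^ 2 * ∑ i ∈ range r, ∑ n ∈ Icc (NZ T) (NZ (2 * T)),
              dif (yv T) (n + s + i) ^ 3 := by
            rw [← Finset.mul_sum, Finset.sum_comm]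
        _ ≤ (r : ℝ) ^ 2 * ∑ _i ∈ range r, C3 * (T * Real.log T) := by
            apply mul_le_mul_of_nonneg_left _ (by positivity)
            refine Finset.sum_le_sum fun i hi => ?_
            rw [Finset.mem_range] at hi
            have e : ∑ n ∈ Icc (NZ T) (NZ (2 * T)), dif (yv T) (n + s + i) ^ 3 =
                ∑ n ∈ (Icc (NZ T) (NZ (2 * T))).image (fun n => n + s + i),
                  dif (yv T) n ^ 3 := by
              rw [Finset.sum_image]
              intro x _ y _ hxy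
              have : x + s + i = y + s + i := hxy
              omega
            rw [e]
            apply hcube 0 T hgd
            intro n hn
            rw [Finset.mem_image] at hn
            obtain ⟨m, hm, rfl⟩ := hn
            rw [Finset.mem_Icc] at hm
            omega
        _ = _ := by
            rw [Finset.sum_const, Finset.card_range, nsmul_eq_mul]
            ring
    have hz0 := hcz 0 (by norm_num)
    have hz1 := hcz 1 le_rfl
    simp only [add_zero] at hz0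
    rw [← hLd] at hc1 hz0 hz1
    have h7 : 4 * (K / L) ^ 2 * (2 * ∑ n ∈ Icc (NZ T) (NZ (2 * T)), dif (yv T) n ^ 3 +
        (∑ n ∈ Icc (NZ T) (NZ (2 * T)), Zr T r n ^ 3 +
        ∑ n ∈ Icc (NZ T) (NZ (2 * T)), Zr T r (n + 1) ^ 3)) ≤ T * L := by
      have h8 : 4 * (K / L) ^ 2 * (2 * ((1 + (r : ℝ) ^ 3) * C3)) ≤ 1 := by
        rw [div_pow, mul_div_assoc', div_mul_eq_mul_div, div_le_one (by positivity)]
        nlinarith
      calc _ ≤ 4 * (K / L) ^ 2 * (2 * (C3 * (T * L)) + ((r : ℝ) ^ 3 * (C3 * (T * L)) +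
            (r : ℝ) ^ 3 * (C3 * (T * L)))) := by
            apply mul_le_mul_of_nonneg_left _ (by positivity)
            linarith
        _ = (4 * (K / L) ^ 2 * (2 * ((1 + (r : ℝ) ^ 3) * C3))) * (T * L) := by ring
        _ ≤ 1 * (T * L) := mul_le_mul_of_nonneg_right h8 hYpos.le
        _ = _ := one_mul _
    linarith
  -- the sequence of heights
  have hord : Tendsto (fun N : ℕ => ord N / 4) atTop atTop :=
    SG.ord_tendsto.atTop_div_const (by norm_num)
  filter_upwards [hord.eventually hblk, GP.ord_asymp 1 one_pos, eventually_ge_atTop 1,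
    SG.ord_tendsto.eventually_ge_atTop (100 : ℝ),
    (Real.tendsto_log_atTop.comp SG.ord_tendsto).eventually_ge_atTop (8 : ℝ),
    hord.eventually (eventually_ge_atTop T0)] with N hN hN2 hN1 hN3 hN4 hN5
  obtain ⟨x, hx⟩ : ∃ x : ℝ, x = ord N := ⟨_, rfl⟩
  have hlogx : 8 ≤ Real.log x := by rw [hx]; exact hN4
  rw [← hx] at hN hN2 hN3 hN5
  have hpi := Real.pi_pos
  have hlog4 : Real.log (x / 4) = Real.log x - Real.log 4 := by
    rw [Real.log_div (by linarith) (by norm_num)]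
  have hl4 : Real.log 4 ≤ 2 := by
    rw [show (4 : ℝ) = 2 ^ 2 by norm_num, Real.log_pow]
    have := Real.log_two_lt_d9
    push_cast
    linarith
  have hl40 : 0 ≤ Real.log 4 := Real.log_nonneg (by norm_num)
  have hXe : GP.X x = x * Real.log x / (2 * Real.pi) := by
    unfold GP.X
    ring
  rw [hXe] at hN2
  obtain ⟨hN2a, hN2b⟩ := hN2
  have hxl : 0 ≤ x * Real.log x := by
    have : 0 ≤ Real.log x := by linarith
    have : 0 ≤ x := by linarith
    positivity
  have hlo : 3 / 8 * (N : ℝ) ≤ x / 4 * Real.log (x / 4) := by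
    have h1 : (N : ℝ) ≤ x * Real.log x / Real.pi := by
      calc (N : ℝ) ≤ (1 + 1) * (x * Real.log x / (2 * Real.pi)) := hN2b
        _ = _ := by field_simp; ring
    have h2 : x * Real.log x / Real.pi ≤ x * Real.log x / 3 :=
      div_le_div_of_nonneg_left hxl (by norm_num) Real.pi_gt_three.le
    have h3 : x / 4 * (Real.log x * (1 / 2)) ≤ x / 4 * Real.log (x / 4) := by
      apply mul_le_mul_of_nonneg_left _ (by linarith)
      rw [hlog4]
      linarith
    linarith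
  have hhi : x / 4 * Real.log (x / 4) ≤ 4 * N := by
    have h1 : x / 4 * Real.log (x / 4) ≤ x / 4 * Real.log x := by
      apply mul_le_mul_of_nonneg_left _ (by linarith)
      rw [hlog4]
      linarith
    have h2 : x * Real.log x ≤ 2 * N * (2 * Real.pi) := by
      rw [div_le_iff₀ (by positivity)] at hN2a
      linarith
    have h3 := Real.pi_lt_d2
    have hN0 : (0 : ℝ) ≤ N := Nat.cast_nonneg _
    nlinarith
  have hsub : ∑ n ∈ Icc (NZ (x / 4)) (NZ (2 * (x / 4))),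
      |dl n| * ((SD r n - r) ^ 2 + (SD r (n + 1) - r) ^ 2) ≤
      ∑ n ∈ Icc 1 N, |dl n| * ((SD r n - r) ^ 2 + (SD r (n + 1) - r) ^ 2) := by
    refine Finset.sum_le_sum_of_subset_of_nonneg (Finset.Icc_subset_Icc (hg _ hN5).n1 ?_)
      fun n _ _ => mul_nonneg (abs_nonneg _) (by positivity)
    by_contra hcon
    push Not at hcon
    have h1 := (SG.ord_le_iff hN1 _).mpr hcon.le
    rw [← hx] at h1
    linarith
  have hN0 : (0 : ℝ) ≤ N := Nat.cast_nonneg _
  have h9 : (a * Real.log r - (b + 1)) * (x / 4 * Real.log (x / 4)) ≤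
      4 * ∑ n ∈ Icc 1 N, |dl n| * ((SD r n - r) ^ 2 + (SD r (n + 1) - r) ^ 2) := by
    linarith
  have h10 : a * Real.log r * (3 / 8 * N) ≤ a * Real.log r * (x / 4 * Real.log (x / 4)) :=
    mul_le_mul_of_nonneg_left hlo (by positivity)
  have h11 : (b + 1) * (x / 4 * Real.log (x / 4)) ≤ (b + 1) * (4 * N) :=
    mul_le_mul_of_nonneg_left hhi (by positivity)
  nlinarith

/-- the contribution of one displacement, with a shifted weight -/
lemma disp2 {C7 C8 : ℝ} (h7 : ∀ N : ℕ, ∑ n ∈ Icc 1 N, |dl n| ^ 7 ≤ C7 * N) (hC7 : 0 < C7)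
    (h8 : ∀ r N : ℕ, r ≤ N → ∑ n ∈ Icc 1 N, |SD r n - r| ^ 7 ≤ C8 * (r : ℝ) ^ 7 * N)
    (hC8 : 0 < C8) {r J i j N : ℕ} (hi : i < J) (hj : j < J) (hJ : 1 ≤ J) (hN : r + J ≤ N) {b : ℝ}
    (hb1 : ∑ n ∈ Icc 1 N, (SD j n - j) ^ 2 ≤ b * N)
    (hb2 : ∑ n ∈ Icc 1 (N + r), (SD j n - j) ^ 2 ≤ b * (N + r : ℕ)) (hb : 0 ≤ b) :
    ∑ n ∈ Icc 1 N, |dl (n + i)| * ((SD j (n + r) - j) - (SD j n - j)) ^ 2 ≤
      6 * Real.sqrt J * b * N + (2 * C7 + 384 * C8) * N := by
  have hJ0 : (0 : ℝ) < J := by exact_mod_cast hJ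
  have hM : 0 < Real.sqrt J := Real.sqrt_pos.2 hJ0
  have hM4 : Real.sqrt J ^ 4 = (J : ℝ) ^ 2 := by
    have : Real.sqrt J ^ 2 = J := Real.sq_sqrt hJ0.le
    calc Real.sqrt J ^ 4 = (Real.sqrt J ^ 2) ^ 2 := by ring
      _ = _ := by rw [this]
  have hN0 : (0 : ℝ) ≤ N := Nat.cast_nonneg _
  have hrN : (r : ℝ) ≤ N := by exact_mod_cast (by omega : r ≤ N)
  have hD2 : ∑ n ∈ Icc 1 N, ((SD j (n + r) - j) - (SD j n - j)) ^ 2 ≤ 6 * b * N := by
    have h1 : ∀ n ∈ Icc 1 N, ((SD j (n + r) - j) - (SD j n - j)) ^ 2 ≤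
        2 * (SD j (n + r) - j) ^ 2 + 2 * (SD j n - j) ^ 2 := by
      intro n _
      nlinarith [sq_nonneg ((SD j (n + r) - j) + (SD j n - j))]
    refine (Finset.sum_le_sum h1).trans ?_
    rw [Finset.sum_add_distrib, ← Finset.mul_sum, ← Finset.mul_sum]
    have h2 := shift_le (f := fun n => (SD j n - j) ^ 2) (fun n => sq_nonneg _) N r
    have h3 : b * ((N + r : ℕ) : ℝ) ≤ b * (2 * N) := by
      apply mul_le_mul_of_nonneg_left _ hb
      push_cast
      linarith
    linarith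
  have hS7 : ∑ n ∈ Icc 1 N, |dl (n + i)| ^ 5 * ((SD j (n + r) - j) - (SD j n - j)) ^ 2 ≤
      (J : ℝ) ^ 2 * ((2 * C7 + 384 * C8) * N) := by
    rcases Nat.eq_zero_or_pos j with h0 | hj0
    · subst h0
      have : ∀ n ∈ Icc 1 N, |dl (n + i)| ^ 5 * ((SD 0 (n + r) - (0 : ℕ)) - (SD 0 n - (0 : ℕ))) ^ 2 =
          0 := by
        intro n _
        simp [SD]
      rw [Finset.sum_eq_zero this]
      positivity
    have hj1 : (0 : ℝ) < j := by exact_mod_cast hj0
    have hjJ : (j : ℝ) ≤ J := by exact_mod_cast hj.le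
    have h1 : ∀ n ∈ Icc 1 N, |dl (n + i)| ^ 5 * ((SD j (n + r) - j) - (SD j n - j)) ^ 2 ≤
        (j : ℝ) ^ 2 * (|dl (n + i)| ^ 7 + 1 / (j : ℝ) ^ 7 *
          (2 ^ 7 * (|SD j (n + r) - j| ^ 7 + |SD j n - j| ^ 7))) := by
      intro n _
      have h2 := pow52 (abs_nonneg (dl (n + i)))
        (show 0 ≤ |(SD j (n + r) - j) - (SD j n - j)| / j by positivity)
      have h3 := add_pow7 (a := SD j (n + r) - j) (b := SD j n - j)
      have h4 : |dl (n + i)| ^ 5 * ((SD j (n + r) - j) - (SD j n - j)) ^ 2 =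
          (j : ℝ) ^ 2 * (|dl (n + i)| ^ 5 * (|(SD j (n + r) - j) - (SD j n - j)| / j) ^ 2) := by
        rw [div_pow, sq_abs]
        field_simp
      rw [h4]
      apply mul_le_mul_of_nonneg_left _ (by positivity)
      refine h2.trans ?_
      have h5 : (|(SD j (n + r) - j) - (SD j n - j)| / j) ^ 7 =
          1 / (j : ℝ) ^ 7 * |(SD j (n + r) - j) - (SD j n - j)| ^ 7 := by
        rw [div_pow]
        ring
      rw [h5]
      have h6 := mul_le_mul_of_nonneg_left h3 (show 0 ≤ 1 / (j : ℝ) ^ 7 by positivity)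
      linarith
    refine (Finset.sum_le_sum h1).trans ?_
    rw [← Finset.mul_sum, Finset.sum_add_distrib, ← Finset.mul_sum, ← Finset.mul_sum,
      Finset.sum_add_distrib]
    have a1 : ∑ n ∈ Icc 1 N, |dl (n + i)| ^ 7 ≤ C7 * (2 * N) := by
      refine (shift_le (f := fun n => |dl n| ^ 7) (fun n => by positivity) N i).trans ?_
      refine (h7 (N + i)).trans ?_
      apply mul_le_mul_of_nonneg_left _ hC7.le
      have : (i : ℝ) ≤ N := by exact_mod_cast (by omega : i ≤ N)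
      push_cast
      linarith
    have a2 : ∑ n ∈ Icc 1 N, |SD j (n + r) - j| ^ 7 ≤ C8 * (j : ℝ) ^ 7 * (2 * N) := by
      refine (shift_le (f := fun n => |SD j n - j| ^ 7) (fun n => by positivity) N r).trans ?_
      refine (h8 j (N + r) (by omega)).trans ?_
      apply mul_le_mul_of_nonneg_left _ (by positivity)
      push_cast
      linarith
    have a3 : ∑ n ∈ Icc 1 N, |SD j n - j| ^ 7 ≤ C8 * (j : ℝ) ^ 7 * N := h8 j N (by omega)
    have a4 : 1 / (j : ℝ) ^ 7 * (2 ^ 7 * (∑ n ∈ Icc 1 N, |SD j (n + r) - j| ^ 7 +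
        ∑ n ∈ Icc 1 N, |SD j n - j| ^ 7)) ≤ 384 * C8 * N := by
      calc _ ≤ 1 / (j : ℝ) ^ 7 * (2 ^ 7 * (C8 * (j : ℝ) ^ 7 * (2 * N) + C8 * (j : ℝ) ^ 7 * N)) := by
            apply mul_le_mul_of_nonneg_left _ (by positivity)
            apply mul_le_mul_of_nonneg_left _ (by positivity)
            linarith
        _ = 384 * C8 * N := by
            field_simp
            ring
    calc (j : ℝ) ^ 2 * (∑ n ∈ Icc 1 N, |dl (n + i)| ^ 7 + 1 / (j : ℝ) ^ 7 *
          (2 ^ 7 * (∑ n ∈ Icc 1 N, |SD j (n + r) - j| ^ 7 + ∑ n ∈ Icc 1 N, |SD j n - j| ^ 7))) ≤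
          (j : ℝ) ^ 2 * ((2 * C7 + 384 * C8) * N) := by
          apply mul_le_mul_of_nonneg_left _ (by positivity)
          linarith
      _ ≤ _ := by
          apply mul_le_mul_of_nonneg_right _ (by positivity)
          exact pow_le_pow_left₀ hj1.le hjJ 2
  have h1 : ∀ n ∈ Icc 1 N, |dl (n + i)| * ((SD j (n + r) - j) - (SD j n - j)) ^ 2 ≤
      Real.sqrt J * ((SD j (n + r) - j) - (SD j n - j)) ^ 2 +
      |dl (n + i)| ^ 5 * ((SD j (n + r) - j) - (SD j n - j)) ^ 2 / Real.sqrt J ^ 4 :=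
    fun n _ => trunc hM (abs_nonneg _)
  refine (Finset.sum_le_sum h1).trans ?_
  rw [Finset.sum_add_distrib, ← Finset.mul_sum, ← Finset.sum_div, hM4]
  have h2 := mul_le_mul_of_nonneg_left hD2 hM.le
  have h3 : (∑ n ∈ Icc 1 N, |dl (n + i)| ^ 5 * ((SD j (n + r) - j) - (SD j n - j)) ^ 2) /
      (J : ℝ) ^ 2 ≤ (2 * C7 + 384 * C8) * N := by
    rw [div_le_iff₀ (by positivity)]
    linarith
  linarith

end Pool.Agent.Q31.GV
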