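import Pool.Agent.Q31.GV.Dew

set_option autoImplicit false

/-! # Removing the weight -/

open Filter Topology Finset MeasureTheory

namespace Pool.Agent.Q31.GV

open Pool.Agent.Y743.LR (dl)

lemma sqrt_log_le {ε : ℝ} (hε : 0 < ε) {y : ℝ} (hy : 1 ≤ y) :
    Real.sqrt y * (1 + Real.log y) ≤ ε * y + 256 / ε ^ 3 := by
  have hy0 : 0 < y := by linarith
  obtain ⟨z, hz⟩ : ∃ z : ℝ, z = Real.sqrt (Real.sqrt y) := ⟨_, rfl⟩
  have hs : 0 < Real.sqrt y := Real.sqrt_pos.2 hy0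
  have hz0 : 0 < z := by rw [hz]; exact Real.sqrt_pos.2 hs
  have hz2 : z ^ 2 = Real.sqrt y := by rw [hz]; exact Real.sq_sqrt hs.le
  have hz4 : z ^ 4 = y := by
    have : z ^ 4 = (z ^ 2) ^ 2 := by ring
    rw [this, hz2]
    exact Real.sq_sqrt hy0.le
  have hlog : Real.log y = 4 * Real.log z := by
    rw [← hz4, Real.log_pow]
    norm_num
  have h1 := Real.log_le_sub_one_of_pos hz0
  rw [hlog, ← hz2, ← hz4]
  have h2 : z ^ 2 * (1 + 4 * Real.log z) ≤ 4 * z ^ 3 := by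
    have : z ^ 2 * (1 + 4 * Real.log z) ≤ z ^ 2 * (4 * z) :=
      mul_le_mul_of_nonneg_left (by linarith) (by positivity)
    calc _ ≤ z ^ 2 * (4 * z) := this
      _ = _ := by ring
  refine h2.trans ?_
  rcases le_total (4 / ε) z with h3 | h3
  · rw [div_le_iff₀ hε] at h3
    have h4 : 4 * z ^ 3 ≤ ε * z ^ 4 := by
      calc 4 * z ^ 3 ≤ (z * ε) * z ^ 3 := mul_le_mul_of_nonneg_right h3 (by positivity)
        _ = _ := by ring
    have : 0 ≤ 256 / ε ^ 3 := by positivity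
    linarith
  · have h4 : 4 * z ^ 3 ≤ 4 * (4 / ε) ^ 3 :=
      mul_le_mul_of_nonneg_left (pow_le_pow_left₀ hz0.le h3 3) (by norm_num)
    have h5 : 4 * (4 / ε) ^ 3 = 256 / ε ^ 3 := by
      rw [div_pow]
      ring
    have : 0 ≤ ε * z ^ 4 := by positivity
    linarith

lemma pow42 {x y : ℝ} (hy : 0 ≤ y) : (x ^ 2 * y) ^ 2 ≤ |x| ^ 6 + y ^ 6 := by
  have e : (x ^ 2 * y) ^ 2 = |x| ^ 4 * y ^ 2 := by
    rw [mul_pow, ← sq_abs x]
    ring
  rw [e]
  have hx := abs_nonneg x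
  rcases le_total |x| y with h | h
  · calc |x| ^ 4 * y ^ 2 ≤ y ^ 4 * y ^ 2 :=
        mul_le_mul_of_nonneg_right (pow_le_pow_left₀ hx h 4) (by positivity)
      _ = y ^ 6 := by ring
      _ ≤ _ := by linarith [pow_nonneg hx 6]
  · calc |x| ^ 4 * y ^ 2 ≤ |x| ^ 4 * |x| ^ 2 :=
        mul_le_mul_of_nonneg_left (pow_le_pow_left₀ hy h 2) (by positivity)
      _ = |x| ^ 6 := by ring
      _ ≤ _ := by linarith [pow_nonneg hy 6]

/-- **removing the weight, one term** -/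
theorem dew1 (hRH : RiemannHypothesis) : ∃ C : ℝ, 0 < C ∧ ∃ J0 : ℕ, 1 ≤ J0 ∧
    ∀ r : ℕ, 1 ≤ r → ∀ J : ℕ, J0 ≤ J → (r : ℝ) ^ 6 * Real.exp (-J) ≤ 1 → ∀ k : ℕ, k ≤ 1 →
    ∀ᶠ N : ℕ in atTop, ∑ n ∈ Icc 1 N, |dl n| * (SD r (n + k) - r) ^ 2 ≤
      1280 * ∑ n ∈ Icc 1 N, (SD r n - r) ^ 2 +
        C * (1 + Real.sqrt (J + 1 : ℕ) * (1 + Real.log (J + 1 : ℕ))) * N := by
  obtain ⟨CV, hCV, hV⟩ := var_le hRH
  obtain ⟨J0, hJ0, hbig⟩ := big hRH
  obtain ⟨C5, hC5, h5⟩ := mom_SD hRH 5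
  obtain ⟨C6, hC6, h6⟩ := mom hRH 6
  obtain ⟨C7, hC7, h7⟩ := mom hRH 7
  obtain ⟨C8, hC8, h8⟩ := mom_SD hRH 6
  refine ⟨1 + 2 * (C5 + 2 * C6 + 64 * 721) + 2 * (2 * C7 + 384 * C8) + 12 * CV, by positivity,
    J0, hJ0, fun r hr J hJ hexp k hk => ?_⟩
  have hJ1 : 1 ≤ J := hJ0.trans hJ
  have hJpos : (0 : ℝ) < J := by exact_mod_cast hJ1
  have hr0 : (0 : ℝ) < r := by exact_mod_cast hr
  obtain ⟨B, hB⟩ : ∃ B : ℝ, B = ∑ j ∈ range J, ∑ n ∈ Icc 1 j, |dl n| * (SD r (n + k) - r) ^ 2 :=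
    ⟨_, rfl⟩
  obtain ⟨b, hb⟩ : ∃ b : ℝ, b = CV * (1 + Real.log (J + 1 : ℕ)) := ⟨_, rfl⟩
  have hlogJ : 0 ≤ Real.log (J + 1 : ℕ) := Real.log_natCast_nonneg _
  have hb0 : 0 ≤ b := by rw [hb]; positivity
  have hVj : ∀ j ∈ range (J + 1), Vb j b := by
    intro j hj
    rw [Finset.mem_range] at hj
    rcases Nat.eq_zero_or_pos j with h0 | hj0
    · subst h0
      refine Filter.Eventually.of_forall fun N => ?_
      have : ∀ n ∈ Icc 1 N, (SD 0 n - (0 : ℕ)) ^ 2 = 0 := fun n _ => by simp [SD]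
      rw [Finset.sum_eq_zero this]
      positivity
    · refine (hV j hj0).mono ?_
      rw [hb]
      apply mul_le_mul_of_nonneg_left _ hCV.le
      have hj1 : (0 : ℝ) < j := by exact_mod_cast hj0
      have := Real.log_le_log hj1 (show (j : ℝ) ≤ (J + 1 : ℕ) by exact_mod_cast hj.le)
      linarith
  have hev : ∀ᶠ N : ℕ in atTop, ∀ j ∈ range (J + 1), ∑ n ∈ Icc 1 N, (SD j n - j) ^ 2 ≤ b * N ∧
      ∑ n ∈ Icc 1 (N + r), (SD j n - j) ^ 2 ≤ b * (N + r : ℕ) := by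
    rw [Filter.eventually_all_finset]
    intro j hj
    exact (hVj j hj).and ((tendsto_add_atTop_nat r).eventually (hVj j hj))
  filter_upwards [hev, hbig J hJ, eventually_ge_atTop (r + (J + 1)), eventually_ge_atTop ⌈B⌉₊]
    with N hN1 hN2 hN3 hN4
  have hN0 : (0 : ℝ) < N := by exact_mod_cast (by omega : 0 < N)
  have hBN : B ≤ N := (Nat.le_ceil B).trans (by exact_mod_cast hN4)
  -- shift the weights
  have hshift : (J : ℝ) * ∑ n ∈ Icc 1 N, |dl n| * (SD r (n + k) - r) ^ 2 ≤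
      B + ∑ n ∈ Icc 1 N, ∑ j ∈ range J, |dl (n + j)| * (SD r (n + j + k) - r) ^ 2 := by
    have h1 : ∀ j ∈ range J, ∑ n ∈ Icc 1 N, |dl n| * (SD r (n + k) - r) ^ 2 ≤
        ∑ n ∈ Icc 1 j, |dl n| * (SD r (n + k) - r) ^ 2 +
        ∑ n ∈ Icc 1 N, |dl (n + j)| * (SD r (n + j + k) - r) ^ 2 := by
      intro j _
      have h2 := GP.shift_sum (fun n => |dl n| * (SD r (n + k) - r) ^ 2) N j
      have h3 : ∑ n ∈ Icc 1 N, |dl n| * (SD r (n + k) - r) ^ 2 ≤
          ∑ n ∈ Icc 1 (N + j), |dl n| * (SD r (n + k) - r) ^ 2 :=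
        Finset.sum_le_sum_of_subset_of_nonneg (Finset.Icc_subset_Icc le_rfl (by omega))
          fun i _ _ => mul_nonneg (abs_nonneg _) (sq_nonneg _)
      linarith
    have h2 := Finset.sum_le_sum h1
    rw [Finset.sum_const, Finset.card_range, nsmul_eq_mul, Finset.sum_add_distrib, ← hB] at h2
    rw [Finset.sum_comm (s := Icc 1 N)]
    exact h2
  -- the pointwise bound
  have hpt : ∀ n ∈ Icc 1 N, ∑ j ∈ range J, |dl (n + j)| * (SD r (n + j + k) - r) ^ 2 ≤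
      2 * ((SD r n - r) ^ 2 * SA J n) + 2 * ∑ j ∈ range J, |dl (n + j)| *
        ((SD (j + k) (n + r) - (j + k : ℕ)) - (SD (j + k) n - (j + k : ℕ))) ^ 2 := by
    intro n _
    unfold SA
    rw [Finset.mul_sum, Finset.mul_sum, Finset.mul_sum, ← Finset.sum_add_distrib]
    refine Finset.sum_le_sum fun j _ => ?_
    have h1 := SD_diff r (j + k) n
    rw [← add_assoc] at h1
    obtain ⟨D, hD⟩ : ∃ D : ℝ, D = (SD (j + k) (n + r) - (j + k : ℕ)) -
      (SD (j + k) n - (j + k : ℕ)) := ⟨_, rfl⟩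
    rw [← hD] at h1 ⊢
    have h2 : SD r (n + j + k) - r = (SD r n - r) + D := by linarith
    rw [h2]
    have h3 : ((SD r n - r) + D) ^ 2 ≤ 2 * (SD r n - r) ^ 2 + 2 * D ^ 2 := by
      nlinarith [sq_nonneg ((SD r n - r) - D)]
    have h4 := mul_le_mul_of_nonneg_left h3 (abs_nonneg (dl (n + j)))
    linarith
  -- the large sums
  obtain ⟨θ, hθ⟩ : ∃ θ : ℝ, θ = 1 / ((r : ℝ) + J) ^ 6 := ⟨_, rfl⟩
  have hθ0 : 0 < θ := by rw [hθ]; positivity
  have hSA0 : ∀ n, 0 ≤ SA J n := fun n => Finset.sum_nonneg fun _ _ => abs_nonneg _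
  have hSA : ∑ n ∈ Icc 1 N, (SD r n - r) ^ 2 * SA J n ≤
      640 * J * ∑ n ∈ Icc 1 N, (SD r n - r) ^ 2 + (C5 + 2 * C6 + 64 * 721) * N := by
    have h1 : ∀ n ∈ Icc 1 N, (SD r n - r) ^ 2 * SA J n ≤ 640 * J * (SD r n - r) ^ 2 +
        (θ * (|SD r n - r| ^ 6 + SA J n ^ 6) + 1 / θ * (if 640 * (J : ℝ) < SA J n then 1 else 0)) := by
      intro n _
      split_ifs with h2
      · have h3 := pow42 (x := SD r n - r) (hSA0 n)
        have h4 : (SD r n - r) ^ 2 * SA J n ≤ θ * ((SD r n - r) ^ 2 * SA J n) ^ 2 + 1 / θ := by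
          generalize (SD r n - r) ^ 2 * SA J n = u
          have h5 : 0 ≤ (θ * u - 1) ^ 2 := sq_nonneg _
          have h6 : θ * (1 / θ) = 1 := by field_simp
          have h7 : θ * u ≤ θ * (θ * u ^ 2 + 1 / θ) := by
            rw [mul_add, h6]
            nlinarith
          exact le_of_mul_le_mul_left h7 hθ0
        have h5 := mul_le_mul_of_nonneg_left h3 hθ0.le
        have h6 : 0 ≤ 640 * (J : ℝ) * (SD r n - r) ^ 2 := by positivity
        linarith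
      · push Not at h2
        have h3 : (SD r n - r) ^ 2 * SA J n ≤ (SD r n - r) ^ 2 * (640 * J) :=
          mul_le_mul_of_nonneg_left h2 (sq_nonneg _)
        have h4 : 0 ≤ θ * (|SD r n - r| ^ 6 + SA J n ^ 6) :=
          mul_nonneg hθ0.le (add_nonneg (by positivity) (pow_nonneg (hSA0 n) 6))
        linarith
    refine (Finset.sum_le_sum h1).trans ?_
    rw [Finset.sum_add_distrib, ← Finset.mul_sum, Finset.sum_add_distrib, ← Finset.mul_sum,
      ← Finset.mul_sum, Finset.sum_add_distrib]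
    have a1 := h5 r N (by omega)
    have a2 : ∑ n ∈ Icc 1 N, SA J n ^ 6 ≤ 2 * C6 * (J : ℝ) ^ 6 * N := by
      have b1 : ∀ n ∈ Icc 1 N, SA J n ^ 6 ≤ (J : ℝ) ^ 5 * ∑ j ∈ range J, |dl (n + j)| ^ 6 := by
        intro n _
        have b2 := pow_sum_div_card_le_sum_pow (s := range J) (f := fun i => |dl (n + i)|)
          (fun i _ => abs_nonneg _) 5
        rw [Finset.card_range, div_le_iff₀ (by positivity)] at b2
        have b2' : (∑ i ∈ range J, |dl (n + i)|) ^ 6 ≤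
            (∑ i ∈ range J, |dl (n + i)| ^ 6) * (J : ℝ) ^ 5 := b2
        unfold SA
        linarith
      refine (Finset.sum_le_sum b1).trans ?_
      rw [← Finset.mul_sum, Finset.sum_comm]
      have b3 : ∑ j ∈ range J, ∑ n ∈ Icc 1 N, |dl (n + j)| ^ 6 ≤ J * (C6 * (2 * N)) := by
        calc _ ≤ ∑ j ∈ range J, C6 * (2 * N) := by
              refine Finset.sum_le_sum fun i hi => ?_
              rw [Finset.mem_range] at hi
              refine (shift_le (f := fun n => |dl n| ^ 6) (fun n => by positivity) N i).trans ?_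
              refine (h6 (N + i)).trans ?_
              apply mul_le_mul_of_nonneg_left _ hC6.le
              have : (i : ℝ) ≤ N := by exact_mod_cast (by omega : i ≤ N)
              push_cast
              linarith
          _ = _ := by rw [Finset.sum_const, Finset.card_range, nsmul_eq_mul]
      calc (J : ℝ) ^ 5 * _ ≤ (J : ℝ) ^ 5 * (J * (C6 * (2 * N))) :=
            mul_le_mul_of_nonneg_left b3 (by positivity)
        _ = _ := by ring
    have a3 : ∑ n ∈ Icc 1 N, (if 640 * (J : ℝ) < SA J n then (1 : ℝ) else 0) ≤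
        N * Real.exp (-J) := by
      have : ∑ n ∈ Icc 1 N, (if 640 * (J : ℝ) < SA J n then (1 : ℝ) else 0) =
          (((Icc 1 N).filter fun n => 640 * (J : ℝ) < SA J n).card : ℝ) := by
        rw [Finset.card_filter]
        push_cast
        rfl
      rw [this]
      exact hN2
    have hrJ : (0 : ℝ) < r + J := by positivity
    have a4 : θ * (∑ n ∈ Icc 1 N, |SD r n - r| ^ 6 + ∑ n ∈ Icc 1 N, SA J n ^ 6) ≤
        (C5 + 2 * C6) * N := by
      have c1 : (r : ℝ) ^ 6 ≤ ((r : ℝ) + J) ^ 6 := pow_le_pow_left₀ hr0.le (by linarith) 6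
      have c2 : (J : ℝ) ^ 6 ≤ ((r : ℝ) + J) ^ 6 := pow_le_pow_left₀ hJpos.le (by linarith) 6
      have c3 : C5 * (r : ℝ) ^ 6 * N ≤ C5 * ((r : ℝ) + J) ^ 6 * N :=
        mul_le_mul_of_nonneg_right (mul_le_mul_of_nonneg_left c1 hC5.le) hN0.le
      have c4 : 2 * C6 * (J : ℝ) ^ 6 * N ≤ 2 * C6 * ((r : ℝ) + J) ^ 6 * N :=
        mul_le_mul_of_nonneg_right (mul_le_mul_of_nonneg_left c2 (by positivity)) hN0.le
      rw [hθ, div_mul_eq_mul_div, one_mul, div_le_iff₀ (by positivity)]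
      calc _ ≤ C5 * ((r : ℝ) + J) ^ 6 * N + 2 * C6 * ((r : ℝ) + J) ^ 6 * N := by
            have a1' : ∑ n ∈ Icc 1 N, |SD r n - r| ^ 6 ≤ C5 * (r : ℝ) ^ 6 * N := a1
            linarith
        _ = _ := by ring
    have a5 : 1 / θ * ∑ n ∈ Icc 1 N, (if 640 * (J : ℝ) < SA J n then (1 : ℝ) else 0) ≤
        64 * 721 * N := by
      have c1 : 1 / θ = ((r : ℝ) + J) ^ 6 := by rw [hθ, one_div_one_div]
      have c2 : ((r : ℝ) + J) ^ 6 ≤ 64 * ((r : ℝ) ^ 6 + (J : ℝ) ^ 6) := by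
        rcases le_total (r : ℝ) J with h | h
        · calc ((r : ℝ) + J) ^ 6 ≤ (2 * (J : ℝ)) ^ 6 :=
              pow_le_pow_left₀ hrJ.le (by linarith) 6
            _ = 64 * (J : ℝ) ^ 6 := by ring
            _ ≤ _ := by nlinarith [pow_pos hr0 6]
        · calc ((r : ℝ) + J) ^ 6 ≤ (2 * (r : ℝ)) ^ 6 :=
              pow_le_pow_left₀ hrJ.le (by linarith) 6
            _ = 64 * (r : ℝ) ^ 6 := by ring
            _ ≤ _ := by nlinarith [pow_pos hJpos 6]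
      have c3 : (J : ℝ) ^ 6 * Real.exp (-J) ≤ 720 := by
        have := Real.pow_div_factorial_le_exp (J : ℝ) hJpos.le 6
        have e : ((Nat.factorial 6 : ℕ) : ℝ) = 720 := by norm_num [Nat.factorial]
        rw [e, div_le_iff₀ (by norm_num)] at this
        rw [Real.exp_neg, mul_inv_le_iff₀ (Real.exp_pos _)]
        linarith
      rw [c1]
      calc _ ≤ ((r : ℝ) + J) ^ 6 * (N * Real.exp (-J)) :=
            mul_le_mul_of_nonneg_left a3 (by positivity)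
        _ ≤ (64 * ((r : ℝ) ^ 6 + (J : ℝ) ^ 6)) * (N * Real.exp (-J)) :=
            mul_le_mul_of_nonneg_right c2 (by positivity)
        _ = 64 * (((r : ℝ) ^ 6 * Real.exp (-J)) + ((J : ℝ) ^ 6 * Real.exp (-J))) * N := by ring
        _ ≤ 64 * (1 + 720) * N := by
            apply mul_le_mul_of_nonneg_right _ hN0.le
            linarith
        _ = _ := by ring
    linarith
  -- the displacements
  have hdisp : ∑ n ∈ Icc 1 N, ∑ j ∈ range J, |dl (n + j)| *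
        ((SD (j + k) (n + r) - (j + k : ℕ)) - (SD (j + k) n - (j + k : ℕ))) ^ 2 ≤
      J * (6 * Real.sqrt (J + 1 : ℕ) * b * N + (2 * C7 + 384 * C8) * N) := by
    rw [Finset.sum_comm]
    calc _ ≤ ∑ _j ∈ range J, (6 * Real.sqrt (J + 1 : ℕ) * b * N + (2 * C7 + 384 * C8) * N) := by
          refine Finset.sum_le_sum fun j hj => ?_
          rw [Finset.mem_range] at hj
          obtain ⟨c1, c2⟩ := hN1 (j + k) (Finset.mem_range.mpr (by omega))
          exact disp2 h7 hC7 h8 hC8 (r := r) (J := J + 1) (i := j) (j := j + k) (by omega)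
            (by omega) (by omega) hN3 c1 c2 hb0
      _ = _ := by rw [Finset.sum_const, Finset.card_range, nsmul_eq_mul]
  -- conclusion
  have hfin := Finset.sum_le_sum hpt
  rw [Finset.sum_add_distrib, ← Finset.mul_sum, ← Finset.mul_sum] at hfin
  obtain ⟨W, hW⟩ : ∃ W : ℝ, W = ∑ n ∈ Icc 1 N, |dl n| * (SD r (n + k) - r) ^ 2 := ⟨_, rfl⟩
  obtain ⟨S, hS⟩ : ∃ S : ℝ, S = ∑ n ∈ Icc 1 N, (SD r n - r) ^ 2 := ⟨_, rfl⟩
  rw [← hW] at hshift ⊢
  rw [← hS] at hSA ⊢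
  obtain ⟨q, hq⟩ : ∃ q : ℝ, q = Real.sqrt (J + 1 : ℕ) * (1 + Real.log (J + 1 : ℕ)) := ⟨_, rfl⟩
  have hq0 : 0 ≤ q := by rw [hq]; positivity
  have hqb : 6 * Real.sqrt (J + 1 : ℕ) * b * N = 6 * CV * q * N := by
    rw [hq, hb]; ring
  rw [hqb] at hdisp
  rw [← hq]
  have hJ1' : (1 : ℝ) ≤ J := by exact_mod_cast hJ1
  have t1 : (J : ℝ) * W ≤ J * (1280 * S + (1 + 2 * (C5 + 2 * C6 + 64 * 721) +
      2 * (2 * C7 + 384 * C8) + 12 * CV * q) * N) := by
    have t2 : (1 + 2 * (C5 + 2 * C6 + 64 * 721)) * N ≤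
        J * ((1 + 2 * (C5 + 2 * C6 + 64 * 721)) * N) :=
      le_mul_of_one_le_left (by positivity) hJ1'
    linarith
  have t3 := le_of_mul_le_mul_left t1 hJpos
  refine t3.trans ?_
  have t4 : (1 + 2 * (C5 + 2 * C6 + 64 * 721) + 2 * (2 * C7 + 384 * C8) + 12 * CV * q) ≤
      (1 + 2 * (C5 + 2 * C6 + 64 * 721) + 2 * (2 * C7 + 384 * C8) + 12 * CV) * (1 + q) := by
    have t5 : 0 ≤ (1 + 2 * (C5 + 2 * C6 + 64 * 721) + 2 * (2 * C7 + 384 * C8)) * q := by positivity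
    nlinarith
  have t6 := mul_le_mul_of_nonneg_right t4 hN0.le
  linarith

end Pool.Agent.Q31.GV
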