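import Pool.Agent.H382L.GapUnif
import Pool.Agent.Y743.LR.NT5

set_option autoImplicit false

/-! # Windows with few zeros are rare -/

open Complex Filter Topology Set MeasureTheory

namespace Pool.Agent.Q31.GV

open SG (phi hh nn dd dl ord NZ zmult)
open SP
open LG
open LG.NoZero

/-- the zeros near `t` -/
noncomputable def nearZ (T t ρ : ℝ) : Finset ℂ := by
  classical
  exact if h : (ZZ T).Finite then h.toFinset.filter fun s => |s.im - t| < ρ else ∅

theorem few_zero (hRH : RHs) (κ : ℝ) (hκ : 0 < κ) (hκ1 : κ < 1 / 2) :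
    ∃ (k0 : ℕ) (c0 T0 : ℝ), 1 ≤ k0 ∧ 0 < c0 ∧ 10 ≤ T0 ∧ ∀ T : ℝ, T0 ≤ T → ∀ t : ℝ,
    T + Real.log T ≤ t → t ≤ 2 * T - Real.log T → ∀ k : ℕ, k0 ≤ k → (k : ℝ) ≤ c0 * Real.log T →
    (∑ s ∈ nearZ T t (4 * Real.pi * k / ((1 - κ) * Real.log T)), (mu s : ℝ) ≤ k / 10) →
    1 / 8 ≤ ‖Q3 κ T k t‖ := by
  classical
  obtain ⟨C1, T1, hC1, hT1, h1⟩ := EFWm hRH
  obtain ⟨C2, hC2, h2⟩ := prime_part2
  obtain ⟨l0, hl0, hl0'⟩ := NoZero.GG3_low
  refine ⟨⌈10 * C2⌉₊ + 1, (1 - κ) / (2 * l0), max T1 (Real.exp (10 * (2 * C1 + C2))),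
    by omega, by have : 0 < 1 - κ := by linarith
                 positivity, hT1.trans (le_max_left _ _), ?_⟩
  intro T hT t ht1 ht2 k hk hkc hz
  have hTT1 : T1 ≤ T := (le_max_left _ _).trans hT
  have hT10 : 10 ≤ T := hT1.trans hTT1
  have hL : 0 < Real.log T := Real.log_pos (by linarith)
  have hk1 : 1 ≤ k := by omega
  have hk0 : (0 : ℝ) < k := by exact_mod_cast hk1
  have hkC : 10 * C2 ≤ k := by
    have h3 := Nat.le_ceil (10 * C2)
    have h4 : ((⌈10 * C2⌉₊ + 1 : ℕ) : ℝ) ≤ k := by exact_mod_cast hk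
    push_cast at h4
    linarith
  have hκ' : 0 < 1 - κ := by linarith
  have hLC : 10 * (2 * C1 + C2) ≤ Real.log T := by
    rw [Real.le_log_iff_exp_le (by linarith)]
    exact (le_max_right _ _).trans hT
  have hl : 0 < ell κ T k := by
    unfold ell
    positivity
  have hlk : ell κ T k ≤ Real.log T / k := by
    unfold ell
    rw [div_le_div_iff₀ (by positivity) hk0]
    nlinarith [mul_pos hL hk0]
  have hlL : ell κ T k ≤ Real.log T := by
    refine hlk.trans ?_
    rw [div_le_iff₀ hk0]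
    have : (1 : ℝ) ≤ k := by exact_mod_cast hk1
    nlinarith
  have hl0l : l0 ≤ ell κ T k := by
    unfold ell
    rw [le_div_iff₀ (by positivity)]
    rw [div_mul_eq_mul_div, le_div_iff₀ (by positivity)] at hkc
    linarith
  have hGl := hl0' _ hl0l
  have hw := W3_cont (ell κ T k) hl
  have e1 := h1 T hTT1 t ht1 ht2 (W3 (ell κ T k)) 2 hw.1 (fun u _ => hw.2 u)
  have e2 := h2 T hT10 t (ell κ T k) hl hlL (W3 (ell κ T k)) hw.1 (fun u _ => hw.2 u)
    (fun u hu => by rw [NoZero.W3_eq, NoZero.w3_zero hl hu, Complex.ofReal_zero])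
  rw [NoZero.gauss_int hl hlL] at e1
  -- the zero side
  have hfin : (ZZ T).Finite := ZZ_finite (by linarith)
  have hnear : nearZ T t (4 * Real.pi * k / ((1 - κ) * Real.log T)) =
      hfin.toFinset.filter fun s => |s.im - t| < 4 * Real.pi * k / ((1 - κ) * Real.log T) := by
    unfold nearZ
    rw [dif_pos hfin]
  rw [hnear] at hz
  have e3 : (zs T t (W3 (ell κ T k))).re ≤ Real.log T / 10 := by
    rw [NoZero.zs_eq (by linarith), Complex.re_sum,
      ← Finset.sum_filter_add_sum_filter_not hfin.toFinset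
        (fun s => |s.im - t| < 4 * Real.pi * k / ((1 - κ) * Real.log T))]
    have hterm : ∀ s : ℂ, ((mu s : ℂ) * (Real.exp (-(s.im - t) ^ 2 / 2) : ℂ) *
        ∫ u in (0 : ℝ)..Real.log T, W3 (ell κ T k) u * cexp (I * ((u * (s.im - t) : ℝ) : ℂ))).re =
        ((mu s : ℝ) * Real.exp (-(s.im - t) ^ 2 / 2)) *
        ∫ u in (0 : ℝ)..ell κ T k, ((1 - u / ell κ T k) +
          Real.sin (2 * Real.pi * u / ell κ T k) / (2 * Real.pi)) * Real.cos (u * (s.im - t)) := by
      intro s
      have e3 : (mu s : ℂ) * (Real.exp (-(s.im - t) ^ 2 / 2) : ℂ) =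
          (((mu s : ℝ) * Real.exp (-(s.im - t) ^ 2 / 2) : ℝ) : ℂ) := by push_cast; rfl
      rw [e3, Complex.re_ofReal_mul, NoZero.re_int hl hlL]
    have hfar : ∑ s ∈ hfin.toFinset.filter (fun s => ¬ |s.im - t| <
        4 * Real.pi * k / ((1 - κ) * Real.log T)), ((mu s : ℂ) *
        (Real.exp (-(s.im - t) ^ 2 / 2) : ℂ) *
        ∫ u in (0 : ℝ)..Real.log T, W3 (ell κ T k) u * cexp (I * ((u * (s.im - t) : ℝ) : ℂ))).re
        ≤ 0 := by
      refine Finset.sum_nonpos fun s hs => ?_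
      rw [hterm]
      refine mul_nonpos_of_nonneg_of_nonpos (by positivity) (NoZero.cos_neg' hl ?_)
      rw [Finset.mem_filter, not_lt] at hs
      refine le_trans (le_of_eq ?_) hs.2
      unfold ell
      field_simp
      ring
    have hcl : ∑ s ∈ hfin.toFinset.filter (fun s => |s.im - t| <
        4 * Real.pi * k / ((1 - κ) * Real.log T)), ((mu s : ℂ) *
        (Real.exp (-(s.im - t) ^ 2 / 2) : ℂ) *
        ∫ u in (0 : ℝ)..Real.log T, W3 (ell κ T k) u * cexp (I * ((u * (s.im - t) : ℝ) : ℂ))).re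
        ≤ ∑ s ∈ hfin.toFinset.filter (fun s => |s.im - t| <
        4 * Real.pi * k / ((1 - κ) * Real.log T)), (mu s : ℝ) * (2 * ell κ T k) := by
      refine Finset.sum_le_sum fun s hs => ?_
      rw [hterm]
      have hi : |∫ u in (0 : ℝ)..ell κ T k, ((1 - u / ell κ T k) +
          Real.sin (2 * Real.pi * u / ell κ T k) / (2 * Real.pi)) * Real.cos (u * (s.im - t))| ≤
          2 * ell κ T k := by
        have h5 := intervalIntegral.norm_integral_le_of_norm_le_const (a := 0) (b := ell κ T k)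
          (C := 2) (f := fun u => ((1 - u / ell κ T k) +
          Real.sin (2 * Real.pi * u / ell κ T k) / (2 * Real.pi)) * Real.cos (u * (s.im - t))) ?_
        · rw [Real.norm_eq_abs, sub_zero, abs_of_pos hl] at h5
          exact h5
        · intro u hu
          rw [uIoc_of_le hl.le] at hu
          rw [Real.norm_eq_abs, abs_mul]
          have h6 : |(1 - u / ell κ T k) + Real.sin (2 * Real.pi * u / ell κ T k) /
              (2 * Real.pi)| ≤ 2 := by
            rw [← NoZero.w3_val hu.1.le hu.2]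
            exact NoZero.w3_abs hl u
          calc _ ≤ 2 * 1 := mul_le_mul h6 (Real.abs_cos_le_one _) (abs_nonneg _) (by norm_num)
            _ = 2 := by norm_num
      have hexp : Real.exp (-(s.im - t) ^ 2 / 2) ≤ 1 := by
        rw [Real.exp_le_one_iff]
        have := sq_nonneg (s.im - t)
        linarith
      have hmu : (0 : ℝ) ≤ mu s := Nat.cast_nonneg _
      calc _ ≤ ((mu s : ℝ) * Real.exp (-(s.im - t) ^ 2 / 2)) * (2 * ell κ T k) :=
            mul_le_mul_of_nonneg_left ((le_abs_self _).trans hi) (by positivity)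
        _ ≤ ((mu s : ℝ) * 1) * (2 * ell κ T k) := by
            apply mul_le_mul_of_nonneg_right _ (by positivity)
            exact mul_le_mul_of_nonneg_left hexp hmu
        _ = _ := by ring
    rw [← Finset.sum_mul] at hcl
    have h7 : (∑ s ∈ hfin.toFinset.filter (fun s => |s.im - t| <
        4 * Real.pi * k / ((1 - κ) * Real.log T)), (mu s : ℝ)) * (2 * ell κ T k) ≤
        (k / 10) * (2 * ell κ T k) := mul_le_mul_of_nonneg_right hz (by positivity)
    have h8 : (k / 10 : ℝ) * (2 * ell κ T k) = (1 - κ) * Real.log T / 10 := by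
      unfold ell
      field_simp
    have h9 : (1 - κ) * Real.log T / 10 ≤ Real.log T / 10 := by nlinarith
    linarith
  -- main term
  have e4 : 9 / 20 * Real.log T ≤ (((Real.log T / Real.sqrt (2 * Real.pi) : ℝ) : ℂ) *
      ((NoZero.GG3 (ell κ T k) : ℝ) : ℂ)).re := by
    rw [← Complex.ofReal_mul, Complex.ofReal_re]
    have h3 : 0 < Real.sqrt (2 * Real.pi) := Real.sqrt_pos.2 (by positivity)
    calc 9 / 20 * Real.log T = Real.log T / Real.sqrt (2 * Real.pi) *
          (9 / 20 * Real.sqrt (2 * Real.pi)) := by field_simp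
      _ ≤ _ := mul_le_mul_of_nonneg_left hGl (by positivity)
  have e5 := (abs_le.1 ((Complex.abs_re_le_norm _).trans e1)).1
  have e6 := (abs_le.1 ((Complex.abs_re_le_norm _).trans e2)).2
  rw [Complex.sub_re, Complex.add_re] at e5
  rw [Complex.sub_re] at e6
  have e7 : ((Real.log T : ℂ) * QW T t (ell κ T k) (W3 (ell κ T k))).re ≤
      Real.log T * ‖QW T t (ell κ T k) (W3 (ell κ T k))‖ := by
    refine (Complex.re_le_norm _).trans ?_
    rw [norm_mul, Complex.norm_real, Real.norm_eq_abs, abs_of_pos hL]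
  have e8 : C2 * ell κ T k ≤ Real.log T / 10 := by
    calc C2 * ell κ T k ≤ C2 * (Real.log T / k) := mul_le_mul_of_nonneg_left hlk hC2.le
      _ ≤ Real.log T / 10 := by
        rw [mul_div_assoc', div_le_div_iff₀ hk0 (by norm_num)]
        nlinarith
  have e9 : Real.log T * (1 / 8) ≤ Real.log T * ‖QW T t (ell κ T k) (W3 (ell κ T k))‖ := by
    nlinarith
  exact le_of_mul_le_mul_left e9 hL

/-- the number of the zeros near `t` -/
lemma near_le {T t ρ : ℝ} (hT : 1 ≤ T) (hρ : 0 < ρ) (ht : 0 < t - ρ) :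
    (∑ s ∈ nearZ T t ρ, (mu s : ℝ)) ≤ (NZ (t + ρ) : ℝ) - NZ (t - ρ) := by
  classical
  have hfin : (ZZ T).Finite := ZZ_finite hT
  have hnear : nearZ T t ρ = hfin.toFinset.filter fun s => |s.im - t| < ρ := by
    unfold nearZ
    rw [dif_pos hfin]
  rw [hnear]
  have h1 := Pool.Agent.Y743.LR.cnt_NZ (t := t - ρ) (h := 2 * ρ) ht (by positivity)
  rw [show t - ρ + 2 * ρ = t + ρ by ring] at h1
  rw [← h1, ← Nat.cast_sum, Nat.cast_le]
  set F := (SG.ZS_finite (t + ρ)).toFinset with hF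
  have hset : {s : ℂ | s ∈ Pool.Agent.TH850.UR.zeros ∧ (t - ρ < s.im ∧ s.im ≤ t - ρ + 2 * ρ)} =
      (F.filter fun s => t - ρ < s.im : Finset ℂ) := by
    ext s
    rw [show t - ρ + 2 * ρ = t + ρ by ring]
    simp only [mem_ofPred_eq, Finset.coe_filter, hF, Set.Finite.mem_toFinset,
      Pool.Agent.TH850.UR.zeros, SG.ZS]
    constructor
    · rintro ⟨⟨a1, a2, a3⟩, a4, a5⟩
      exact ⟨⟨a1, a2, a3, ht.trans a4, a5⟩, a4⟩
    · rintro ⟨⟨a1, a2, a3, _, a5⟩, a4⟩
      exact ⟨⟨a1, a2, a3⟩, a4, a5⟩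
  have h2 : Pool.Agent.TH850.UV.cnt (t - ρ) (2 * ρ) =
      ∑ s ∈ F.filter (fun s => t - ρ < s.im), SG.zmult s := by
    unfold Pool.Agent.TH850.UV.cnt
    rw [hset]
    exact finsum_mem_coe_finset _ _
  rw [h2]
  refine Finset.sum_le_sum_of_subset fun s hs => ?_
  rw [Finset.mem_filter, Set.Finite.mem_toFinset] at hs
  obtain ⟨hs1, hs2⟩ := hs
  have hs' : 0 < s.re ∧ s.re < 1 ∧ T < s.im ∧ s.im ≤ 2 * T ∧ riemannZeta s = 0 := hs1
  obtain ⟨s1, s2, s3, s4, s5⟩ := hs'
  rw [abs_lt] at hs2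
  rw [Finset.mem_filter, hF, Set.Finite.mem_toFinset]
  refine ⟨⟨s5, s1, s2, by linarith, by linarith⟩, by linarith⟩


lemma NZ_meas : Measurable fun t : ℝ => (NZ t : ℝ) := by
  have h : Monotone fun t : ℝ => (NZ t : ℝ) := fun a b hab => by
    show (NZ a : ℝ) ≤ NZ b
    have := SG.NZ_mono hab
    exact_mod_cast this
  exact h.measurable

/-- the exceptional set of few zeros -/
def fewS (U ρ : ℝ) (k : ℕ) : Set ℝ :=
  {t : ℝ | U + Real.log U ≤ t ∧ t ≤ 2 * U - Real.log U ∧ (NZ (t + ρ) : ℝ) - NZ (t - ρ) ≤ k / 10}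

lemma fewS_meas (U ρ : ℝ) (k : ℕ) : MeasurableSet (fewS U ρ k) := by
  have h1 : Measurable fun t : ℝ => (NZ (t + ρ) : ℝ) - NZ (t - ρ) :=
    (NZ_meas.comp (measurable_id.add_const ρ)).sub (NZ_meas.comp (measurable_id.sub_const ρ))
  have h2 : MeasurableSet {t : ℝ | (NZ (t + ρ) : ℝ) - NZ (t - ρ) ≤ k / 10} :=
    measurableSet_le h1 measurable_const
  have h3 : fewS U ρ k = Icc (U + Real.log U) (2 * U - Real.log U) ∩
      {t : ℝ | (NZ (t + ρ) : ℝ) - NZ (t - ρ) ≤ k / 10} := by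
    ext t
    simp only [fewS, mem_ofPred_eq, mem_inter_iff, mem_Icc]
    tauto
  rw [h3]
  exact measurableSet_Icc.inter h2

/-- **windows with few zeros**, basic form -/
theorem few_basic (hRH : RHs) : ∃ C : ℝ, 1 ≤ C ∧ ∃ k0 : ℕ, 1 ≤ k0 ∧ ∀ k : ℕ, k0 ≤ k →
    ∀ᶠ U : ℝ in atTop, (volume (fewS U (16 * Real.pi * k / (3 * Real.log U)) k)).toReal ≤
      4 * U * (C / k) ^ k := by
  obtain ⟨k0, c0, T0, hk0, hc0, hT0, hfew⟩ := few_zero hRH (1 / 4) (by norm_num) (by norm_num)
  obtain ⟨C, T1, hC, hT1, hmom⟩ := mom_QW (1 / 4) (by norm_num) (by norm_num)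
  refine ⟨max 1 (64 * C), le_max_left _ _, k0, hk0, fun k hk => ?_⟩
  have hk1 : 1 ≤ k := hk0.trans hk
  have hk0' : (0 : ℝ) < k := by exact_mod_cast hk1
  have hlim : Tendsto (fun T : ℝ => c0 * Real.log T) atTop atTop :=
    Real.tendsto_log_atTop.const_mul_atTop hc0
  filter_upwards [eventually_ge_atTop T0, eventually_ge_atTop T1,
    hlim.eventually_ge_atTop (k : ℝ),
    Real.tendsto_log_atTop.eventually_ge_atTop (16 * Real.pi * k)] with U hU0 hU1 hUk hUl
  have h10 : 10 ≤ U := hT0.trans hU0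
  have hUpos : 0 < U := by linarith
  have hpi := Real.pi_pos
  have hL : 0 < Real.log U := Real.log_pos (by linarith)
  have hell : 0 < ell (1 / 4) U k := by
    unfold ell
    have : (0 : ℝ) < 1 - 1 / 4 := by norm_num
    positivity
  obtain ⟨hW1, hW2⟩ := W3_cont _ hell
  set f : ℝ → ℝ := fun t => 64 ^ k * ‖Q3 (1 / 4) U k t‖ ^ (2 * k) with hf
  have hfc : Continuous f := by
    rw [hf]
    unfold Q3
    exact continuous_const.mul ((GapAux.QW_cont U _ _).norm.pow _)
  have hf0 : ∀ t, 0 ≤ f t := fun t => by simp only [hf]; positivity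
  have hD : 0 < dd (1 / 4) U := by
    unfold dd
    positivity
  have hDT : dd (1 / 4) U ≤ U := by
    unfold dd
    calc U ^ (1 - (1 / 4 : ℝ) / 2) ≤ U ^ (1 : ℝ) :=
          Real.rpow_le_rpow_of_exponent_le (by linarith) (by norm_num)
      _ = U := Real.rpow_one U
  have hI : ∀ t0 : ℝ, Integrable (fun t => wt t0 (dd (1 / 4) U) t * f t) ∧
      ∫ t, wt t0 (dd (1 / 4) U) t * f t ≤ 64 ^ k * (dd (1 / 4) U * (C / k) ^ k) := by
    intro t0
    obtain ⟨h1, h2⟩ := hmom U hU1 t0 k (W3 (ell (1 / 4) U k)) hk1 hW1 hW2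
    have e : (fun t => wt t0 (dd (1 / 4) U) t * f t) = fun t => 64 ^ k *
        (wt t0 (dd (1 / 4) U) t * ‖QW U t (ell (1 / 4) U k) (W3 (ell (1 / 4) U k))‖ ^ (2 * k)) := by
      ext t
      simp only [hf, Q3]
      ring
    rw [e]
    refine ⟨h1.const_mul _, ?_⟩
    rw [integral_const_mul]
    exact mul_le_mul_of_nonneg_left h2 (by positivity)
  have hleb := GapAux.gauss_to_leb f hfc hf0 (dd (1 / 4) U) _ U hD hUpos hI
  set ρ : ℝ := 16 * Real.pi * k / (3 * Real.log U) with hρ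
  have hρpos : 0 < ρ := by positivity
  have hρ1 : ρ ≤ 1 := by
    rw [hρ, div_le_one (by positivity)]
    linarith
  have hlogU : Real.log U ≤ U := by
    have := Real.log_le_sub_one_of_pos hUpos
    linarith
  have hsub : ∀ t ∈ fewS U ρ k, 1 ≤ f t := by
    rintro t ⟨a1, a2, a3⟩
    have h1 := near_le (T := U) (t := t) (ρ := ρ) (by linarith) hρpos (by linarith)
    have h2 := hfew U hU0 t a1 a2 k hk hUk (by
      have e : 4 * Real.pi * k / ((1 - 1 / 4) * Real.log U) = ρ := by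
        rw [hρ]
        field_simp
        ring
      rw [e]
      exact h1.trans a3)
    simp only [hf]
    calc (1 : ℝ) = 64 ^ k * (1 / 8) ^ (2 * k) := by
          rw [pow_mul, ← mul_pow]
          norm_num
      _ ≤ 64 ^ k * ‖Q3 (1 / 4) U k t‖ ^ (2 * k) := by
          apply mul_le_mul_of_nonneg_left _ (by positivity)
          exact pow_le_pow_left₀ (by norm_num) h2 _
  have hfin : volume (fewS U ρ k) ≠ ⊤ := by
    refine ne_top_of_le_ne_top (b := volume (Icc U (2 * U))) ?_ (measure_mono ?_)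
    · rw [Real.volume_Icc]; exact ENNReal.ofReal_ne_top
    · rintro t ⟨a1, a2, -⟩
      exact ⟨by linarith, by linarith⟩
  have hss : fewS U ρ k ⊆ Ioc U (2 * U) := by
    rintro t ⟨a1, a2, -⟩
    exact ⟨by linarith, by linarith⟩
  have h3 : (volume (fewS U ρ k)).toReal ≤ ∫ t in U..(2 * U), f t := by
    rw [intervalIntegral.integral_of_le (by linarith)]
    calc (volume (fewS U ρ k)).toReal = ∫ t in fewS U ρ k, (1 : ℝ) := by
          rw [setIntegral_const, smul_eq_mul, mul_one]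
          rfl
      _ ≤ ∫ t in fewS U ρ k, f t := by
          apply setIntegral_mono_on (integrableOn_const hfin) _ (fewS_meas U ρ k) hsub
          exact (hfc.integrableOn_Icc (a := U) (b := 2 * U)).mono_set
            (hss.trans Ioc_subset_Icc_self)
      _ ≤ ∫ t in Ioc U (2 * U), f t := by
          apply setIntegral_mono_set _ _ (Filter.Eventually.of_forall hss)
          · exact (hfc.integrableOn_Icc (a := U) (b := 2 * U)).mono_set Ioc_subset_Icc_self
          · exact Filter.Eventually.of_forall fun t => hf0 t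
  refine h3.trans (hleb.trans ?_)
  have h6 : 2 * (U / dd (1 / 4) U + 1) * (64 ^ k * (dd (1 / 4) U * (C / k) ^ k)) =
      2 * (U + dd (1 / 4) U) * (64 * C / k) ^ k := by
    rw [show 64 * C / (k : ℝ) = 64 * (C / k) by ring, mul_pow]
    field_simp
  rw [h6]
  have h7 : (64 * C / k : ℝ) ^ k ≤ (max 1 (64 * C) / k) ^ k := by
    apply pow_le_pow_left₀ (by positivity)
    exact div_le_div_of_nonneg_right (le_max_right _ _) hk0'.le
  have h8 : 0 ≤ (64 * C / k : ℝ) ^ k := by positivity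
  calc 2 * (U + dd (1 / 4) U) * (64 * C / k) ^ k ≤ 4 * U * (64 * C / k) ^ k := by
        apply mul_le_mul_of_nonneg_right _ h8
        linarith
    _ ≤ 4 * U * (max 1 (64 * C) / k) ^ k := mul_le_mul_of_nonneg_left h7 (by positivity)

/-- the set of the starting points of windows with few zeros -/
def FS (T : ℝ) (i : ℕ) : Set ℝ :=
  {t : ℝ | (NZ (t + 2 * Real.pi / Real.log T * i) : ℝ) - NZ t ≤ i / 160}

lemma FS_meas (T : ℝ) (i : ℕ) : MeasurableSet (FS T i) :=
  measurableSet_le ((NZ_meas.comp (measurable_id.add_const _)).sub NZ_meas) measurable_const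

/-- **windows with few zeros are rare** -/
theorem few_vol (hRH : RHs) : ∃ i0 : ℕ, ∀ i : ℕ, i0 ≤ i → ∀ᶠ T : ℝ in atTop,
    (volume (FS T i ∩ Icc T (3 * T))).toReal ≤ T * Real.exp (-i) := by
  obtain ⟨C, hC, k0, hk0, h⟩ := few_basic hRH
  -- choice of the threshold
  refine ⟨max (max (8 * k0) 100) (16 * ⌈C * Real.exp 32⌉₊), fun i hi => ?_⟩
  have hi1 : 8 * k0 ≤ i := ((le_max_left _ _).trans (le_max_left _ _)).trans hi
  have hi2 : 100 ≤ i := ((le_max_right _ _).trans (le_max_left _ _)).trans hi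
  have hi3 : 16 * ⌈C * Real.exp 32⌉₊ ≤ i := (le_max_right _ _).trans hi
  set k : ℕ := i / 8 with hk
  have hkk : k0 ≤ k := by omega
  have hk8 : 8 * k ≤ i := by omega
  have hk16 : i ≤ 16 * k := by omega
  have hkpos : 0 < k := by omega
  have hk0' : (0 : ℝ) < k := by exact_mod_cast hkpos
  have hiR : (0 : ℝ) < i := by exact_mod_cast (by omega : 0 < i)
  have hk8R : 8 * (k : ℝ) ≤ i := by exact_mod_cast hk8
  have hk16R : (i : ℝ) ≤ 16 * k := by exact_mod_cast hk16
  have hi2R : (100 : ℝ) ≤ i := by exact_mod_cast hi2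
  have hCk : C / k ≤ Real.exp (-32) := by
    have h1 : ((16 * ⌈C * Real.exp 32⌉₊ : ℕ) : ℝ) ≤ i := by exact_mod_cast hi3
    push_cast at h1
    have h2 := Nat.le_ceil (C * Real.exp 32)
    have h3 : C * Real.exp 32 ≤ k := by linarith
    rw [div_le_iff₀ hk0', Real.exp_neg, ← div_eq_inv_mul, le_div_iff₀ (Real.exp_pos _)]
    exact h3
  have hpow : (C / k : ℝ) ^ k ≤ Real.exp (-i) / 20 := by
    have h1 : (C / k : ℝ) ^ k ≤ Real.exp (-32) ^ k := pow_le_pow_left₀ (by positivity) hCk k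
    rw [← Real.exp_nat_mul] at h1
    have h2 : (k : ℝ) * (-32) ≤ -i + -3 := by linarith
    have h3 : Real.exp (-3) ≤ 1 / 20 := by
      rw [Real.exp_neg, inv_le_comm₀ (Real.exp_pos _) (by norm_num)]
      have h4 := Real.exp_one_gt_d9
      have h5 : Real.exp 3 = Real.exp 1 ^ 3 := by rw [← Real.exp_nat_mul]; norm_num
      rw [h5]
      have h6 : (2.7182818283 : ℝ) ^ 3 ≤ Real.exp 1 ^ 3 := pow_le_pow_left₀ (by norm_num) h4.le 3
      norm_num at h6 ⊢
      linarith
    calc (C / k : ℝ) ^ k ≤ Real.exp ((k : ℝ) * (-32)) := h1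
      _ ≤ Real.exp (-i + -3) := Real.exp_le_exp.2 h2
      _ = Real.exp (-i) * Real.exp (-3) := Real.exp_add _ _
      _ ≤ Real.exp (-i) * (1 / 20) := mul_le_mul_of_nonneg_left h3 (Real.exp_pos _).le
      _ = _ := by ring
  have ha : Tendsto (fun T : ℝ => 3 / 4 * T) atTop atTop := tendsto_id.const_mul_atTop (by norm_num)
  have hb : Tendsto (fun T : ℝ => 4 / 3 * T) atTop atTop := tendsto_id.const_mul_atTop (by norm_num)
  have hc : Tendsto (fun T : ℝ => 2 * T) atTop atTop := tendsto_id.const_mul_atTop (by norm_num)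
  have hlo : ∀ᶠ T : ℝ in atTop, 20 * Real.log (4 * T) ≤ T := by
    have h1 := (Real.isLittleO_log_id_atTop.bound (show (0 : ℝ) < 1 / 80 by norm_num))
    have h2 : Tendsto (fun T : ℝ => 4 * T) atTop atTop := tendsto_id.const_mul_atTop (by norm_num)
    filter_upwards [h2.eventually h1, eventually_ge_atTop 1] with T h3 h4
    simp only [id, Real.norm_eq_abs] at h3
    rw [abs_of_nonneg (Real.log_nonneg (by linarith)), abs_of_nonneg (by linarith)] at h3
    linarith
  filter_upwards [ha.eventually (h k hkk), hb.eventually (h k hkk), hc.eventually (h k hkk), hlo,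
    eventually_ge_atTop (10 : ℝ), Real.tendsto_log_atTop.eventually_ge_atTop 10,
    Real.tendsto_log_atTop.eventually_ge_atTop (Real.pi * i)] with T h1 h2 h3 hlo hT10 hL10 hLi
  have hpi := Real.pi_pos
  have hTpos : 0 < T := by linarith
  set L := Real.log T with hL
  have hLpos : 0 < L := by linarith
  set h0 : ℝ := Real.pi / L * i with hh0
  have hh0pos : 0 < h0 := by positivity
  have hh01 : h0 ≤ 1 := by
    rw [hh0, div_mul_eq_mul_div, div_le_one hLpos]
    exact hLi
  -- comparison of radii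
  have hrad : ∀ U : ℝ, 3 / 4 * T ≤ U → 16 * Real.pi * k / (3 * Real.log U) ≤ h0 := by
    intro U hU
    have hlU : 9 / 10 * L ≤ Real.log U := by
      have h4 : Real.log (3 / 4 * T) ≤ Real.log U := Real.log_le_log (by positivity) hU
      rw [Real.log_mul (by norm_num) hTpos.ne'] at h4
      have h5 : -1 ≤ Real.log (3 / 4) := by
        have := Real.one_sub_inv_le_log_of_pos (show (0 : ℝ) < 3 / 4 by norm_num)
        norm_num at this ⊢
        linarith
      linarith
    have hlU0 : 0 < Real.log U := by linarith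
    rw [hh0, div_mul_eq_mul_div, div_le_div_iff₀ (by positivity) hLpos]
    have h6 : 16 * (k : ℝ) * L ≤ 2 * i * L := by nlinarith
    have h7 : 2 * (i : ℝ) * L ≤ i * (3 * Real.log U) := by
      have : 2 * L ≤ 3 * Real.log U := by linarith
      nlinarith
    calc 16 * Real.pi * k * L = Real.pi * (16 * k * L) := by ring
      _ ≤ Real.pi * (i * (3 * Real.log U)) :=
          mul_le_mul_of_nonneg_left (h6.trans h7) hpi.le
      _ = _ := by ring
  have hlogs : ∀ U : ℝ, 0 < U → U ≤ 4 * T → Real.log U ≤ T / 20 := by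
    intro U hU0 hU
    have := Real.log_le_log hU0 hU
    linarith
  -- covering
  have hcov : (fun t : ℝ => t + h0) '' (FS T i ∩ Icc T (3 * T)) ⊆
      fewS (3 / 4 * T) (16 * Real.pi * k / (3 * Real.log (3 / 4 * T))) k ∪
      (fewS (4 / 3 * T) (16 * Real.pi * k / (3 * Real.log (4 / 3 * T))) k ∪
      fewS (2 * T) (16 * Real.pi * k / (3 * Real.log (2 * T))) k) := by
    rintro _ ⟨t, ⟨ht1, ht2, ht3⟩, rfl⟩
    have hcnt : ∀ ρ : ℝ, ρ ≤ h0 → (NZ (t + h0 + ρ) : ℝ) - NZ (t + h0 - ρ) ≤ k / 10 := by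
      intro ρ hρ
      have h4 : NZ (t + h0 + ρ) ≤ NZ (t + 2 * Real.pi / L * i) := by
        apply SG.NZ_mono
        have : 2 * Real.pi / L * i = 2 * h0 := by rw [hh0]; ring
        rw [this]
        linarith
      have h5 : NZ t ≤ NZ (t + h0 - ρ) := SG.NZ_mono (by linarith)
      have h4' : (NZ (t + h0 + ρ) : ℝ) ≤ NZ (t + 2 * Real.pi / L * i) := by exact_mod_cast h4
      have h5' : (NZ t : ℝ) ≤ NZ (t + h0 - ρ) := by exact_mod_cast h5
      have h6 : (NZ (t + 2 * Real.pi / L * i) : ℝ) - NZ t ≤ i / 160 := ht1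
      have h7 : (i : ℝ) / 160 ≤ k / 10 := by linarith
      linarith
    have hl1 := hlogs (3 / 4 * T) (by positivity) (by linarith)
    have hl2 := hlogs (4 / 3 * T) (by positivity) (by linarith)
    have hl3 := hlogs (2 * T) (by positivity) (by linarith)
    rcases le_or_gt (t + h0) (2 * (3 / 4 * T) - Real.log (3 / 4 * T)) with h4 | h4
    · left
      exact ⟨by linarith, h4, hcnt _ (hrad _ le_rfl)⟩
    rcases le_or_gt (t + h0) (2 * (4 / 3 * T) - Real.log (4 / 3 * T)) with h5 | h5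
    · right; left
      exact ⟨by linarith, h5, hcnt _ (hrad _ (by linarith))⟩
    · right; right
      exact ⟨by linarith, by linarith, hcnt _ (hrad _ (by linarith))⟩
  have hv1 : volume ((fun t : ℝ => t + h0) '' (FS T i ∩ Icc T (3 * T))) =
      volume (FS T i ∩ Icc T (3 * T)) := by
    rw [image_add_right, measure_preimage_add_right]
  have hfin : ∀ (U ρ : ℝ), volume (fewS U ρ k) ≠ ⊤ := by
    intro U ρ
    refine ne_top_of_le_ne_top (b := volume (Icc (U + Real.log U) (2 * U - Real.log U))) ?_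
      (measure_mono ?_)
    · rw [Real.volume_Icc]; exact ENNReal.ofReal_ne_top
    · rintro t ⟨a1, a2, -⟩
      exact ⟨a1, a2⟩
  have hv2 := (measure_mono (μ := volume) hcov).trans ((measure_union_le _ _).trans
    (add_le_add_right (measure_union_le _ _) _))
  rw [hv1] at hv2
  have hv3 := ENNReal.toReal_mono (by
    exact ENNReal.add_ne_top.2 ⟨hfin _ _, ENNReal.add_ne_top.2 ⟨hfin _ _, hfin _ _⟩⟩) hv2
  rw [ENNReal.toReal_add (hfin _ _) (ENNReal.add_ne_top.2 ⟨hfin _ _, hfin _ _⟩),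
    ENNReal.toReal_add (hfin _ _) (hfin _ _)] at hv3
  have he := Real.exp_pos (-(i : ℝ))
  have hX0 : 0 ≤ (C / k : ℝ) ^ k := by positivity
  calc (volume (FS T i ∩ Icc T (3 * T))).toReal ≤ 4 * (3 / 4 * T) * (C / k) ^ k +
        (4 * (4 / 3 * T) * (C / k) ^ k + 4 * (2 * T) * (C / k) ^ k) := by linarith
    _ = (49 / 3 * T) * (C / k) ^ k := by ring
    _ ≤ (49 / 3 * T) * (Real.exp (-i) / 20) := mul_le_mul_of_nonneg_left hpow (by positivity)
    _ ≤ T * Real.exp (-i) := by nlinarith [mul_pos hTpos he]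

end Pool.Agent.Q31.GV
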