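import Pool.Agent.Q31.GV.Dw2

set_option autoImplicit false

/-! # The variance of the sum of `r` consecutive gaps is of exact order `1 + log r` -/

open Filter Topology Finset MeasureTheory

namespace Pool.Agent.Q31.GV

open Pool.Agent.Y743.LR (dl)

lemma exp_J {r J : ℕ} (hr : 1 ≤ r) (hJ : 6 * Real.log r ≤ J) :
    (r : ℝ) ^ 6 * Real.exp (-J) ≤ 1 := by
  have hr0 : (0 : ℝ) < r := by exact_mod_cast hr
  have h1 : (r : ℝ) ^ 6 = Real.exp (6 * Real.log r) := by
    rw [mul_comm, Real.exp_mul, Real.exp_log hr0]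
    norm_cast
  rw [h1, ← Real.exp_add, Real.exp_le_one_iff]
  linarith

/-- the variance is positive for each `r` -/
lemma var_pos (hRH : RiemannHypothesis) (r : ℕ) (hr : 1 ≤ r) : ∃ c : ℝ, 0 < c ∧
    ∀ᶠ N : ℕ in atTop, c * N ≤ ∑ n ∈ Icc 1 N, (SD r n - r) ^ 2 := by
  classical
  obtain ⟨ε, hε, h⟩ := GP.half hRH r
  refine ⟨ε ^ 3, by positivity, ?_⟩
  filter_upwards [h] with N hN
  have h1 := hN (fun _ => 1) ⟨⟨0, hr⟩, by simp⟩
  have hset : {n : ℕ | 1 ≤ n ∧ n ≤ N ∧ ε ≤ ∑ j : Fin r, (1 : ℝ) * (dl (n + j) - 1)} =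
      ((Icc 1 N).filter fun n => ε ≤ SD r n - r : Finset ℕ) := by
    ext n
    simp only [Set.mem_ofPred_eq, Finset.coe_filter, Finset.mem_Icc, and_assoc]
    have e : ∑ j : Fin r, (1 : ℝ) * (dl (n + j) - 1) = SD r n - r := by
      unfold SD
      rw [Fin.sum_univ_eq_sum_range (fun j => (1 : ℝ) * (dl (n + j) - 1)) r]
      simp [Finset.sum_sub_distrib]
    rw [e]
  rw [hset, Set.ncard_coe_finset] at h1
  have h2 : ∑ n ∈ (Icc 1 N).filter (fun n => ε ≤ SD r n - r), ε ^ 2 ≤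
      ∑ n ∈ (Icc 1 N).filter (fun n => ε ≤ SD r n - r), (SD r n - r) ^ 2 := by
    refine Finset.sum_le_sum fun n hn => ?_
    exact pow_le_pow_left₀ hε.le (Finset.mem_filter.mp hn).2 2
  rw [Finset.sum_const, nsmul_eq_mul] at h2
  have h3 : ∑ n ∈ (Icc 1 N).filter (fun n => ε ≤ SD r n - r), (SD r n - r) ^ 2 ≤
      ∑ n ∈ Icc 1 N, (SD r n - r) ^ 2 :=
    Finset.sum_le_sum_of_subset_of_nonneg (Finset.filter_subset _ _) fun n _ _ => sq_nonneg _
  have h4 := mul_le_mul_of_nonneg_right h1 (sq_nonneg ε)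
  calc ε ^ 3 * N = ε * N * ε ^ 2 := by ring
    _ ≤ _ := h4.trans (h2.trans h3)

lemma var_pos_unif (hRH : RiemannHypothesis) (R : ℕ) : ∃ c : ℝ, 0 < c ∧ ∀ r : ℕ, 1 ≤ r → r ≤ R →
    ∀ᶠ N : ℕ in atTop, c * N ≤ ∑ n ∈ Icc 1 N, (SD r n - r) ^ 2 := by
  induction R with
  | zero => exact ⟨1, one_pos, fun r h1 h2 => by omega⟩
  | succ R ih =>
    obtain ⟨c1, hc1, h1⟩ := ih
    obtain ⟨c2, hc2, h2⟩ := var_pos hRH (R + 1) (by omega)
    refine ⟨min c1 c2, lt_min hc1 hc2, fun r hr hrR => ?_⟩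
    rcases Nat.lt_or_ge R r with h | h
    · have : r = R + 1 := by omega
      subst this
      filter_upwards [h2] with N hN
      exact (mul_le_mul_of_nonneg_right (min_le_right _ _) (Nat.cast_nonneg N)).trans hN
    · filter_upwards [h1 r hr h] with N hN
      exact (mul_le_mul_of_nonneg_right (min_le_left _ _) (Nat.cast_nonneg N)).trans hN

/-- **lower bound for the variance** -/
theorem var_ge (hRH : RiemannHypothesis) : ∃ c : ℝ, 0 < c ∧ ∀ r : ℕ, 1 ≤ r →
    ∀ᶠ N : ℕ in atTop, c * (1 + Real.log r) * N ≤ ∑ n ∈ Icc 1 N, (SD r n - r) ^ 2 := by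
  obtain ⟨a, b, ha, hb, hlow⟩ := low_N hRH
  obtain ⟨C, hC, J0, hJ0, hdew⟩ := dew1 hRH
  obtain ⟨ε, hε⟩ : ∃ ε : ℝ, ε = a / (24 * C) := ⟨_, rfl⟩
  have hε0 : 0 < ε := by rw [hε]; positivity
  obtain ⟨b', hb'⟩ : ∃ b' : ℝ, b' = b + 2 * C * (1 + (ε * (J0 + 2) + 256 / ε ^ 3)) := ⟨_, rfl⟩
  have hb'0 : 0 < b' := by rw [hb']; positivity
  -- large `r`
  have hlarge : ∀ r : ℕ, 1 ≤ r → ∀ᶠ N : ℕ in atTop, (a / 2 * Real.log r - b') * N ≤
      2560 * ∑ n ∈ Icc 1 N, (SD r n - r) ^ 2 := by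
    intro r hr
    have hlogr : 0 ≤ Real.log r := Real.log_nonneg (by exact_mod_cast hr)
    obtain ⟨J, hJ⟩ : ∃ J : ℕ, J = ⌈6 * Real.log r⌉₊ + J0 := ⟨_, rfl⟩
    have hJ1 : 6 * Real.log r ≤ J := by
      rw [hJ]
      push_cast
      have := Nat.le_ceil (6 * Real.log (r : ℝ))
      have h2 : (0 : ℝ) ≤ J0 := Nat.cast_nonneg _
      linarith
    have hJ2 : ((J + 1 : ℕ) : ℝ) ≤ 6 * Real.log r + J0 + 2 := by
      rw [hJ]
      push_cast
      have := (Nat.ceil_lt_add_one (show 0 ≤ 6 * Real.log (r : ℝ) by positivity)).le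
      linarith
    have hexp := exp_J hr hJ1
    filter_upwards [hlow r hr, hdew r hr J (by omega) hexp 0 (by norm_num),
      hdew r hr J (by omega) hexp 1 le_rfl] with N h1 h2 h3
    have hN0 : (0 : ℝ) ≤ N := Nat.cast_nonneg _
    have hq := sqrt_log_le hε0 (y := ((J + 1 : ℕ) : ℝ)) (by push_cast; linarith [Nat.cast_nonneg (α := ℝ) J])
    generalize Real.sqrt ((J + 1 : ℕ) : ℝ) * (1 + Real.log ((J + 1 : ℕ) : ℝ)) = q at *
    have e : ∑ n ∈ Icc 1 N, |dl n| * ((SD r n - r) ^ 2 + (SD r (n + 1) - r) ^ 2) =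
        ∑ n ∈ Icc 1 N, |dl n| * (SD r (n + 0) - r) ^ 2 +
        ∑ n ∈ Icc 1 N, |dl n| * (SD r (n + 1) - r) ^ 2 := by
      rw [← Finset.sum_add_distrib]
      refine Finset.sum_congr rfl fun n _ => ?_
      rw [add_zero]
      ring
    rw [e] at h1
    have h4 : q ≤ ε * (6 * Real.log r) + (ε * (J0 + 2) + 256 / ε ^ 3) := by
      have := mul_le_mul_of_nonneg_left hJ2 hε0.le
      linarith
    have h5 : 2 * C * (1 + q) ≤ a / 2 * Real.log r + (b' - b) := by
      have h6 : 2 * C * (ε * (6 * Real.log r)) = a / 2 * Real.log r := by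
        rw [hε]
        field_simp
        ring
      have h7 := mul_le_mul_of_nonneg_left h4 (show 0 ≤ 2 * C by positivity)
      rw [hb']
      linarith
    have h6 := mul_le_mul_of_nonneg_right h5 hN0
    linarith
  obtain ⟨R, hR⟩ : ∃ R : ℕ, R = ⌈Real.exp (1 + 4 * b' / a)⌉₊ := ⟨_, rfl⟩
  obtain ⟨c1, hc1, hsmall⟩ := var_pos_unif hRH R
  have hlR : 0 ≤ Real.log R := Real.log_natCast_nonneg _
  refine ⟨min (a / 20480) (c1 / (1 + Real.log R)), lt_min (by positivity) (by positivity),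
    fun r hr => ?_⟩
  have hlogr : 0 ≤ Real.log r := Real.log_nonneg (by exact_mod_cast hr)
  rcases Nat.lt_or_ge R r with h | h
  · filter_upwards [hlarge r hr] with N hN
    have hN0 : (0 : ℝ) ≤ N := Nat.cast_nonneg _
    have h1 : 1 + 4 * b' / a ≤ Real.log r := by
      have h2 : Real.exp (1 + 4 * b' / a) ≤ r := by
        have := Nat.le_ceil (Real.exp (1 + 4 * b' / a))
        rw [← hR] at this
        exact this.trans (by exact_mod_cast h.le)
      rw [← Real.log_exp (1 + 4 * b' / a)]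
      exact Real.log_le_log (Real.exp_pos _) h2
    have h3 : 4 * b' ≤ (Real.log r - 1) * a := by
      rw [← div_le_iff₀ ha]
      linarith
    have h4 : a / 8 * (1 + Real.log r) ≤ a / 2 * Real.log r - b' := by
      have : 1 ≤ Real.log r := by
        have : 0 ≤ 4 * b' / a := by positivity
        linarith
      nlinarith
    have h5 := mul_le_mul_of_nonneg_right h4 hN0
    have h6 : min (a / 20480) (c1 / (1 + Real.log R)) * (1 + Real.log r) * N ≤
        a / 20480 * (1 + Real.log r) * N := by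
      apply mul_le_mul_of_nonneg_right _ hN0
      apply mul_le_mul_of_nonneg_right (min_le_left _ _) (by linarith)
    linarith
  · filter_upwards [hsmall r hr h] with N hN
    have hN0 : (0 : ℝ) ≤ N := Nat.cast_nonneg _
    have hr0 : (0 : ℝ) < r := by exact_mod_cast hr
    have h1 : Real.log r ≤ Real.log R := Real.log_le_log hr0 (by exact_mod_cast h)
    have h6 : min (a / 20480) (c1 / (1 + Real.log R)) * (1 + Real.log r) * N ≤
        c1 / (1 + Real.log R) * (1 + Real.log R) * N := by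
      apply mul_le_mul_of_nonneg_right _ hN0
      exact mul_le_mul (min_le_right _ _) (by linarith) (by linarith) (by positivity)
    have h7 : c1 / (1 + Real.log R) * (1 + Real.log R) = c1 := by
      field_simp
    rw [h7] at h6
    exact h6.trans hN

end Pool.Agent.Q31.GV
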