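import Pool.Agent.Q31.GV.Few

set_option autoImplicit false

/-! # The distance to the `r`-th next zero -/

open Filter Topology Set MeasureTheory

namespace Pool.Agent.Q31.GV

open SG (ord NZ)
open Pool.Agent.Y743.LR (dif yv)

/-- the mean spacing -/
noncomputable def ww (T : ℝ) : ℝ := 2 * Real.pi / Real.log T

/-- deviation of the number of zeros in a window of `r` mean spacings -/
noncomputable def dev (T : ℝ) (r : ℕ) (t : ℝ) : ℝ := (NZ (t + ww T * r) : ℝ) - NZ t - r

/-- the normalised distance to the `r`-th next zero, centred -/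
noncomputable def Dt (T : ℝ) (r : ℕ) (t : ℝ) : ℝ := (ord (NZ t + r) - t) / ww T - r

/-- indicator -/
noncomputable def ind (E : Set ℝ) (t : ℝ) : ℝ := E.indicator (fun _ => (1 : ℝ)) t

lemma ind_nonneg (E : Set ℝ) (t : ℝ) : 0 ≤ ind E t := Set.indicator_nonneg (fun _ _ => zero_le_one) t

lemma ind_le (E : Set ℝ) (t : ℝ) : ind E t ≤ 1 :=
  Set.indicator_le_self' (fun _ _ => zero_le_one) t

lemma ind_mem {E : Set ℝ} {t : ℝ} (h : t ∈ E) : ind E t = 1 := Set.indicator_of_mem h _

lemma ind_meas {E : Set ℝ} (h : MeasurableSet E) : Measurable (ind E) :=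
  measurable_const.indicator h

/-- the upper part of the majorant -/
noncomputable def U1 (T : ℝ) (r X i0 : ℕ) (t : ℝ) : ℝ :=
  ∑ i ∈ Finset.Icc i0 X, 2 * (i : ℝ) ^ 2 * ind (FS T i) (t + ww T * r)

noncomputable def U2 (T : ℝ) (r i0 : ℕ) (t : ℝ) : ℝ :=
  ∑ i ∈ Finset.Icc i0 r, 2 * (i : ℝ) ^ 2 * ind (FS T i) (t + ww T * (r - i))

/-- the majorant -/
noncomputable def GG (T : ℝ) (r X i0 : ℕ) (t : ℝ) : ℝ :=
  (2 + 2 * (i0 : ℝ) ^ 2) + 51200 * dev T r t ^ 2 + U1 T r X i0 t + U2 T r i0 t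

lemma U1_nonneg (T : ℝ) (r X i0 : ℕ) (t : ℝ) : 0 ≤ U1 T r X i0 t :=
  Finset.sum_nonneg fun i _ => mul_nonneg (by positivity) (ind_nonneg _ _)

lemma U2_nonneg (T : ℝ) (r i0 : ℕ) (t : ℝ) : 0 ≤ U2 T r i0 t :=
  Finset.sum_nonneg fun i _ => mul_nonneg (by positivity) (ind_nonneg _ _)

lemma mem_FS {T : ℝ} {i : ℕ} {t : ℝ} : t ∈ FS T i ↔ (NZ (t + ww T * i) : ℝ) - NZ t ≤ i / 160 :=
  Iff.rfl

lemma aux_sq {z x : ℝ} (hz : 0 ≤ z) (h : z ≤ x + 1) : z ^ 2 ≤ 2 * x ^ 2 + 2 := by
  have h1 : z ^ 2 ≤ (x + 1) ^ 2 := pow_le_pow_left₀ hz h 2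
  nlinarith [sq_nonneg (x - 1)]

/-- **the pointwise bound** -/
lemma point {T : ℝ} (hT : 1 < T) (r X i0 : ℕ) (hr : 1 ≤ r) (t : ℝ) :
    min |Dt T r t| X ^ 2 ≤ GG T r X i0 t := by
  have hpi := Real.pi_pos
  have hw : 0 < ww T := by
    unfold ww
    have := Real.log_pos hT
    positivity
  have hn1 : 1 ≤ NZ t + r := by omega
  have hU1 := U1_nonneg T r X i0 t
  have hU2 := U2_nonneg T r i0 t
  have hdev : 0 ≤ dev T r t ^ 2 := sq_nonneg _
  have hX0 : (0 : ℝ) ≤ X := Nat.cast_nonneg X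
  have hz0 : 0 ≤ min |Dt T r t| X := le_min (abs_nonneg _) hX0
  rcases hz0.eq_or_lt with h0 | hzpos
  · rw [← h0]
    unfold GG
    have : (0 : ℝ) ≤ 2 * (i0 : ℝ) ^ 2 := by positivity
    nlinarith
  obtain ⟨z, hz⟩ : ∃ z : ℝ, z = min |Dt T r t| X := ⟨_, rfl⟩
  rw [← hz] at hzpos ⊢
  obtain ⟨x, hx⟩ : ∃ x : ℕ, ⌈z⌉₊ = x + 1 := ⟨⌈z⌉₊ - 1, by
    have := Nat.ceil_pos.mpr hzpos
    omega⟩
  have hx1 : z ≤ x + 1 := by
    have := Nat.le_ceil z
    rw [hx] at this
    push_cast at this
    exact this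
  have hx2 : (x : ℝ) < z := by
    have : x < ⌈z⌉₊ := by omega
    exact Nat.lt_ceil.mp this
  have hx3 : (x : ℝ) < |Dt T r t| := lt_of_lt_of_le hx2 (hz ▸ min_le_left _ _)
  have hx4 : x < X := by
    have h1 : (x : ℝ) < X := lt_of_lt_of_le hx2 (hz ▸ min_le_right _ _)
    exact_mod_cast h1
  have hsq := aux_sq hzpos.le hx1
  have hx0 : (0 : ℝ) ≤ x := Nat.cast_nonneg x
  -- conclusion from a bound of `x`
  have hA : (x : ℝ) ≤ 160 * |dev T r t| → z ^ 2 ≤ GG T r X i0 t := by
    intro h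
    have h1 : (x : ℝ) ^ 2 ≤ 25600 * dev T r t ^ 2 := by
      have h2 := pow_le_pow_left₀ hx0 h 2
      rw [mul_pow, sq_abs] at h2
      linarith
    unfold GG
    have : (0 : ℝ) ≤ 2 * (i0 : ℝ) ^ 2 := by positivity
    linarith
  have hB : x < i0 → z ^ 2 ≤ GG T r X i0 t := by
    intro h
    have h1 : (x : ℝ) ≤ i0 := by exact_mod_cast h.le
    have h2 := pow_le_pow_left₀ hx0 h1 2
    unfold GG
    linarith
  rcases le_or_gt 0 (Dt T r t) with hD | hD
  · rw [abs_of_nonneg hD] at hx3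
    have h1 : t + ww T * (r + x) < ord (NZ t + r) := by
      unfold Dt at hx3
      rw [lt_sub_iff_add_lt, lt_div_iff₀ hw] at hx3
      linarith
    have h2 : NZ (t + ww T * (r + x)) < NZ t + r := by
      by_contra hcon
      push Not at hcon
      have := (SG.ord_le_iff hn1 _).mpr hcon
      linarith
    have h2' : (NZ (t + ww T * (r + x)) : ℝ) < NZ t + r := by exact_mod_cast h2
    have e1 : t + ww T * (r + x) = t + ww T * r + ww T * x := by ring
    by_cases hF : t + ww T * r ∈ FS T x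
    · rcases lt_or_ge x i0 with h3 | h3
      · exact hB h3
      · have h4 : 2 * (x : ℝ) ^ 2 * ind (FS T x) (t + ww T * r) ≤ U1 T r X i0 t :=
          Finset.single_le_sum (f := fun i : ℕ => 2 * (i : ℝ) ^ 2 * ind (FS T i) (t + ww T * r))
            (fun i _ => mul_nonneg (by positivity) (ind_nonneg _ _))
            (Finset.mem_Icc.mpr ⟨h3, hx4.le⟩)
        rw [ind_mem hF, mul_one] at h4
        unfold GG
        have : (0 : ℝ) ≤ 2 * (i0 : ℝ) ^ 2 := by positivity
        linarith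
    · rw [mem_FS, not_le, ← e1] at hF
      apply hA
      have h5 : dev T r t ≤ 0 := by
        unfold dev
        have : (0 : ℝ) ≤ (x : ℝ) / 160 := by positivity
        linarith
      rw [abs_of_nonpos h5]
      unfold dev
      linarith
  · rw [abs_of_neg hD] at hx3
    have h1 : ord (NZ t + r) < t + ww T * (r - x) := by
      unfold Dt at hx3
      have h2 : (ord (NZ t + r) - t) / ww T < r - x := by linarith
      rw [div_lt_iff₀ hw] at h2
      linarith
    have h2 : NZ t + r ≤ NZ (t + ww T * (r - x)) := (SG.ord_le_iff hn1 _).mp h1.le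
    have h2' : (NZ t : ℝ) + r ≤ NZ (t + ww T * (r - x)) := by exact_mod_cast h2
    have hxr : x < r := by
      have h3 : t < ord (NZ t + r) := by
        by_contra hcon
        push Not at hcon
        have := (SG.ord_le_iff hn1 _).mp hcon
        omega
      have h4 : 0 < ww T * (r - x) := by linarith
      have h5 : 0 < (r : ℝ) - x := pos_of_mul_pos_right h4 hw.le
      have h6 : (x : ℝ) < r := by linarith
      exact_mod_cast h6
    have e1 : t + ww T * (r - x) + ww T * x = t + ww T * r := by ring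
    by_cases hF : t + ww T * (r - x) ∈ FS T x
    · rcases lt_or_ge x i0 with h3 | h3
      · exact hB h3
      · have h4 : 2 * (x : ℝ) ^ 2 * ind (FS T x) (t + ww T * (r - x)) ≤ U2 T r i0 t :=
          Finset.single_le_sum (f := fun i : ℕ => 2 * (i : ℝ) ^ 2 * ind (FS T i)
            (t + ww T * (r - i))) (fun i _ => mul_nonneg (by positivity) (ind_nonneg _ _))
            (Finset.mem_Icc.mpr ⟨h3, hxr.le⟩)
        rw [ind_mem hF, mul_one] at h4
        unfold GG
        have : (0 : ℝ) ≤ 2 * (i0 : ℝ) ^ 2 := by positivity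
        linarith
    · rw [mem_FS, not_le, e1] at hF
      apply hA
      refine le_trans ?_ (mul_le_mul_of_nonneg_left (le_abs_self _) (by norm_num))
      unfold dev
      linarith

lemma ind_shift_ii (E : Set ℝ) (hE : MeasurableSet E) (c A B : ℝ) :
    IntervalIntegrable (fun t => ind E (t + c)) volume A B := by
  rw [intervalIntegrable_iff]
  refine Measure.integrableOn_of_bounded (M := 1) ?_
    ((ind_meas hE).comp (measurable_id.add_const c)).aestronglyMeasurable ?_
  · rw [uIoc, Real.volume_Ioc]; exact ENNReal.ofReal_ne_top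
  · refine Filter.Eventually.of_forall fun t => ?_
    rw [Real.norm_of_nonneg (ind_nonneg _ _)]
    exact ind_le _ _

lemma ind_int {T : ℝ} (hT : 0 < T) (E : Set ℝ) (hE : MeasurableSet E) {c : ℝ} (h0 : 0 ≤ c)
    (h1 : c ≤ T) :
    ∫ t in T..(2 * T), ind E (t + c) ≤ (volume (E ∩ Icc T (3 * T))).toReal := by
  rw [intervalIntegral.integral_comp_add_right (fun t => ind E t),
    intervalIntegral.integral_of_le (by linarith)]
  unfold ind
  rw [setIntegral_indicator hE, setIntegral_const, smul_eq_mul, mul_one]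
  apply ENNReal.toReal_mono
  · refine ne_top_of_le_ne_top (b := volume (Icc T (3 * T))) ?_ (measure_mono inter_subset_right)
    rw [Real.volume_Icc]; exact ENNReal.ofReal_ne_top
  · apply measure_mono
    rintro t ⟨⟨a1, a2⟩, a3⟩
    exact ⟨a3, by linarith, by linarith⟩

lemma sum_exp : ∃ C : ℝ, 0 ≤ C ∧ ∀ s : Finset ℕ, ∑ i ∈ s, 2 * (i : ℝ) ^ 2 * Real.exp (-i) ≤ C := by
  have h1 : Summable fun i : ℕ => (i : ℝ) ^ 2 * Real.exp (-1) ^ i := by
    apply summable_pow_mul_geometric_of_norm_lt_one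
    rw [Real.norm_of_nonneg (Real.exp_pos _).le, Real.exp_lt_one_iff]
    norm_num
  have h2 : Summable fun i : ℕ => 2 * (i : ℝ) ^ 2 * Real.exp (-i) := by
    have h3 := h1.mul_left 2
    refine h3.congr fun i => ?_
    rw [← Real.exp_nat_mul]
    rw [show (i : ℝ) * -1 = -i by ring]
    ring
  refine ⟨∑' i : ℕ, 2 * (i : ℝ) ^ 2 * Real.exp (-i), tsum_nonneg fun i => by positivity,
    fun s => h2.sum_le_tsum s fun i _ => by positivity⟩

lemma dev_cnt {T t : ℝ} (hT : 1 < T) (ht : 0 < t) {r : ℕ} :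
    ((Pool.Agent.TH850.UV.cnt t (2 * Real.pi * r / Real.log T) : ℝ) - r) = dev T r t := by
  have hL := Real.log_pos hT
  have hpi := Real.pi_pos
  rw [Pool.Agent.Y743.LR.cnt_NZ ht (by positivity)]
  unfold dev ww
  rw [show 2 * Real.pi * (r : ℝ) / Real.log T = 2 * Real.pi / Real.log T * r by ring]

/-- **the Lebesgue bound** -/
theorem leb (hRH : SP.RHs) : ∃ C : ℝ, 0 < C ∧ ∃ i0 : ℕ, ∀ r : ℕ, 1 ≤ r → ∀ X : ℕ,
    ∀ᶠ T : ℝ in atTop, IntervalIntegrable (GG T r X i0) volume T (2 * T) ∧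
      ∫ t in T..(2 * T), GG T r X i0 t ≤ C * (1 + Real.log r) * T := by
  obtain ⟨C1, T1, hC1, hT1, hnv⟩ := Pool.Agent.TH850.UV.nv2 1 le_rfl
  obtain ⟨i0, hfew⟩ := few_vol hRH
  obtain ⟨C2, hC2, hsum⟩ := sum_exp
  refine ⟨(2 + 2 * (i0 : ℝ) ^ 2) + 51200 * (C1 + 1) + 2 * C2, by positivity, i0,
    fun r hr X => ?_⟩
  have hr0 : (1 : ℝ) ≤ r := by exact_mod_cast hr
  have hlogr : 0 ≤ Real.log r := Real.log_nonneg hr0
  have hall : ∀ s : Finset ℕ, ∀ᶠ T : ℝ in atTop, ∀ i ∈ s, i0 ≤ i →
      (volume (FS T i ∩ Icc T (3 * T))).toReal ≤ T * Real.exp (-i) := by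
    intro s
    rw [Filter.eventually_all_finset]
    intro i _
    by_cases hi : i0 ≤ i
    · filter_upwards [hfew i hi] with T hT _ using hT
    · exact Filter.Eventually.of_forall fun T h => absurd h hi
  filter_upwards [hall (Finset.Icc i0 X), hall (Finset.Icc i0 r), eventually_ge_atTop T1,
    Real.tendsto_log_atTop.eventually_ge_atTop (r * Real.log r),
    eventually_ge_atTop (10 : ℝ),
    Real.tendsto_log_atTop.eventually_ge_atTop (2 * Real.pi * r)] with T hX hr' hTT1 hTr hT10 hTw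
  have hTpos : 0 < T := by linarith
  have hT1' : 1 < T := by linarith
  have hL : 0 < Real.log T := Real.log_pos hT1'
  have hpi := Real.pi_pos
  have hw : 0 < ww T := by unfold ww; positivity
  have hwr : ww T * r ≤ 1 := by
    unfold ww
    rw [div_mul_eq_mul_div, div_le_one hL]
    exact hTw
  obtain ⟨h1, h2⟩ := hnv T hTT1 r (by linarith) (by linarith)
  have hcongr : ∀ t ∈ Set.uIoc T (2 * T), ((Pool.Agent.TH850.UV.cnt t
      (2 * Real.pi * r / Real.log T) : ℝ) - r) ^ 2 = dev T r t ^ 2 := by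
    intro t ht
    rw [uIoc_of_le (by linarith)] at ht
    rw [dev_cnt hT1' (by linarith [ht.1])]
  have hdi : IntervalIntegrable (fun t => dev T r t ^ 2) volume T (2 * T) :=
    h1.congr fun t ht => hcongr t ht
  have hde : ∫ t in T..(2 * T), dev T r t ^ 2 ≤ T * Real.log (1 + r) + C1 * T := by
    have h3 := (abs_le.mp h2).2
    rw [intervalIntegral.integral_congr_ae (g := fun t => dev T r t ^ 2)
      (Filter.Eventually.of_forall fun t ht => hcongr t ht)] at h3
    have h4 : T / Real.pi ^ 2 * Real.log (1 + r) ≤ T * Real.log (1 + r) := by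
      apply mul_le_mul_of_nonneg_right _ (Real.log_nonneg (by linarith))
      apply div_le_self hTpos.le
      have := Real.pi_gt_three
      nlinarith
    linarith
  have hlog1 : Real.log (1 + r) ≤ 1 + Real.log r := by
    have h5 : Real.log (1 + r) ≤ Real.log (2 * r) := Real.log_le_log (by linarith) (by linarith)
    rw [Real.log_mul (by norm_num) (by linarith)] at h5
    have := Real.log_two_lt_d9
    linarith
  -- the two sums
  have hi1 : IntervalIntegrable (U1 T r X i0) volume T (2 * T) := by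
    have e : U1 T r X i0 = ∑ i ∈ Finset.Icc i0 X,
        fun t => 2 * (i : ℝ) ^ 2 * ind (FS T i) (t + ww T * r) := by
      ext t
      rw [Finset.sum_apply]
      rfl
    rw [e]
    exact IntervalIntegrable.sum _ (fun i _ => (ind_shift_ii _ (FS_meas T i) _ _ _).const_mul _)
  have hi2 : IntervalIntegrable (U2 T r i0) volume T (2 * T) := by
    have e : U2 T r i0 = ∑ i ∈ Finset.Icc i0 r,
        fun t => 2 * (i : ℝ) ^ 2 * ind (FS T i) (t + ww T * (r - i)) := by
      ext t
      rw [Finset.sum_apply]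
      rfl
    rw [e]
    exact IntervalIntegrable.sum _ (fun i _ => (ind_shift_ii _ (FS_meas T i) _ _ _).const_mul _)
  have hb1 : ∫ t in T..(2 * T), U1 T r X i0 t ≤ C2 * T := by
    unfold U1
    rw [intervalIntegral.integral_finsetSum (fun i _ =>
      (ind_shift_ii _ (FS_meas T i) _ _ _).const_mul _)]
    calc _ ≤ ∑ i ∈ Finset.Icc i0 X, (2 * (i : ℝ) ^ 2 * Real.exp (-i)) * T := by
          refine Finset.sum_le_sum fun i hi => ?_
          rw [intervalIntegral.integral_const_mul]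
          have h3 := (ind_int hTpos _ (FS_meas T i) (c := ww T * r) (by positivity)
            (by linarith)).trans (hX i hi (Finset.mem_Icc.mp hi).1)
          calc _ ≤ 2 * (i : ℝ) ^ 2 * (T * Real.exp (-i)) :=
                mul_le_mul_of_nonneg_left h3 (by positivity)
            _ = _ := by ring
      _ = (∑ i ∈ Finset.Icc i0 X, 2 * (i : ℝ) ^ 2 * Real.exp (-i)) * T := by
          rw [Finset.sum_mul]
      _ ≤ C2 * T := mul_le_mul_of_nonneg_right (hsum _) hTpos.le
  have hb2 : ∫ t in T..(2 * T), U2 T r i0 t ≤ C2 * T := by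
    unfold U2
    rw [intervalIntegral.integral_finsetSum (fun i _ =>
      (ind_shift_ii _ (FS_meas T i) _ _ _).const_mul _)]
    calc _ ≤ ∑ i ∈ Finset.Icc i0 r, (2 * (i : ℝ) ^ 2 * Real.exp (-i)) * T := by
          refine Finset.sum_le_sum fun i hi => ?_
          rw [intervalIntegral.integral_const_mul]
          have hir : (i : ℝ) ≤ r := by exact_mod_cast (Finset.mem_Icc.mp hi).2
          have hi0 : (0 : ℝ) ≤ i := Nat.cast_nonneg i
          have h4 : ww T * (r - i) ≤ 1 := by nlinarith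
          have h3 := (ind_int hTpos _ (FS_meas T i) (c := ww T * (r - i))
            (mul_nonneg hw.le (by linarith)) (by linarith)).trans (hr' i hi (Finset.mem_Icc.mp hi).1)
          calc _ ≤ 2 * (i : ℝ) ^ 2 * (T * Real.exp (-i)) :=
                mul_le_mul_of_nonneg_left h3 (by positivity)
            _ = _ := by ring
      _ = (∑ i ∈ Finset.Icc i0 r, 2 * (i : ℝ) ^ 2 * Real.exp (-i)) * T := by
          rw [Finset.sum_mul]
      _ ≤ C2 * T := mul_le_mul_of_nonneg_right (hsum _) hTpos.le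
  have hc : IntervalIntegrable (fun _ : ℝ => (2 + 2 * (i0 : ℝ) ^ 2)) volume T (2 * T) :=
    intervalIntegrable_const
  have hG : GG T r X i0 = fun t => (2 + 2 * (i0 : ℝ) ^ 2) + 51200 * dev T r t ^ 2 + U1 T r X i0 t +
      U2 T r i0 t := rfl
  refine ⟨?_, ?_⟩
  · rw [hG]
    exact ((hc.add (hdi.const_mul _)).add hi1).add hi2
  · rw [hG, intervalIntegral.integral_add ((hc.add (hdi.const_mul _)).add hi1) hi2,
      intervalIntegral.integral_add (hc.add (hdi.const_mul _)) hi1,
      intervalIntegral.integral_add hc (hdi.const_mul _), intervalIntegral.integral_const,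
      intervalIntegral.integral_const_mul, smul_eq_mul]
    have h6 : T * Real.log (1 + r) ≤ T * (1 + Real.log r) :=
      mul_le_mul_of_nonneg_left hlog1 hTpos.le
    have h7 : 0 ≤ T * Real.log r := by positivity
    have h8 : 0 ≤ (i0 : ℝ) ^ 2 * (T * Real.log r) := by positivity
    have h9 : 0 ≤ C1 * (T * Real.log r) := by positivity
    have h10 : 0 ≤ C2 * (T * Real.log r) := by positivity
    nlinarith

end Pool.Agent.Q31.GV
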