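import Pool.Agent.Q31.GV.Fin
import Pool.Agent.Q31.RG.Disc

set_option autoImplicit false

/-! # Each gap is nearly a linear function of the neighbouring gaps -/

open Filter Topology Finset

namespace Pool.Agent.Q31.GV

open Pool.Agent.Y743.LR (dl)
open Pool.Agent.Q31.RG (c c_zero disc)

/-- the centred gaps with index up to `N`, as a sequence on the integers -/
noncomputable def xs (N : ℕ) (m : ℤ) : ℝ := if 0 ≤ m ∧ m < N then dl (m.toNat + 1) - 1 else 0

lemma xs_supp (N : ℕ) : ∀ n, xs N n ≠ 0 → 0 ≤ n ∧ n < N := by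
  intro n h
  unfold xs at h
  by_contra hcon
  rw [if_neg hcon] at h
  exact h rfl

/-- all the gaps up to `N` are small -/
lemma gap_small (hRH : RiemannHypothesis) : ∃ C : ℝ, 0 < C ∧ ∀ N n : ℕ, 1 ≤ n → n ≤ N →
    (dl n - 1) ^ 2 ≤ 2 * Real.sqrt (C * N) + 2 := by
  obtain ⟨C, hC, h⟩ := mom hRH 4
  refine ⟨C, hC, fun N n hn hnN => ?_⟩
  have h1 : |dl n| ^ 4 ≤ C * N :=
    (Finset.single_le_sum (f := fun n => |dl n| ^ 4) (fun n _ => by positivity)
      (Finset.mem_Icc.mpr ⟨hn, hnN⟩)).trans (h N)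
  have h2 : dl n ^ 2 ≤ Real.sqrt (C * N) := by
    apply Real.le_sqrt_of_sq_le
    calc (dl n ^ 2) ^ 2 = |dl n| ^ 4 := by
          rw [← sq_abs (dl n)]
          ring
      _ ≤ _ := h1
  nlinarith [sq_nonneg (dl n + 1)]

lemma xs_small {C : ℝ} (h : ∀ N n : ℕ, 1 ≤ n → n ≤ N →
    (dl n - 1) ^ 2 ≤ 2 * Real.sqrt (C * N) + 2) (N : ℕ) (m : ℤ) :
    xs N m ^ 2 ≤ 2 * Real.sqrt (C * N) + 2 := by
  unfold xs
  split_ifs with h1
  · exact h N _ (by omega) (by omega)
  · have := Real.sqrt_nonneg (C * N)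
    nlinarith

/-- the sums over windows -/
lemma win_sum (hRH : RiemannHypothesis) (R L : ℕ) (hR : 1 ≤ R) {v : ℝ} (hv : Vb R v) :
    ∀ᶠ N : ℕ in atTop, ∑ m ∈ range (N + L), (∑ i ∈ range R, xs N ((m : ℤ) - i)) ^ 2 ≤
      (v + 1) * N := by
  obtain ⟨C, hC, hsm⟩ := gap_small hRH
  have hlim : Tendsto (fun N : ℕ => (N : ℝ)) atTop atTop := tendsto_natCast_atTop_atTop
  obtain ⟨B, hB⟩ : ∃ B : ℝ, B = (L + R : ℝ) * R ^ 2 := ⟨_, rfl⟩
  have hB0 : 0 ≤ B := by rw [hB]; positivity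
  filter_upwards [hv, hlim.eventually_ge_atTop (4 * B + 16 * B ^ 2 * C),
    eventually_ge_atTop 1] with N hN hNB hN1
  have hN0 : (0 : ℝ) < N := by exact_mod_cast hN1
  have hb : ∀ m : ℤ, (∑ i ∈ range R, xs N (m - i)) ^ 2 ≤
      (R : ℝ) ^ 2 * (2 * Real.sqrt (C * N) + 2) := by
    intro m
    have h1 := sq_sum_le_card_mul_sum_sq (s := range R) (f := fun i : ℕ => xs N (m - i))
    rw [Finset.card_range] at h1
    refine h1.trans ?_
    have h2 : ∑ i ∈ range R, xs N (m - (i : ℕ)) ^ 2 ≤ ∑ _i ∈ range R, (2 * Real.sqrt (C * N) + 2) :=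
      Finset.sum_le_sum fun i _ => xs_small hsm N _
    rw [Finset.sum_const, Finset.card_range, nsmul_eq_mul] at h2
    calc _ ≤ (R : ℝ) * (R * (2 * Real.sqrt (C * N) + 2)) :=
          mul_le_mul_of_nonneg_left h2 (Nat.cast_nonneg _)
      _ = _ := by ring
  -- interior and boundary
  have hsplit : ∑ m ∈ range (N + L), (∑ i ∈ range R, xs N ((m : ℤ) - i)) ^ 2 ≤
      ∑ n ∈ Icc 1 N, (SD R n - R) ^ 2 + (L + R : ℝ) *
        ((R : ℝ) ^ 2 * (2 * Real.sqrt (C * N) + 2)) := by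
    have e : range (N + L) = ((range (N + L)).filter fun m => R - 1 ≤ m ∧ m < N) ∪
        ((range (N + L)).filter fun m => ¬ (R - 1 ≤ m ∧ m < N)) := by
      rw [Finset.filter_union_filter_not_eq]
    rw [← Finset.sum_filter_add_sum_filter_not (range (N + L)) (fun m => R - 1 ≤ m ∧ m < N)]
    apply add_le_add
    · -- interior
      have h1 : ∀ m ∈ (range (N + L)).filter (fun m => R - 1 ≤ m ∧ m < N),
          (∑ i ∈ range R, xs N ((m : ℤ) - i)) ^ 2 = (SD R (m + 2 - R) - R) ^ 2 := by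
        intro m hm
        rw [Finset.mem_filter] at hm
        obtain ⟨_, hm1, hm2⟩ := hm
        congr 1
        have h2 : ∀ i ∈ range R, xs N ((m : ℤ) - i) = dl (m + 1 - i) - 1 := by
          intro i hi
          rw [Finset.mem_range] at hi
          unfold xs
          rw [if_pos ⟨by omega, by omega⟩]
          congr 2
          omega
        rw [Finset.sum_congr rfl h2, Finset.sum_sub_distrib, Finset.sum_const, Finset.card_range,
          nsmul_eq_mul, mul_one]
        congr 1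
        unfold SD
        rw [← Finset.sum_range_reflect]
        refine Finset.sum_congr rfl fun i hi => ?_
        rw [Finset.mem_range] at hi
        congr 1
        omega
      rw [Finset.sum_congr rfl h1]
      have h3 : Set.InjOn (fun m => m + 2 - R)
          ((range (N + L)).filter (fun m => R - 1 ≤ m ∧ m < N) : Finset ℕ) := by
        intro a ha b hb' hab
        simp only [Finset.coe_filter, Set.mem_ofPred_eq, Finset.mem_range] at ha hb'
        have : a + 2 - R = b + 2 - R := hab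
        omega
      rw [← Finset.sum_image (f := fun n => (SD R n - R) ^ 2) h3]
      refine Finset.sum_le_sum_of_subset_of_nonneg ?_ fun _ _ _ => sq_nonneg _
      intro n hn
      rw [Finset.mem_image] at hn
      obtain ⟨m, hm, rfl⟩ := hn
      rw [Finset.mem_filter] at hm
      rw [Finset.mem_Icc]
      omega
    · -- boundary
      refine (Finset.sum_le_sum fun (m : ℕ) _ => hb (m : ℤ)).trans ?_
      rw [Finset.sum_const, nsmul_eq_mul]
      apply mul_le_mul_of_nonneg_right _ (by positivity)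
      have h1 : (range (N + L)).filter (fun m => ¬ (R - 1 ≤ m ∧ m < N)) ⊆
          range R ∪ Ico N (N + L) := by
        intro m hm
        rw [Finset.mem_filter, Finset.mem_range] at hm
        rw [Finset.mem_union, Finset.mem_range, Finset.mem_Ico]
        omega
      have h2 := (Finset.card_le_card h1).trans (Finset.card_union_le _ _)
      rw [Finset.card_range, Nat.card_Ico] at h2
      have h3 : ((range (N + L)).filter (fun m => ¬ (R - 1 ≤ m ∧ m < N))).card ≤ L + R := by omega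
      exact_mod_cast h3
  refine hsplit.trans ?_
  have h4 : (L + R : ℝ) * ((R : ℝ) ^ 2 * (2 * Real.sqrt (C * N) + 2)) ≤ N := by
    have h5 : (L + R : ℝ) * ((R : ℝ) ^ 2 * (2 * Real.sqrt (C * N) + 2)) =
        2 * B * Real.sqrt (C * N) + 2 * B := by rw [hB]; ring
    rw [h5]
    have h6 : 2 * B * Real.sqrt (C * N) ≤ N / 2 := by
      have h7 : (2 * B * Real.sqrt (C * N)) ^ 2 ≤ (N / 2) ^ 2 := by
        rw [mul_pow, Real.sq_sqrt (by positivity)]
        have h8 : 16 * B ^ 2 * C ≤ N := by linarith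
        nlinarith
      exact le_of_sq_le_sq h7 (by positivity)
    have h9 : 0 ≤ 16 * B ^ 2 * C := by positivity
    linarith
  linarith

/-- **linear interpolation of the gaps** -/
theorem lin (hRH : RiemannHypothesis) : ∃ C : ℝ, 0 < C ∧ ∀ K : ℕ, 2 ≤ K →
    ∀ᶠ N : ℕ in atTop, ∑ n ∈ Icc (2 ^ K) N,
      (∑ j ∈ Ioo (-(2 : ℤ) ^ K) (2 ^ K), c K j * (dl ((n : ℤ) + j).toNat - 1)) ^ 2 ≤
      C / K * N := by
  obtain ⟨C, hC, hV⟩ := var_le hRH
  refine ⟨6144 * (2 * C + 1), by positivity, fun K hK => ?_⟩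
  have hK0 : (2 : ℝ) ≤ K := by exact_mod_cast hK
  have hev : ∀ᶠ N : ℕ in atTop, ∀ r ∈ range (2 ^ K),
      ∑ m ∈ range (N + 2 ^ K), (∑ i ∈ range (r + 1), xs N ((m : ℤ) - i)) ^ 2 ≤
      (C * (1 + K) + 1) * N := by
    rw [Filter.eventually_all_finset]
    intro r hr
    rw [Finset.mem_range] at hr
    have h1 : Vb (r + 1) (C * (1 + K)) := by
      refine (hV (r + 1) (by omega)).mono ?_
      apply mul_le_mul_of_nonneg_left _ hC.le
      have h2 : Real.log ((r + 1 : ℕ) : ℝ) ≤ Real.log ((2 : ℝ) ^ K) := by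
        apply Real.log_le_log
        · positivity
        · have : r + 1 ≤ 2 ^ K := by omega
          exact_mod_cast this
      rw [Real.log_pow] at h2
      have h3 := Real.log_two_lt_d9
      nlinarith
    exact win_sum hRH (r + 1) (2 ^ K) (by omega) h1
  have hsh := (tendsto_add_atTop_nat (2 ^ K)).eventually hev
  filter_upwards [hsh, eventually_ge_atTop (2 ^ K)] with N hN hN2
  have hN0 : (0 : ℝ) ≤ N := Nat.cast_nonneg _
  have hd := disc (x := xs (N + 2 ^ K)) (N := N + 2 ^ K) K hK (xs_supp _)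
  have hR : ∑ r ∈ range (2 ^ K), ∑ m ∈ range (N + 2 ^ K + 2 ^ K),
      (∑ i ∈ range (r + 1), xs (N + 2 ^ K) ((m : ℤ) - i)) ^ 2 ≤
      2 ^ K * ((C * (1 + K) + 1) * (2 * N)) := by
    calc _ ≤ ∑ _r ∈ range (2 ^ K), (C * (1 + K) + 1) * (2 * N) := by
          refine Finset.sum_le_sum fun r hr => (hN r hr).trans ?_
          apply mul_le_mul_of_nonneg_left _ (by positivity)
          have : ((2 ^ K : ℕ) : ℝ) ≤ N := by exact_mod_cast hN2
          push_cast at this ⊢
          linarith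
      _ = _ := by
          rw [Finset.sum_const, Finset.card_range, nsmul_eq_mul]
          push_cast
          ring
  have hL : ∑ n ∈ Icc (2 ^ K) N,
      (∑ j ∈ Ioo (-(2 : ℤ) ^ K) (2 ^ K), c K j * (dl ((n : ℤ) + j).toNat - 1)) ^ 2 ≤
      ∑ m ∈ range (N + 2 ^ K + 2 * 2 ^ K),
      (∑ j ∈ Ioo (-(2 : ℤ) ^ K) (2 ^ K), c K j *
        xs (N + 2 ^ K) ((m : ℤ) - (2 ^ K - 1) + j)) ^ 2 := by
    have hinj : Set.InjOn (fun n => n + 2 ^ K - 2) (Icc (2 ^ K) N : Finset ℕ) := by
      intro a ha b hb hab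
      simp only [Finset.coe_Icc, Set.mem_Icc] at ha hb
      have h1 : a + 2 ^ K - 2 = b + 2 ^ K - 2 := hab
      have h2 : 4 ≤ 2 ^ K := by
        calc 4 = 2 ^ 2 := by norm_num
          _ ≤ 2 ^ K := Nat.pow_le_pow_right (by norm_num) hK
      omega
    have h4 : 4 ≤ 2 ^ K := by
      calc 4 = 2 ^ 2 := by norm_num
        _ ≤ 2 ^ K := Nat.pow_le_pow_right (by norm_num) hK
    have h1 : ∀ n ∈ Icc (2 ^ K) N,
        (∑ j ∈ Ioo (-(2 : ℤ) ^ K) (2 ^ K), c K j * (dl ((n : ℤ) + j).toNat - 1)) ^ 2 =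
        (fun m : ℕ => (∑ j ∈ Ioo (-(2 : ℤ) ^ K) (2 ^ K), c K j *
        xs (N + 2 ^ K) ((m : ℤ) - (2 ^ K - 1) + j)) ^ 2) (n + 2 ^ K - 2) := by
      intro n hn
      rw [Finset.mem_Icc] at hn
      show _ = (∑ j ∈ Ioo (-(2 : ℤ) ^ K) (2 ^ K), c K j *
        xs (N + 2 ^ K) (((n + 2 ^ K - 2 : ℕ) : ℤ) - (2 ^ K - 1) + j)) ^ 2
      congr 1
      refine Finset.sum_congr rfl fun j hj => ?_
      rw [Finset.mem_Ioo] at hj
      have hpz : ((2 : ℤ) ^ K) = ((2 ^ K : ℕ) : ℤ) := by push_cast; rfl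
      rw [hpz] at hj ⊢
      generalize 2 ^ K = P at *
      congr 1
      unfold xs
      rw [if_pos ⟨by omega, by omega⟩]
      congr 2
      omega
    rw [Finset.sum_congr rfl h1, ← Finset.sum_image (f := fun m : ℕ =>
      (∑ j ∈ Ioo (-(2 : ℤ) ^ K) (2 ^ K), c K j *
        xs (N + 2 ^ K) ((m : ℤ) - (2 ^ K - 1) + j)) ^ 2) hinj]
    refine Finset.sum_le_sum_of_subset_of_nonneg ?_ fun _ _ _ => sq_nonneg _
    intro m hm
    rw [Finset.mem_image] at hm
    obtain ⟨n, hn, rfl⟩ := hm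
    rw [Finset.mem_Icc] at hn
    rw [Finset.mem_range]
    omega
  refine hL.trans (hd.trans ?_)
  have hp : (0 : ℝ) < 2 ^ K := by positivity
  calc 3072 / ((K : ℝ) ^ 2 * 2 ^ K) * _ ≤
        3072 / ((K : ℝ) ^ 2 * 2 ^ K) * (2 ^ K * ((C * (1 + K) + 1) * (2 * N))) :=
        mul_le_mul_of_nonneg_left hR (by positivity)
    _ = 6144 * (C * (1 + K) + 1) / (K : ℝ) ^ 2 * N := by
        field_simp
        ring
    _ ≤ 6144 * (2 * C + 1) / K * N := by
        apply mul_le_mul_of_nonneg_right _ hN0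
        rw [div_le_div_iff₀ (by positivity) (by positivity)]
        have h5 : C * (1 + K) + 1 ≤ (2 * C + 1) * K := by nlinarith
        calc 6144 * (C * (1 + K) + 1) * K ≤ 6144 * ((2 * C + 1) * K) * K := by
              apply mul_le_mul_of_nonneg_right _ (by positivity)
              linarith
          _ = _ := by ring

end Pool.Agent.Q31.GV
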