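import Pool.Agent.Q31.GV.Big
import Pool.Agent.W54.TCF.NT

set_option autoImplicit false

/-! # Lower bound for the weighted variance of sums of gaps -/

open Filter Topology Finset MeasureTheory

namespace Pool.Agent.Q31.GV

open SG (ord NZ)
open Pool.Agent.Y743.LR (dif yv dl dif_yv)

lemma near3 : ∃ K : ℝ, 0 ≤ K ∧ ∀ᶠ T : ℝ in atTop, ∀ m : ℕ, NZ T ≤ m → m ≤ NZ (3 * T) →
    0 ≤ dif (yv T) m ∧ |dl m| ≤ 2 * dif (yv T) m ∧ dif (yv T) m ≤ 2 * |dl m| ∧
      |dif (yv T) m - dl m| ≤ K / Real.log T * dif (yv T) m := by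
  obtain ⟨κ, D, C2, hκ, hκ1, hD, hC2, hgood⟩ := Pool.Agent.Y743.LR.good_ev
  have h2p : 0 ≤ Real.log (2 * Real.pi) := Real.log_nonneg (by linarith [Real.pi_gt_three])
  obtain ⟨T0, hT0, hg⟩ := hgood 0
  obtain ⟨K, hK⟩ : ∃ K : ℝ, K = |Real.log κ| + |Real.log 3| + Real.log (2 * Real.pi) := ⟨_, rfl⟩
  have hK0 : 0 ≤ K := by rw [hK]; positivity
  refine ⟨K, hK0, ?_⟩
  filter_upwards [eventually_ge_atTop T0,
    Real.tendsto_log_atTop.eventually_ge_atTop (2 * K + 1)] with T hT hL m h1 h2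
  have hT10 : 10 ≤ T := hT0.trans hT
  have hT1 : 1 < T := by linarith
  have hgd := hg T hT
  obtain ⟨a1, a2, a3⟩ := Pool.Agent.Y743.LR.gam_le hκ hT1.le hgd.lgκ hgd.n1 hgd.n2 h1
  have h4 : 1 ≤ m := hgd.n1.trans h1
  have h3 : ord m ≤ 3 * T := (SG.ord_le_iff h4 _).mpr h2
  have hc := Pool.Agent.Y743.LR.dl_close (D := 3) hκ (by norm_num) hT1 h4 a1 h3
  rw [← hK] at hc
  have hLpos : 0 < Real.log T := by linarith
  have hKL : K / Real.log T ≤ 1 / 2 := by
    rw [div_le_div_iff₀ hLpos (by norm_num)]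
    linarith
  have h3' : K / Real.log T * dif (yv T) m ≤ 1 / 2 * dif (yv T) m :=
    mul_le_mul_of_nonneg_right hKL a2
  have h5 := (abs_le.mp hc).1
  have h6 := (abs_le.mp hc).2
  refine ⟨a2, ?_, ?_, hc⟩
  · rw [abs_le]
    constructor <;> linarith
  · have := le_abs_self (dl m)
    linarith

lemma Zr_add (T : ℝ) (a b n : ℕ) : Zr T (a + b) n = Zr T a n + Zr T b (n + a) := by
  unfold Zr
  rw [show n + (a + b) = n + a + b by ring]
  ring

/-- indicator of a rare event -/
noncomputable def ev (c : ℝ) (l n : ℕ) : ℝ := if SD l n ≤ c * l then 1 else 0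

lemma ev_nonneg (c : ℝ) (l n : ℕ) : 0 ≤ ev c l n := by
  unfold ev; split_ifs <;> norm_num

/-- sum over the rare events -/
noncomputable def EV (c : ℝ) (m0 M r n : ℕ) : ℝ :=
  ∑ l ∈ Icc m0 M, 2 * (l : ℝ) ^ 2 * (ev c l (n + 1 + r) + if l ≤ r then ev c l (n + r - l) else 0)

lemma EV_nonneg (c : ℝ) (m0 M r n : ℕ) : 0 ≤ EV c m0 M r n := by
  unfold EV
  refine Finset.sum_nonneg fun l _ => mul_nonneg (by positivity) ?_
  have := ev_nonneg c l (n + 1 + r)
  split_ifs
  · exact add_nonneg this (ev_nonneg _ _ _)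
  · linarith

lemma EV_ge {c : ℝ} {m0 M r n l : ℕ} (h1 : m0 ≤ l) (h2 : l ≤ M)
    (h : SD l (n + 1 + r) ≤ c * l ∨ (l ≤ r ∧ SD l (n + r - l) ≤ c * l)) :
    2 * (l : ℝ) ^ 2 ≤ EV c m0 M r n := by
  have h3 : 2 * (l : ℝ) ^ 2 * (ev c l (n + 1 + r) + if l ≤ r then ev c l (n + r - l) else 0) ≤
      EV c m0 M r n := by
    unfold EV
    refine Finset.single_le_sum (f := fun l : ℕ => 2 * (l : ℝ) ^ 2 * (ev c l (n + 1 + r) +
      if l ≤ r then ev c l (n + r - l) else 0)) (fun l _ => mul_nonneg (by positivity) ?_)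
      (Finset.mem_Icc.mpr ⟨h1, h2⟩)
    have := ev_nonneg c l (n + 1 + r)
    split_ifs
    · exact add_nonneg this (ev_nonneg _ _ _)
    · linarith
  refine le_trans ?_ h3
  have h4 : 1 ≤ ev c l (n + 1 + r) + if l ≤ r then ev c l (n + r - l) else 0 := by
    rcases h with h | ⟨h5, h6⟩
    · have e : ev c l (n + 1 + r) = 1 := by unfold ev; rw [if_pos h]
      rw [e]
      split_ifs
      · linarith [ev_nonneg c l (n + r - l)]
      · linarith
    · have e : ev c l (n + r - l) = 1 := by unfold ev; rw [if_pos h6]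
      rw [if_pos h5, e]
      linarith [ev_nonneg c l (n + 1 + r)]
  calc 2 * (l : ℝ) ^ 2 = 2 * (l : ℝ) ^ 2 * 1 := by ring
    _ ≤ _ := mul_le_mul_of_nonneg_left h4 (by positivity)

/-- **pointwise bound for the deviation of the number of zeros** -/
lemma low_point {T c : ℝ} (hT : 1 < T) (hc : 0 < c) {r m0 M : ℕ} {t : ℝ} (ht1 : T ≤ t)
    (ht2 : t ≤ 2 * T) (hrw : ww T * r ≤ T) (h1 : 1 ≤ NZ T) (hM : NZ (3 * T) ≤ M)
    (hM2 : NZ (2 * T) + r + 1 ≤ NZ (3 * T))
    (hcmp : ∀ m : ℕ, NZ T ≤ m → m ≤ NZ (3 * T) → |dl m| ≤ 2 * dif (yv T) m) :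
    dev T r t ^ 2 ≤ (2 + 2 * (m0 : ℝ) ^ 2) + 8 / c ^ 2 * ((Zr T r (NZ t) - r) ^ 2 +
      (Zr T r (NZ t + 1) - r) ^ 2) + EV c m0 M r (NZ t) := by
  have hpi := Real.pi_pos
  have hw : 0 < ww T := by
    unfold ww
    have := Real.log_pos hT
    positivity
  have hE := EV_nonneg c m0 M r (NZ t)
  have hn0 : NZ T ≤ NZ t := SG.NZ_mono ht1
  have hn2 : NZ t ≤ NZ (2 * T) := SG.NZ_mono ht2
  obtain ⟨n, hn⟩ : ∃ n : ℕ, n = NZ t := ⟨_, rfl⟩
  obtain ⟨m, hm⟩ : ∃ m : ℕ, m = NZ (t + ww T * r) := ⟨_, rfl⟩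
  have hnm : n ≤ m := by
    rw [hn, hm]
    exact SG.NZ_mono (by have : 0 ≤ ww T * r := by positivity
                         linarith)
  have hm3 : m ≤ NZ (3 * T) := by
    rw [hm]
    exact SG.NZ_mono (by linarith)
  have hn1 : 1 ≤ n := by omega
  have hdev : dev T r t = (m : ℝ) - n - r := by unfold dev; rw [← hn, ← hm]
  rw [← hn] at hn0 hn2 hE ⊢
  have hon : ord n ≤ t := (SG.ord_le_iff hn1 _).mpr hn.le
  have hon1 : t < ord (n + 1) := by
    by_contra hcon
    push Not at hcon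
    have := (SG.ord_le_iff (by omega) _).mp hcon
    omega
  have hom : ord m ≤ t + ww T * r := (SG.ord_le_iff (by omega) _).mpr hm.le
  have hom1 : t + ww T * r < ord (m + 1) := by
    by_contra hcon
    push Not at hcon
    have := (SG.ord_le_iff (by omega) _).mp hcon
    omega
  have hq1 : 0 ≤ 8 / c ^ 2 * (Zr T r n - r) ^ 2 := by positivity
  have hq2 : 0 ≤ 8 / c ^ 2 * (Zr T r (n + 1) - r) ^ 2 := by positivity
  have hq3 : (0 : ℝ) ≤ 2 * (m0 : ℝ) ^ 2 := by positivity
  -- a common conclusion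
  have hfin : ∀ l : ℕ, 2 * (l : ℝ) ^ 2 ≤ 2 * (m0 : ℝ) ^ 2 + 8 / c ^ 2 * ((Zr T r n - r) ^ 2 +
      (Zr T r (n + 1) - r) ^ 2) + EV c m0 M r n → |dev T r t| = l + 1 →
      dev T r t ^ 2 ≤ (2 + 2 * (m0 : ℝ) ^ 2) + 8 / c ^ 2 * ((Zr T r n - r) ^ 2 +
      (Zr T r (n + 1) - r) ^ 2) + EV c m0 M r n := by
    intro l h2 h3
    rw [← sq_abs, h3]
    have h4 : (0 : ℝ) ≤ l := Nat.cast_nonneg l
    nlinarith [sq_nonneg ((l : ℝ) - 1)]
  have hsq : ∀ l : ℕ, ∀ x : ℝ, c * l < 2 * x → 2 * (l : ℝ) ^ 2 ≤ 8 / c ^ 2 * x ^ 2 := by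
    intro l x h2
    have h4 : (0 : ℝ) ≤ c * l := by positivity
    have h5 : (c * l) ^ 2 ≤ (2 * x) ^ 2 := pow_le_pow_left₀ h4 h2.le 2
    rw [div_mul_eq_mul_div, le_div_iff₀ (by positivity)]
    nlinarith
  rcases le_or_gt (n + r + 2) m with hA | hA
  · -- many zeros
    obtain ⟨l, hl⟩ : ∃ l : ℕ, m = n + 1 + r + l := ⟨m - (n + 1 + r), by omega⟩
    apply hfin l
    · rcases lt_or_ge l m0 with h2 | h2
      · have h3 : (l : ℝ) ≤ m0 := by exact_mod_cast h2.le
        have h4 := pow_le_pow_left₀ (Nat.cast_nonneg l) h3 2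
        linarith
      · by_cases h3 : SD l (n + 1 + r) ≤ c * l
        · have := EV_ge (c := c) (m0 := m0) (M := M) (r := r) (n := n) h2 (by omega) (Or.inl h3)
          linarith
        · push Not at h3
          have h4 : SD l (n + 1 + r) ≤ 2 * Zr T l (n + 1 + r) := by
            have h5 : SD l (n + 1 + r) ≤ SA l (n + 1 + r) := by
              unfold SD SA
              exact Finset.sum_le_sum fun j _ => le_abs_self _
            exact h5.trans (SA_le_Zr hT fun j hj => hcmp _ (by omega) (by omega))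
          have h6 : Zr T (r + l) (n + 1) < r := by
            unfold Zr
            rw [div_lt_iff₀ hw, show n + 1 + (r + l) = m by omega]
            linarith
          rw [Zr_add] at h6
          have h7 := hsq l (r - Zr T r (n + 1)) (by linarith)
          have h8 : (r - Zr T r (n + 1)) ^ 2 = (Zr T r (n + 1) - r) ^ 2 := by ring
          rw [h8] at h7
          linarith
    · rw [hdev, hl]
      push_cast
      have : (n : ℝ) + 1 + r + l - n - r = l + 1 := by ring
      rw [this, abs_of_nonneg (by positivity)]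
  rcases le_or_gt (m + 2) (n + r) with hB | hB
  · -- few zeros
    obtain ⟨l, hl⟩ : ∃ l : ℕ, n + r = m + 1 + l := ⟨n + r - (m + 1), by omega⟩
    have hlr : l ≤ r := by omega
    apply hfin l
    · rcases lt_or_ge l m0 with h2 | h2
      · have h3 : (l : ℝ) ≤ m0 := by exact_mod_cast h2.le
        have h4 := pow_le_pow_left₀ (Nat.cast_nonneg l) h3 2
        linarith
      · by_cases h3 : SD l (n + r - l) ≤ c * l
        · have := EV_ge (c := c) (m0 := m0) (M := M) (r := r) (n := n) h2 (by omega)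
            (Or.inr ⟨hlr, h3⟩)
          linarith
        · push Not at h3
          have h4 : SD l (n + r - l) ≤ 2 * Zr T l (n + r - l) := by
            have h5 : SD l (n + r - l) ≤ SA l (n + r - l) := by
              unfold SD SA
              exact Finset.sum_le_sum fun j _ => le_abs_self _
            exact h5.trans (SA_le_Zr hT fun j hj => hcmp _ (by omega) (by omega))
          have h6 : (r : ℝ) < Zr T (r - l) n := by
            unfold Zr
            rw [lt_div_iff₀ hw, show n + (r - l) = m + 1 by omega]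
            linarith
          have h9 : Zr T r n = Zr T (r - l) n + Zr T l (n + r - l) := by
            have := Zr_add T (r - l) l n
            rw [show r - l + l = r by omega, show n + (r - l) = n + r - l by omega] at this
            exact this
          have h7 := hsq l (Zr T r n - r) (by linarith)
          linarith
    · rw [hdev]
      have : (n : ℝ) + r = m + 1 + l := by exact_mod_cast hl
      have h2 : (m : ℝ) - n - r = -(l + 1) := by linarith
      rw [h2, abs_neg, abs_of_nonneg (by positivity)]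
  · have h2 : |dev T r t| ≤ 1 := by
      rw [hdev, abs_le]
      have h3 : (m : ℝ) ≤ n + r + 1 := by
        have : m ≤ n + r + 1 := by omega
        exact_mod_cast this
      have h4 : (n : ℝ) + r ≤ m + 1 := by
        have : n + r ≤ m + 1 := by omega
        exact_mod_cast this
      constructor <;> linarith
    have h3 : dev T r t ^ 2 ≤ 1 := by
      rw [← sq_abs]
      calc |dev T r t| ^ 2 ≤ 1 ^ 2 := pow_le_pow_left₀ (abs_nonneg _) h2 2
        _ = 1 := by norm_num
    linarith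

lemma amgm {θ x : ℝ} (hθ : 0 < θ) (hx : 0 ≤ x) : x ≤ θ * x ^ 3 + 1 / Real.sqrt θ := by
  have hs : 0 < Real.sqrt θ := Real.sqrt_pos.2 hθ
  have hss : Real.sqrt θ ^ 2 = θ := Real.sq_sqrt hθ.le
  rcases le_total (Real.sqrt θ * x) 1 with h | h
  · have h1 : x ≤ 1 / Real.sqrt θ := by
      rw [le_div_iff₀ hs]
      linarith
    have : 0 ≤ θ * x ^ 3 := by positivity
    linarith
  · have h1 : 1 ≤ (Real.sqrt θ * x) ^ 2 := one_le_pow₀ h
    rw [mul_pow, hss] at h1
    have h2 : x * 1 ≤ x * (θ * x ^ 2) := mul_le_mul_of_nonneg_left h1 hx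
    have h3 : 0 ≤ 1 / Real.sqrt θ := by positivity
    calc x = x * 1 := by ring
      _ ≤ x * (θ * x ^ 2) := h2
      _ = θ * x ^ 3 := by ring
      _ ≤ _ := by linarith

lemma sum_exp2 (c : ℝ) (hc : 0 < c) : ∃ C : ℝ, 0 ≤ C ∧ ∀ s : Finset ℕ,
    ∑ i ∈ s, 4 * (i : ℝ) ^ 2 * Real.exp (-(c * i)) ≤ C := by
  have h1 : Summable fun i : ℕ => (i : ℝ) ^ 2 * Real.exp (-c) ^ i := by
    apply summable_pow_mul_geometric_of_norm_lt_one
    rw [Real.norm_of_nonneg (Real.exp_pos _).le, Real.exp_lt_one_iff]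
    linarith
  have h2 : Summable fun i : ℕ => 4 * (i : ℝ) ^ 2 * Real.exp (-(c * i)) := by
    have h3 := h1.mul_left 4
    refine h3.congr fun i => ?_
    rw [← Real.exp_nat_mul]
    rw [show (i : ℝ) * -c = -(c * i) by ring]
    ring
  refine ⟨∑' i : ℕ, 4 * (i : ℝ) ^ 2 * Real.exp (-(c * i)), tsum_nonneg fun i => by positivity,
    fun s => h2.sum_le_tsum s fun i _ => by positivity⟩

lemma many (r : ℕ) : ∀ᶠ T : ℝ in atTop, NZ (2 * T) + r + 1 ≤ NZ (3 * T) := by
  obtain ⟨T0, hT0, hNN⟩ := Pool.Agent.W54.TCF.NT_asymp' (1 / 20) (by norm_num)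
  filter_upwards [eventually_ge_atTop (max T0 (r + 10)),
    Real.tendsto_log_atTop.eventually_ge_atTop (100 : ℝ)] with T hT hL
  have hT1 : T0 ≤ T := (le_max_left _ _).trans hT
  have hTr : (r : ℝ) + 10 ≤ T := (le_max_right _ _).trans hT
  have hr0 : (0 : ℝ) ≤ r := Nat.cast_nonneg r
  have hTpos : 0 < T := by linarith
  have hpi := Real.pi_pos
  have h1 := (hNN (3 * T) (by linarith)).1
  have h2 := (hNN (2 * T) (by linarith)).2
  rw [← GP.NZ_eq] at h1 h2
  have h3 : Real.log T ≤ Real.log (3 * T) := Real.log_le_log hTpos (by linarith)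
  have h4 : Real.log (2 * T) ≤ Real.log T + 1 := by
    rw [Real.log_mul (by norm_num) hTpos.ne']
    linarith [Real.log_two_lt_d9]
  have e1 : (1 - 1 / 20) * (3 * T / (2 * Real.pi) * Real.log T) ≤ NZ (3 * T) := by
    refine le_trans ?_ h1
    apply mul_le_mul_of_nonneg_left _ (by norm_num)
    exact mul_le_mul_of_nonneg_left h3 (by positivity)
  have e2 : (NZ (2 * T) : ℝ) ≤ (1 + 1 / 20) * (2 * T / (2 * Real.pi) * (Real.log T + 1)) := by
    refine h2.trans ?_
    apply mul_le_mul_of_nonneg_left _ (by norm_num)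
    exact mul_le_mul_of_nonneg_left h4 (by positivity)
  have h5 : (NZ (2 * T) : ℝ) + r + 1 ≤ NZ (3 * T) := by
    refine le_trans ?_ e1
    have h6 : 0 < T / (2 * Real.pi) := by positivity
    have h7 : T / 7 ≤ T / (2 * Real.pi) := by
      apply div_le_div_of_nonneg_left hTpos.le (by positivity)
      linarith [Real.pi_lt_d2]
    have h8 : (1 + 1 / 20) * (2 * T / (2 * Real.pi) * (Real.log T + 1)) =
        21 / 10 * (T / (2 * Real.pi)) * (Real.log T + 1) := by ring
    have h9 : (1 - 1 / 20) * (3 * T / (2 * Real.pi) * Real.log T) =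
        57 / 20 * (T / (2 * Real.pi)) * Real.log T := by ring
    rw [h8] at e2
    rw [h9]
    have h10 : T ≤ (T / (2 * Real.pi)) * (3 / 4 * Real.log T - 21 / 10) := by nlinarith
    nlinarith
  exact_mod_cast h5

/-- **lower bound on a block** -/
theorem low_block (hRH : RiemannHypothesis) : ∃ a b : ℝ, 0 < a ∧ 0 < b ∧ ∀ r : ℕ, 1 ≤ r →
    ∀ᶠ T : ℝ in atTop, (a * Real.log r - b) * (T * Real.log T) ≤
      ∑ n ∈ Icc (NZ T) (NZ (2 * T)), dif (yv T) n *
        ((Zr T r n - r) ^ 2 + (Zr T r (n + 1) - r) ^ 2) := by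
  classical
  have hRHs := H177.Lat.rhs_of hRH
  obtain ⟨C1, T1, hC1, hT1, hnv⟩ := Pool.Agent.TH850.UV.nv2 1 le_rfl
  obtain ⟨κ, D, C2, hκ, hκ1, hD, hC2, hgood⟩ := Pool.Agent.Y743.LR.good_ev
  obtain ⟨C3, hC3, hcube⟩ := Pool.Agent.Y743.LR.gam_cube hRHs (κ := κ) (D := D) hκ hC2
  obtain ⟨c, hc, m1, hm1, hcl⟩ := clus hRH
  obtain ⟨K, hK, hn3⟩ := near3
  obtain ⟨m0, hm0⟩ : ∃ m0 : ℕ, m0 = max m1 3 := ⟨_, rfl⟩
  have hm01 : m1 ≤ m0 := hm0 ▸ le_max_left _ _
  have hm03 : 3 ≤ m0 := hm0 ▸ le_max_right _ _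
  obtain ⟨S, hS, hsum⟩ := sum_exp2 (c / 2) (by positivity)
  have hpi := Real.pi_pos
  obtain ⟨B, hB⟩ : ∃ B : ℝ, B = (2 + 2 * (m0 : ℝ) ^ 2) * (C2 + C3) + S * (C2 + C3) + C1 := ⟨_, rfl⟩
  have hBpos : 0 < B := by rw [hB]; positivity
  refine ⟨c ^ 2 / 8 * (1 / (2 * Real.pi ^ 3)), c ^ 2 / 8 * B, by positivity, by positivity,
    fun r hr => ?_⟩
  have hr1 : (1 : ℝ) ≤ r := by exact_mod_cast hr
  have hlogr : 0 ≤ Real.log r := Real.log_nonneg hr1
  obtain ⟨T0, hT0, hg⟩ := hgood 0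
  -- enough zeros
  have hmany := many r
  filter_upwards [eventually_ge_atTop T0, eventually_ge_atTop T1, hn3, hmany,
    Real.tendsto_log_atTop.eventually_ge_atTop (r * Real.log r),
    Real.tendsto_log_atTop.eventually_ge_atTop (2 * Real.pi * r)] with T hT hTT1 hcmp hM2 hTr hTw
  have hT10 : 10 ≤ T := hT0.trans hT
  have hT1' : 1 < T := by linarith
  have hTpos : 0 < T := by linarith
  have hgd := hg T hT
  have hL := Real.log_pos hT1'
  have hw : 0 < ww T := by unfold ww; positivity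
  have hwL : ww T * Real.log T = 2 * Real.pi := by unfold ww; field_simp
  have hrw : ww T * r ≤ T := by
    have : ww T * r ≤ 1 := by
      unfold ww
      rw [div_mul_eq_mul_div, div_le_one hL]
      exact hTw
    linarith
  have hn1 := hgd.n1
  -- lower bound for the integral
  obtain ⟨h1, h2⟩ := hnv T hTT1 r (by linarith) (by linarith)
  have hcongr : ∀ t ∈ Set.uIoc T (2 * T), ((Pool.Agent.TH850.UV.cnt t
      (2 * Real.pi * r / Real.log T) : ℝ) - r) ^ 2 = dev T r t ^ 2 := by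
    intro t ht
    rw [Set.uIoc_of_le (by linarith)] at ht
    rw [dev_cnt hT1' (by linarith [ht.1])]
  have hde : T / Real.pi ^ 2 * Real.log r - C1 * T ≤ ∫ t in T..(2 * T), dev T r t ^ 2 := by
    have h3 := (abs_le.mp h2).1
    rw [intervalIntegral.integral_congr_ae (g := fun t => dev T r t ^ 2)
      (Filter.Eventually.of_forall fun t ht => hcongr t ht)] at h3
    have h4 : T / Real.pi ^ 2 * Real.log r ≤ T / Real.pi ^ 2 * Real.log (1 + r) := by
      apply mul_le_mul_of_nonneg_left _ (by positivity)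
      exact Real.log_le_log (by linarith) (by linarith)
    linarith
  -- upper bound for the integral
  obtain ⟨F, hF⟩ : ∃ F : ℕ → ℝ, F = fun n => (2 + 2 * (m0 : ℝ) ^ 2) + 8 / c ^ 2 *
    ((Zr T r n - r) ^ 2 + (Zr T r (n + 1) - r) ^ 2) + EV c m0 (NZ (3 * T)) r n := ⟨_, rfl⟩
  have hF0 : ∀ n, 0 ≤ F n := fun n => by
    rw [hF]
    have := EV_nonneg c m0 (NZ (3 * T)) r n
    show 0 ≤ (2 + 2 * (m0 : ℝ) ^ 2) + 8 / c ^ 2 *
      ((Zr T r n - r) ^ 2 + (Zr T r (n + 1) - r) ^ 2) + EV c m0 (NZ (3 * T)) r n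
    positivity
  have hup : ∫ t in T..(2 * T), dev T r t ^ 2 ≤
      ∑ n ∈ Icc (NZ T) (NZ (2 * T)), F n * (ord (n + 1) - ord n) := by
    refine le_trans ?_ (Pool.Agent.Y743.LR.step_le F hF0 hn1)
    rw [intervalIntegral.integral_of_le (by linarith), ← integral_Icc_eq_integral_Ioc]
    apply setIntegral_mono_on
    · have := h1.congr (g := fun t => dev T r t ^ 2) (fun t ht => hcongr t ht)
      rw [intervalIntegrable_iff_integrableOn_Icc_of_le (by linarith)] at this
      exact this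
    · exact Pool.Agent.Y743.LR.step_int SG.NZ_mono (fun n _ => F n) 0 T (2 * T)
    · exact measurableSet_Icc
    · intro t ht
      rw [hF]
      exact low_point hT1' hc ht.1 ht.2 hrw hn1 le_rfl hM2 (fun m a b => (hcmp m a b).2.1)
  have hconv : ∑ n ∈ Icc (NZ T) (NZ (2 * T)), F n * (ord (n + 1) - ord n) =
      ww T * ∑ n ∈ Icc (NZ T) (NZ (2 * T)), dif (yv T) n * F n := by
    rw [Finset.mul_sum]
    refine Finset.sum_congr rfl fun n _ => ?_
    rw [dif_ww hT1']
    field_simp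
  rw [hconv] at hup
  -- the parts of the sum
  have hmemb : ∀ n ∈ Icc (NZ T) (NZ (2 * T)), NZ T ≤ n ∧ n ≤ NZ (3 * T) + 0 := by
    intro n hn
    rw [Finset.mem_Icc] at hn
    omega
  have hc1 := hcube 0 T hgd (Icc (NZ T) (NZ (2 * T))) hmemb
  have hd0 : ∀ n ∈ Icc (NZ T) (NZ (2 * T)), 0 ≤ dif (yv T) n := fun n hn =>
    (hcmp n (hmemb n hn).1 (hmemb n hn).2).1
  have hNZ3 : (NZ (3 * T) : ℝ) ≤ C2 * (T * Real.log T) := by
    have := hgd.card
    simpa using this
  have hcard : ((Icc (NZ T) (NZ (2 * T))).card : ℝ) ≤ C2 * (T * Real.log T) := by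
    refine le_trans ?_ hNZ3
    rw [Nat.card_Icc]
    have : NZ (2 * T) + 1 - NZ T ≤ NZ (3 * T) := by omega
    exact_mod_cast this
  have hYpos : 0 < T * Real.log T := by positivity
  have p1 : ∑ n ∈ Icc (NZ T) (NZ (2 * T)), dif (yv T) n ≤ (C2 + C3) * (T * Real.log T) := by
    have h5 : ∀ n ∈ Icc (NZ T) (NZ (2 * T)), dif (yv T) n ≤ 1 + dif (yv T) n ^ 3 := by
      intro n hn
      have h6 := amgm one_pos (hd0 n hn)
      rw [Real.sqrt_one] at h6
      linarith
    refine (Finset.sum_le_sum h5).trans ?_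
    rw [Finset.sum_add_distrib, Finset.sum_const, nsmul_eq_mul, mul_one]
    linarith
  -- the rare events
  have hevent : ∀ l : ℕ, m0 ≤ l → ∀ g : ℕ → ℕ, Set.InjOn g (Icc (NZ T) (NZ (2 * T)) : Finset ℕ) →
      (∀ n ∈ Icc (NZ T) (NZ (2 * T)), 1 ≤ g n ∧ g n ≤ NZ (3 * T)) →
      ∑ n ∈ Icc (NZ T) (NZ (2 * T)), dif (yv T) n * ev c l (g n) ≤
        (C2 + C3) * (T * Real.log T) * Real.exp (-(c / 2 * l)) := by
    intro l hl g hg hgb
    obtain ⟨θ, hθ⟩ : ∃ θ : ℝ, θ = Real.exp (-(c * l)) := ⟨_, rfl⟩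
    have hθ0 : 0 < θ := by rw [hθ]; exact Real.exp_pos _
    have hsq : 1 / Real.sqrt θ = Real.exp (c / 2 * l) := by
      rw [hθ, Real.sqrt_eq_rpow, ← Real.exp_mul, one_div, ← Real.exp_neg]
      congr 1
      ring
    have h5 : ∀ n ∈ Icc (NZ T) (NZ (2 * T)), dif (yv T) n * ev c l (g n) ≤
        θ * dif (yv T) n ^ 3 + 1 / Real.sqrt θ * ev c l (g n) := by
      intro n hn
      have h6 := amgm hθ0 (hd0 n hn)
      have h7 : 0 ≤ θ * dif (yv T) n ^ 3 := mul_nonneg hθ0.le (pow_nonneg (hd0 n hn) 3)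
      unfold ev
      split_ifs
      · linarith
      · linarith
    refine (Finset.sum_le_sum h5).trans ?_
    rw [Finset.sum_add_distrib, ← Finset.mul_sum, ← Finset.mul_sum]
    have h8 : ∑ n ∈ Icc (NZ T) (NZ (2 * T)), ev c l (g n) ≤
        C2 * (T * Real.log T) * Real.exp (-c * l * Real.log l) := by
      rw [← Finset.sum_image (f := fun n => ev c l n) hg]
      have h9 : ∑ n ∈ (Icc (NZ T) (NZ (2 * T))).image g, ev c l n ≤
          ∑ n ∈ Icc 1 (NZ (3 * T)), ev c l n := by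
        refine Finset.sum_le_sum_of_subset_of_nonneg ?_ fun n _ _ => ev_nonneg _ _ _
        intro m hm
        rw [Finset.mem_image] at hm
        obtain ⟨n, hn, rfl⟩ := hm
        rw [Finset.mem_Icc]
        exact hgb n hn
      refine h9.trans ?_
      have h10 : ∑ n ∈ Icc 1 (NZ (3 * T)), ev c l n =
          (((Icc 1 (NZ (3 * T))).filter fun n => SD l n ≤ c * l).card : ℝ) := by
        rw [Finset.card_filter]
        push_cast
        rfl
      rw [h10]
      refine (hcl (NZ (3 * T)) (by omega) l (by omega)).trans ?_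
      exact mul_le_mul_of_nonneg_right hNZ3 (Real.exp_pos _).le
    have h11 : Real.exp (c / 2 * l) * Real.exp (-c * l * Real.log l) ≤ Real.exp (-(c / 2 * l)) := by
      rw [← Real.exp_add]
      apply Real.exp_le_exp.2
      have h12 : 1 ≤ Real.log l := by
        have h13 : (3 : ℝ) ≤ l := by
          have : 3 ≤ l := by omega
          exact_mod_cast this
        rw [Real.le_log_iff_exp_le (by linarith)]
        linarith [Real.exp_one_lt_d9]
      have h14 : c * l * 1 ≤ c * l * Real.log l := mul_le_mul_of_nonneg_left h12 (by positivity)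
      linarith
    have h15 : θ ≤ Real.exp (-(c / 2 * l)) := by
      rw [hθ]
      apply Real.exp_le_exp.2
      have : 0 ≤ c * l := by positivity
      linarith
    have h16 : θ * ∑ n ∈ Icc (NZ T) (NZ (2 * T)), dif (yv T) n ^ 3 ≤
        Real.exp (-(c / 2 * l)) * (C3 * (T * Real.log T)) :=
      mul_le_mul h15 hc1 (Finset.sum_nonneg fun n hn => pow_nonneg (hd0 n hn) 3)
        (Real.exp_pos _).le
    have h17 : 1 / Real.sqrt θ * ∑ n ∈ Icc (NZ T) (NZ (2 * T)), ev c l (g n) ≤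
        Real.exp (-(c / 2 * l)) * (C2 * (T * Real.log T)) := by
      rw [hsq]
      calc _ ≤ Real.exp (c / 2 * l) * (C2 * (T * Real.log T) * Real.exp (-c * l * Real.log l)) :=
            mul_le_mul_of_nonneg_left h8 (Real.exp_pos _).le
        _ = (Real.exp (c / 2 * l) * Real.exp (-c * l * Real.log l)) * (C2 * (T * Real.log T)) := by
            ring
        _ ≤ _ := mul_le_mul_of_nonneg_right h11 (by positivity)
    linarith
  have p2 : ∑ n ∈ Icc (NZ T) (NZ (2 * T)), dif (yv T) n * EV c m0 (NZ (3 * T)) r n ≤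
      S * (C2 + C3) * (T * Real.log T) := by
    have e : ∀ n ∈ Icc (NZ T) (NZ (2 * T)), dif (yv T) n * EV c m0 (NZ (3 * T)) r n =
        ∑ l ∈ Icc m0 (NZ (3 * T)), 2 * (l : ℝ) ^ 2 * (dif (yv T) n * ev c l (n + 1 + r) +
          if l ≤ r then dif (yv T) n * ev c l (n + r - l) else 0) := by
      intro n _
      unfold EV
      rw [Finset.mul_sum]
      refine Finset.sum_congr rfl fun l _ => ?_
      split_ifs <;> ring
    rw [Finset.sum_congr rfl e, Finset.sum_comm]
    calc _ ≤ ∑ l ∈ Icc m0 (NZ (3 * T)), (4 * (l : ℝ) ^ 2 * Real.exp (-(c / 2 * l))) *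
          ((C2 + C3) * (T * Real.log T)) := by
          refine Finset.sum_le_sum fun l hl => ?_
          rw [Finset.mem_Icc] at hl
          rw [← Finset.mul_sum, Finset.sum_add_distrib]
          have q1 := hevent l hl.1 (fun n => n + 1 + r) (fun a _ b _ hab => by
            have : a + 1 + r = b + 1 + r := hab
            omega) (fun n hn => by
            rw [Finset.mem_Icc] at hn
            constructor
            · omega
            · show n + 1 + r ≤ NZ (3 * T)
              omega)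
          have q2 : ∑ n ∈ Icc (NZ T) (NZ (2 * T)),
              (if l ≤ r then dif (yv T) n * ev c l (n + r - l) else 0) ≤
              (C2 + C3) * (T * Real.log T) * Real.exp (-(c / 2 * l)) := by
            by_cases hlr : l ≤ r
            · simp only [if_pos hlr]
              exact hevent l hl.1 (fun n => n + r - l) (fun a _ b _ hab => by
                have : a + r - l = b + r - l := hab
                omega) (fun n hn => by
                rw [Finset.mem_Icc] at hn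
                constructor
                · show 1 ≤ n + r - l
                  omega
                · show n + r - l ≤ NZ (3 * T)
                  omega)
            · simp only [if_neg hlr, Finset.sum_const_zero]
              positivity
          calc _ ≤ 2 * (l : ℝ) ^ 2 * ((C2 + C3) * (T * Real.log T) * Real.exp (-(c / 2 * l)) +
                (C2 + C3) * (T * Real.log T) * Real.exp (-(c / 2 * l))) :=
                mul_le_mul_of_nonneg_left (add_le_add q1 q2) (by positivity)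
            _ = _ := by ring
      _ = (∑ l ∈ Icc m0 (NZ (3 * T)), 4 * (l : ℝ) ^ 2 * Real.exp (-(c / 2 * l))) *
          ((C2 + C3) * (T * Real.log T)) := by rw [Finset.sum_mul]
      _ ≤ S * ((C2 + C3) * (T * Real.log T)) :=
          mul_le_mul_of_nonneg_right (hsum _) (by positivity)
      _ = _ := by ring
  obtain ⟨Q, hQ⟩ : ∃ Q : ℝ, Q = ∑ n ∈ Icc (NZ T) (NZ (2 * T)), dif (yv T) n *
        ((Zr T r n - r) ^ 2 + (Zr T r (n + 1) - r) ^ 2) := ⟨_, rfl⟩
  have p3 : ∑ n ∈ Icc (NZ T) (NZ (2 * T)), dif (yv T) n * F n ≤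
      (2 + 2 * (m0 : ℝ) ^ 2) * ((C2 + C3) * (T * Real.log T)) + 8 / c ^ 2 * Q +
      S * (C2 + C3) * (T * Real.log T) := by
    have e : ∀ n ∈ Icc (NZ T) (NZ (2 * T)), dif (yv T) n * F n =
        (2 + 2 * (m0 : ℝ) ^ 2) * dif (yv T) n + 8 / c ^ 2 * (dif (yv T) n *
        ((Zr T r n - r) ^ 2 + (Zr T r (n + 1) - r) ^ 2)) +
        dif (yv T) n * EV c m0 (NZ (3 * T)) r n := by
      intro n _
      rw [hF]
      ring
    rw [Finset.sum_congr rfl e, Finset.sum_add_distrib, Finset.sum_add_distrib, ← Finset.mul_sum,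
      ← Finset.mul_sum, ← hQ]
    have := mul_le_mul_of_nonneg_left p1 (show 0 ≤ (2 + 2 * (m0 : ℝ) ^ 2) by positivity)
    linarith
  rw [← hQ]
  -- combine
  have h20 : T / Real.pi ^ 2 * Real.log r - C1 * T ≤ ww T *
      ((2 + 2 * (m0 : ℝ) ^ 2) * ((C2 + C3) * (T * Real.log T)) + 8 / c ^ 2 * Q +
      S * (C2 + C3) * (T * Real.log T)) :=
    hde.trans (hup.trans (mul_le_mul_of_nonneg_left p3 hw.le))
  have h21 : Real.log T * (T / Real.pi ^ 2 * Real.log r - C1 * T) ≤ 2 * Real.pi *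
      ((2 + 2 * (m0 : ℝ) ^ 2) * ((C2 + C3) * (T * Real.log T)) + 8 / c ^ 2 * Q +
      S * (C2 + C3) * (T * Real.log T)) := by
    have := mul_le_mul_of_nonneg_left h20 hL.le
    calc _ ≤ Real.log T * (ww T *
      ((2 + 2 * (m0 : ℝ) ^ 2) * ((C2 + C3) * (T * Real.log T)) + 8 / c ^ 2 * Q +
      S * (C2 + C3) * (T * Real.log T))) := this
      _ = (ww T * Real.log T) * ((2 + 2 * (m0 : ℝ) ^ 2) * ((C2 + C3) * (T * Real.log T)) +
          8 / c ^ 2 * Q + S * (C2 + C3) * (T * Real.log T)) := by ring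
      _ = _ := by rw [hwL]
  have h22 : (1 / (2 * Real.pi ^ 3) * Real.log r - B) * (T * Real.log T) ≤ 8 / c ^ 2 * Q := by
    have h23 : Real.log T * (T / Real.pi ^ 2 * Real.log r - C1 * T) / (2 * Real.pi) ≤
        (2 + 2 * (m0 : ℝ) ^ 2) * ((C2 + C3) * (T * Real.log T)) + 8 / c ^ 2 * Q +
      S * (C2 + C3) * (T * Real.log T) := by
      rw [div_le_iff₀ (by positivity)]
      linarith
    have h24 : Real.log T * (T / Real.pi ^ 2 * Real.log r - C1 * T) / (2 * Real.pi) =
        (1 / (2 * Real.pi ^ 3) * Real.log r) * (T * Real.log T) -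
        C1 * (T * Real.log T) / (2 * Real.pi) := by
      field_simp
    rw [h24] at h23
    have h25 : C1 * (T * Real.log T) / (2 * Real.pi) ≤ C1 * (T * Real.log T) :=
      div_le_self (by positivity) (by linarith [Real.pi_gt_three])
    rw [hB]
    linarith
  have h26 := mul_le_mul_of_nonneg_left h22 (show 0 ≤ c ^ 2 / 8 by positivity)
  calc _ = c ^ 2 / 8 * ((1 / (2 * Real.pi ^ 3) * Real.log r - B) * (T * Real.log T)) := by ring
    _ ≤ _ := h26
    _ = Q := by field_simp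

end Pool.Agent.Q31.GV
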