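import Pool.Agent.Q31.GV.WN
import Pool.Agent.H345R2.CT.C

set_option autoImplicit false

/-! # Moments of the gaps -/

open Filter Topology Set MeasureTheory

namespace Pool.Agent.Q31.GV

open SG (ord NZ)
open LG (dlt)
open SP (RHs)
open Pool.Agent.Y743.LR (dl)

/-- moments of the normalised gaps -/
lemma mom_sum (hRH : RHs) (p : ℕ) : ∃ C : ℝ, 0 < C ∧ ∀ N : ℕ,
    ∑ n ∈ Finset.Icc 1 N, (max (dlt n) 0) ^ p ≤ C * N := by
  classical
  obtain ⟨c, y0, hc, hy0, h⟩ := LG.gap_uniform hRH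
  set M : ℕ := ⌈y0⌉₊ with hM
  have hM0 : y0 ≤ M := Nat.le_ceil _
  set b : ℕ → ℝ := fun m => ((m : ℝ) + 1) ^ p * Real.exp (-c * m * Real.log m) with hb
  have hb0 : ∀ m, 0 ≤ b m := fun m => by
    rw [hb]
    positivity
  have hbs : Summable b := by
    have hr : ‖Real.exp (-c)‖ < 1 := by
      rw [Real.norm_of_nonneg (Real.exp_pos _).le, Real.exp_lt_one_iff]; linarith
    have h0 : Summable fun m : ℕ => (m : ℝ) ^ p * Real.exp (-c) ^ m :=
      summable_pow_mul_geometric_of_norm_lt_one (R := ℝ) p hr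
    have h1 : Summable fun m : ℕ => 2 ^ p * ((m : ℝ) ^ p * Real.exp (-c) ^ m) := h0.mul_left _
    refine Summable.of_norm_bounded_eventually_nat h1 ?_
    filter_upwards [eventually_ge_atTop 3] with m hm
    have hm3 : (3 : ℝ) ≤ m := by exact_mod_cast hm
    have hl : 1 ≤ Real.log m := by
      rw [Real.le_log_iff_exp_le (by linarith)]
      linarith [Real.exp_one_lt_d9]
    rw [Real.norm_of_nonneg (hb0 m)]
    have e1 : ((m : ℝ) + 1) ^ p ≤ 2 ^ p * (m : ℝ) ^ p := by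
      rw [← mul_pow]
      exact pow_le_pow_left₀ (by positivity) (by linarith) p
    have e2 : Real.exp (-c * m * Real.log m) ≤ Real.exp (-c) ^ m := by
      rw [← Real.exp_nat_mul]
      apply Real.exp_le_exp.mpr
      have h2 : (c * m) * 1 ≤ (c * m) * Real.log m := by gcongr
      linarith
    calc ((m : ℝ) + 1) ^ p * Real.exp (-c * m * Real.log m) ≤
        (2 ^ p * (m : ℝ) ^ p) * Real.exp (-c) ^ m := by gcongr
      _ = _ := by ring
  have hts : 0 ≤ ∑' m, b m := tsum_nonneg hb0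
  have hM3 : (0 : ℝ) ≤ (M : ℝ) ^ p := pow_nonneg (Nat.cast_nonneg _) p
  refine ⟨(M : ℝ) ^ p + ∑' m, b m + 1, by linarith only [hts, hM3], fun N => ?_⟩
  rcases Nat.eq_zero_or_pos N with hN | hN
  · subst hN; simp
  obtain ⟨K, hK⟩ : ∃ K : ℕ, ∀ n ∈ Finset.Icc 1 N, dlt n < K := by
    refine ⟨⌈∑ n ∈ Finset.Icc 1 N, |dlt n|⌉₊ + 1, fun n hn => ?_⟩
    have h1 : dlt n ≤ ∑ n ∈ Finset.Icc 1 N, |dlt n| :=
      (le_abs_self _).trans (Finset.single_le_sum (f := fun n => |dlt n|)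
        (fun _ _ => abs_nonneg _) hn)
    have h2 := Nat.le_ceil (∑ n ∈ Finset.Icc 1 N, |dlt n|)
    push_cast
    linarith
  have hpt : ∀ n ∈ Finset.Icc 1 N, (max (dlt n) 0) ^ p ≤ (M : ℝ) ^ p +
      ∑ m ∈ Finset.Ico M K, ((m : ℝ) + 1) ^ p * (if (m : ℝ) ≤ dlt n then 1 else 0) := by
    intro n hn
    have hs0 : 0 ≤ ∑ m ∈ Finset.Ico M K,
        ((m : ℝ) + 1) ^ p * (if (m : ℝ) ≤ dlt n then (1 : ℝ) else 0) :=
      Finset.sum_nonneg fun m _ => mul_nonneg (by positivity) (by split_ifs <;> norm_num)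
    rcases lt_or_ge (dlt n) M with h1 | h1
    · have h2 : (max (dlt n) 0) ^ p ≤ (M : ℝ) ^ p :=
        pow_le_pow_left₀ (le_max_right _ _) (max_le h1.le (Nat.cast_nonneg _)) p
      linarith
    · have hd0 : 0 ≤ dlt n := (Nat.cast_nonneg _).trans h1
      rw [max_eq_left hd0]
      set m : ℕ := ⌊dlt n⌋₊ with hm
      have hm1 : (m : ℝ) ≤ dlt n := Nat.floor_le hd0
      have hm2 : dlt n < m + 1 := Nat.lt_floor_add_one _
      have hm3 : m ∈ Finset.Ico M K := by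
        rw [Finset.mem_Ico]
        refine ⟨Nat.le_floor h1, ?_⟩
        have : (m : ℝ) < K := hm1.trans_lt (hK n hn)
        exact_mod_cast this
      have h2 : ((m : ℝ) + 1) ^ p * (if (m : ℝ) ≤ dlt n then (1 : ℝ) else 0) ≤
          ∑ m ∈ Finset.Ico M K, ((m : ℝ) + 1) ^ p * (if (m : ℝ) ≤ dlt n then (1 : ℝ) else 0) :=
        Finset.single_le_sum
          (f := fun m : ℕ => ((m : ℝ) + 1) ^ p * (if (m : ℝ) ≤ dlt n then (1 : ℝ) else 0))
          (fun m _ => mul_nonneg (by positivity) (by split_ifs <;> norm_num)) hm3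
      rw [if_pos hm1, mul_one] at h2
      have h3 : dlt n ^ p ≤ ((m : ℝ) + 1) ^ p := pow_le_pow_left₀ hd0 hm2.le p
      linarith
  refine (Finset.sum_le_sum hpt).trans ?_
  rw [Finset.sum_add_distrib, Finset.sum_const, Nat.card_Icc, Nat.add_sub_cancel, nsmul_eq_mul,
    Finset.sum_comm]
  have hm : ∀ m ∈ Finset.Ico M K, ∑ n ∈ Finset.Icc 1 N,
      ((m : ℝ) + 1) ^ p * (if (m : ℝ) ≤ dlt n then (1 : ℝ) else 0) ≤ b m * N := by
    intro m hm
    rw [Finset.mem_Ico] at hm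
    rw [← Finset.mul_sum, Finset.sum_boole]
    have hy : y0 ≤ (m : ℝ) := hM0.trans (by exact_mod_cast hm.1)
    have h1 := h N hN m hy
    have h2 : {n : ℕ | 1 ≤ n ∧ n ≤ N ∧ (m : ℝ) ≤ dlt n} =
        ((Finset.Icc 1 N).filter fun n => (m : ℝ) ≤ dlt n : Finset ℕ) := by
      ext n
      simp only [mem_ofPred_eq, Finset.coe_filter, Finset.mem_Icc]
      tauto
    rw [h2, Set.ncard_coe_finset] at h1
    calc ((m : ℝ) + 1) ^ p * (((Finset.Icc 1 N).filter fun n => (m : ℝ) ≤ dlt n).card : ℝ) ≤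
        ((m : ℝ) + 1) ^ p * (N * Real.exp (-c * m * Real.log m)) := by gcongr
      _ = b m * N := by rw [hb]; ring
  have h1 : ∑ m ∈ Finset.Ico M K, ∑ n ∈ Finset.Icc 1 N,
      ((m : ℝ) + 1) ^ p * (if (m : ℝ) ≤ dlt n then (1 : ℝ) else 0) ≤ (∑' m, b m) * N := by
    refine (Finset.sum_le_sum hm).trans ?_
    rw [← Finset.sum_mul]
    exact mul_le_mul_of_nonneg_right (hbs.sum_le_tsum _ fun _ _ => hb0 _) (Nat.cast_nonneg _)
  have hN0 : (0 : ℝ) ≤ N := Nat.cast_nonneg _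
  have e : ((M : ℝ) ^ p + ∑' m, b m + 1) * N = N * (M : ℝ) ^ p + (∑' m, b m) * N + N := by ring
  rw [e]
  exact (add_le_add_right h1 _).trans (le_add_of_nonneg_right hN0)

/-- **all moments of the gaps** -/
theorem mom (hRH : RiemannHypothesis) (p : ℕ) : ∃ C : ℝ, 0 < C ∧ ∀ N : ℕ,
    ∑ n ∈ Finset.Icc 1 N, |dl n| ^ p ≤ C * N := by
  obtain ⟨C, hC, h⟩ := mom_sum (H177.Lat.rhs_of hRH) p
  obtain ⟨n0, hn01, hn0⟩ := GP.dl_nonneg
  obtain ⟨K, hK⟩ : ∃ K : ℝ, K = ∑ n ∈ Finset.range n0, |dl n| ^ p := ⟨_, rfl⟩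
  have hK0 : 0 ≤ K := by rw [hK]; exact Finset.sum_nonneg fun _ _ => by positivity
  refine ⟨C + K, by positivity, fun N => ?_⟩
  rcases Nat.eq_zero_or_pos N with hN | hN
  · subst hN; simp
  have h1 : ∀ n ∈ Finset.Icc 1 N, |dl n| ^ p ≤ (max (LG.dlt n) 0) ^ p +
      (if n < n0 then |dl n| ^ p else 0) := by
    intro n hn
    rw [Finset.mem_Icc] at hn
    have h2 : 0 ≤ (max (LG.dlt n) 0) ^ p := by positivity
    split_ifs with h3
    · linarith
    · rw [add_zero, abs_of_nonneg (hn0 n (not_lt.mp h3))]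
      exact pow_le_pow_left₀ (hn0 n (not_lt.mp h3)) ((GP.dl_le_dlt hn.1).trans (le_max_left _ _)) p
  refine (Finset.sum_le_sum h1).trans ?_
  rw [Finset.sum_add_distrib, ← Finset.sum_filter]
  have h2 : ∑ n ∈ (Finset.Icc 1 N).filter (fun n => n < n0), |dl n| ^ p ≤ K := by
    rw [hK]
    refine Finset.sum_le_sum_of_subset_of_nonneg ?_ fun _ _ _ => by positivity
    intro n hn
    rw [Finset.mem_filter] at hn
    rw [Finset.mem_range]
    exact hn.2
  have h3 := h N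
  have h4 : (1 : ℝ) ≤ N := by exact_mod_cast hN
  nlinarith

lemma shift_le {f : ℕ → ℝ} (hf : ∀ n, 0 ≤ f n) (N j : ℕ) :
    ∑ n ∈ Finset.Icc 1 N, f (n + j) ≤ ∑ n ∈ Finset.Icc 1 (N + j), f n := by
  have h1 : ∑ n ∈ Finset.Icc 1 N, f (n + j) = ∑ n ∈ Finset.Icc (1 + j) (N + j), f n := by
    rw [← Finset.map_add_right_Icc, Finset.sum_map]
    rfl
  rw [h1]
  exact Finset.sum_le_sum_of_subset_of_nonneg (Finset.Icc_subset_Icc (by omega) le_rfl)
    fun n _ _ => hf n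

/-- moments of centred sums of gaps -/
theorem mom_SD (hRH : RiemannHypothesis) (p : ℕ) : ∃ C : ℝ, 0 < C ∧ ∀ r N : ℕ, r ≤ N →
    ∑ n ∈ Finset.Icc 1 N, |SD r n - r| ^ (p + 1) ≤ C * (r : ℝ) ^ (p + 1) * N := by
  obtain ⟨C, hC, h⟩ := mom hRH (p + 1)
  refine ⟨2 ^ (p + 1) * (2 * C + 1), by positivity, fun r N hrN => ?_⟩
  rcases Nat.eq_zero_or_pos r with h0 | hr
  · subst h0
    simp [SD]
  have hr0 : (0 : ℝ) < r := by exact_mod_cast hr
  have hN0 : (0 : ℝ) ≤ N := Nat.cast_nonneg _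
  have hrN' : (r : ℝ) ≤ N := by exact_mod_cast hrN
  have hpt : ∀ n : ℕ, |SD r n - r| ^ (p + 1) ≤ 2 ^ (p + 1) *
      ((r : ℝ) ^ p * ∑ i ∈ Finset.range r, |dl (n + i)| ^ (p + 1) + (r : ℝ) ^ (p + 1)) := by
    intro n
    have h1 : |SD r n - r| ≤ ∑ i ∈ Finset.range r, |dl (n + i)| + r := by
      refine (abs_sub _ _).trans ?_
      rw [abs_of_nonneg hr0.le]
      unfold SD
      linarith [Finset.abs_sum_le_sum_abs (fun i => dl (n + i)) (Finset.range r)]
    have hs0 : 0 ≤ ∑ i ∈ Finset.range r, |dl (n + i)| :=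
      Finset.sum_nonneg fun _ _ => abs_nonneg _
    have h2 := pow_le_pow_left₀ (abs_nonneg _) h1 (p + 1)
    have h4 := pow_sum_div_card_le_sum_pow (s := Finset.range r) (f := fun i => |dl (n + i)|)
      (fun i _ => abs_nonneg _) p
    rw [Finset.card_range, div_le_iff₀ (by positivity)] at h4
    have h5 : (∑ i ∈ Finset.range r, |dl (n + i)| + r) ^ (p + 1) ≤
        2 ^ (p + 1) * ((∑ i ∈ Finset.range r, |dl (n + i)|) ^ (p + 1) + (r : ℝ) ^ (p + 1)) := by
      rcases le_total (∑ i ∈ Finset.range r, |dl (n + i)|) r with h6 | h6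
      · calc _ ≤ (2 * (r : ℝ)) ^ (p + 1) := pow_le_pow_left₀ (by positivity) (by linarith) _
          _ = 2 ^ (p + 1) * (r : ℝ) ^ (p + 1) := mul_pow _ _ _
          _ ≤ _ := by
            apply mul_le_mul_of_nonneg_left _ (by positivity)
            linarith [pow_nonneg hs0 (p + 1)]
      · calc _ ≤ (2 * ∑ i ∈ Finset.range r, |dl (n + i)|) ^ (p + 1) :=
            pow_le_pow_left₀ (by positivity) (by linarith) _
          _ = 2 ^ (p + 1) * (∑ i ∈ Finset.range r, |dl (n + i)|) ^ (p + 1) := mul_pow _ _ _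
          _ ≤ _ := by
            apply mul_le_mul_of_nonneg_left _ (by positivity)
            linarith [pow_nonneg hr0.le (p + 1)]
    refine (h2.trans h5).trans ?_
    apply mul_le_mul_of_nonneg_left _ (by positivity)
    linarith
  refine (Finset.sum_le_sum fun n _ => hpt n).trans ?_
  rw [← Finset.mul_sum, Finset.sum_add_distrib, ← Finset.mul_sum, Finset.sum_comm,
    Finset.sum_const, Nat.card_Icc, Nat.add_sub_cancel, nsmul_eq_mul]
  have h6 : ∑ i ∈ Finset.range r, ∑ n ∈ Finset.Icc 1 N, |dl (n + i)| ^ (p + 1) ≤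
      r * (C * (2 * N)) := by
    calc _ ≤ ∑ i ∈ Finset.range r, C * (2 * N) := by
          refine Finset.sum_le_sum fun i hi => ?_
          rw [Finset.mem_range] at hi
          refine (shift_le (f := fun n => |dl n| ^ (p + 1)) (fun n => by positivity) N i).trans ?_
          refine (h (N + i)).trans ?_
          apply mul_le_mul_of_nonneg_left _ hC.le
          have : (i : ℝ) ≤ r := by exact_mod_cast hi.le
          push_cast
          linarith
      _ = _ := by rw [Finset.sum_const, Finset.card_range, nsmul_eq_mul]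
  have h7 : (r : ℝ) ^ p * ∑ i ∈ Finset.range r, ∑ n ∈ Finset.Icc 1 N, |dl (n + i)| ^ (p + 1) ≤
      (r : ℝ) ^ p * (r * (C * (2 * N))) := mul_le_mul_of_nonneg_left h6 (by positivity)
  have h8 : (r : ℝ) ^ p * (r * (C * (2 * N))) = 2 * C * (r : ℝ) ^ (p + 1) * N := by ring
  calc _ ≤ 2 ^ (p + 1) * (2 * C * (r : ℝ) ^ (p + 1) * N + N * (r : ℝ) ^ (p + 1)) := by
        apply mul_le_mul_of_nonneg_left _ (by positivity)
        linarith
    _ = _ := by ring

/-- sums of `m` gaps are rarely small -/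
theorem clus (hRH : RiemannHypothesis) : ∃ c : ℝ, 0 < c ∧ ∃ m0 : ℕ, 1 ≤ m0 ∧ ∀ N : ℕ, 1 ≤ N →
    ∀ m : ℕ, m0 ≤ m →
    (((Finset.Icc 1 N).filter fun n => SD m n ≤ c * m).card : ℝ) ≤
      N * Real.exp (-c * m * Real.log m) := by
  obtain ⟨c, hc, m0, hm0, h⟩ := LG.CU.cluster_uniform (H177.Lat.rhs_of hRH)
  refine ⟨c, hc, m0, hm0, fun N hN m hm => ?_⟩
  have h1 := h N hN m hm
  have h2 : {n : ℕ | 1 ≤ n ∧ n ≤ N ∧ ∑ i ∈ Finset.range m, LG.CU.del (n + i) ≤ c * m} =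
      ((Finset.Icc 1 N).filter fun n => SD m n ≤ c * m : Finset ℕ) := by
    ext n
    simp only [mem_ofPred_eq, Finset.coe_filter, Finset.mem_Icc]
    have e : ∑ i ∈ Finset.range m, LG.CU.del (n + i) = SD m n := by
      unfold SD
      refine Finset.sum_congr rfl fun i _ => ?_
      unfold LG.CU.del dl
      ring
    rw [e]
    tauto
  rw [h2, Set.ncard_coe_finset] at h1
  exact h1

end Pool.Agent.Q31.GV
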