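import Pool.Agent.Q31.GV.Mom

set_option autoImplicit false

/-! # The variance of sums of consecutive gaps -/

open Filter Topology Finset

namespace Pool.Agent.Q31.GV

open Pool.Agent.Y743.LR (dl)

/-- bound for the mean square of the centred sums of `r` gaps -/
def Vb (r : ℕ) (v : ℝ) : Prop :=
  ∀ᶠ N : ℕ in atTop, ∑ n ∈ Icc 1 N, (SD r n - r) ^ 2 ≤ v * N

lemma Vb.mono {r : ℕ} {v w : ℝ} (h : Vb r v) (hvw : v ≤ w) : Vb r w := by
  filter_upwards [h] with N hN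
  exact hN.trans (mul_le_mul_of_nonneg_right hvw (Nat.cast_nonneg N))

/-- the difference of two sums of `r` gaps at distance `j` -/
lemma SD_diff (r j n : ℕ) :
    SD r (n + j) - SD r n = (SD j (n + r) - j) - (SD j n - j) := by
  have h1 : SD r (n + j) + SD j n = SD (j + r) n := by
    unfold SD
    rw [Finset.sum_range_add, add_comm]
    congr 1
    refine Finset.sum_congr rfl fun i _ => ?_
    rw [show n + j + i = n + (j + i) by ring]
  have h2 : SD j (n + r) + SD r n = SD (r + j) n := by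
    unfold SD
    rw [Finset.sum_range_add, add_comm]
    congr 1
    refine Finset.sum_congr rfl fun i _ => ?_
    rw [show n + r + i = n + (r + i) by ring]
  rw [add_comm j r] at h1
  linarith

lemma sq_le_cube {κ x : ℝ} (hκ : 0 < κ) : x ^ 2 ≤ κ * |x| ^ 3 + 1 / κ ^ 2 := by
  have h := Pool.Agent.Y743.LR.aux2 hκ (abs_nonneg x)
  rwa [sq_abs] at h

lemma pow52 {x y : ℝ} (hx : 0 ≤ x) (hy : 0 ≤ y) : x ^ 5 * y ^ 2 ≤ x ^ 7 + y ^ 7 := by
  rcases le_total x y with h | h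
  · have : x ^ 5 * y ^ 2 ≤ y ^ 5 * y ^ 2 :=
      mul_le_mul_of_nonneg_right (pow_le_pow_left₀ hx h 5) (by positivity)
    have h2 : 0 ≤ x ^ 7 := by positivity
    calc _ ≤ y ^ 5 * y ^ 2 := this
      _ = y ^ 7 := by ring
      _ ≤ _ := by linarith
  · have : x ^ 5 * y ^ 2 ≤ x ^ 5 * x ^ 2 :=
      mul_le_mul_of_nonneg_left (pow_le_pow_left₀ hy h 2) (by positivity)
    have h2 : 0 ≤ y ^ 7 := by positivity
    calc _ ≤ x ^ 5 * x ^ 2 := this
      _ = x ^ 7 := by ring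
      _ ≤ _ := by linarith

lemma trunc {M x D : ℝ} (hM : 0 < M) (hx : 0 ≤ x) :
    x * D ^ 2 ≤ M * D ^ 2 + x ^ 5 * D ^ 2 / M ^ 4 := by
  have hD : 0 ≤ D ^ 2 := sq_nonneg _
  rcases le_total x M with h | h
  · have h1 : x * D ^ 2 ≤ M * D ^ 2 := mul_le_mul_of_nonneg_right h hD
    have h2 : 0 ≤ x ^ 5 * D ^ 2 / M ^ 4 := by positivity
    linarith
  · have h1 : x * D ^ 2 ≤ x ^ 5 * D ^ 2 / M ^ 4 := by
      rw [le_div_iff₀ (by positivity)]
      have h2 : M ^ 4 ≤ x ^ 4 := pow_le_pow_left₀ hM.le h 4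
      calc x * D ^ 2 * M ^ 4 ≤ x * D ^ 2 * x ^ 4 := mul_le_mul_of_nonneg_left h2 (by positivity)
        _ = _ := by ring
    have h2 : 0 ≤ M * D ^ 2 := by positivity
    linarith

lemma add_pow7 {a b : ℝ} : |a - b| ^ 7 ≤ 2 ^ 7 * (|a| ^ 7 + |b| ^ 7) := by
  have h1 : |a - b| ≤ |a| + |b| := abs_sub a b
  have ha := abs_nonneg a
  have hb := abs_nonneg b
  rcases le_total |a| |b| with h | h
  · calc |a - b| ^ 7 ≤ (2 * |b|) ^ 7 := pow_le_pow_left₀ (abs_nonneg _) (by linarith) 7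
      _ = 2 ^ 7 * |b| ^ 7 := mul_pow _ _ _
      _ ≤ _ := by
        apply mul_le_mul_of_nonneg_left _ (by positivity)
        linarith [pow_nonneg ha 7]
  · calc |a - b| ^ 7 ≤ (2 * |a|) ^ 7 := pow_le_pow_left₀ (abs_nonneg _) (by linarith) 7
      _ = 2 ^ 7 * |a| ^ 7 := mul_pow _ _ _
      _ ≤ _ := by
        apply mul_le_mul_of_nonneg_left _ (by positivity)
        linarith [pow_nonneg hb 7]

/-- the contribution of one displacement -/
lemma disp {C7 C8 : ℝ} (h7 : ∀ N : ℕ, ∑ n ∈ Icc 1 N, |dl n| ^ 7 ≤ C7 * N) (hC7 : 0 < C7)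
    (h8 : ∀ r N : ℕ, r ≤ N → ∑ n ∈ Icc 1 N, |SD r n - r| ^ 7 ≤ C8 * (r : ℝ) ^ 7 * N)
    (hC8 : 0 < C8) {r J j N : ℕ} (hj : j < J) (hJ : 1 ≤ J) (hN : r + J ≤ N) {b : ℝ}
    (hb1 : ∑ n ∈ Icc 1 N, (SD j n - j) ^ 2 ≤ b * N)
    (hb2 : ∑ n ∈ Icc 1 (N + r), (SD j n - j) ^ 2 ≤ b * (N + r : ℕ)) (hb : 0 ≤ b) :
    ∑ n ∈ Icc 1 N, |dl (n + j)| * ((SD j (n + r) - j) - (SD j n - j)) ^ 2 ≤
      6 * Real.sqrt J * b * N + (2 * C7 + 384 * C8) * N := by
  have hJ0 : (0 : ℝ) < J := by exact_mod_cast hJ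
  have hM : 0 < Real.sqrt J := Real.sqrt_pos.2 hJ0
  have hM4 : Real.sqrt J ^ 4 = (J : ℝ) ^ 2 := by
    have : Real.sqrt J ^ 2 = J := Real.sq_sqrt hJ0.le
    calc Real.sqrt J ^ 4 = (Real.sqrt J ^ 2) ^ 2 := by ring
      _ = _ := by rw [this]
  have hN0 : (0 : ℝ) ≤ N := Nat.cast_nonneg _
  have hrN : (r : ℝ) ≤ N := by exact_mod_cast (by omega : r ≤ N)
  have hD2 : ∑ n ∈ Icc 1 N, ((SD j (n + r) - j) - (SD j n - j)) ^ 2 ≤ 6 * b * N := by
    have h1 : ∀ n ∈ Icc 1 N, ((SD j (n + r) - j) - (SD j n - j)) ^ 2 ≤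
        2 * (SD j (n + r) - j) ^ 2 + 2 * (SD j n - j) ^ 2 := by
      intro n _
      nlinarith [sq_nonneg ((SD j (n + r) - j) + (SD j n - j))]
    refine (Finset.sum_le_sum h1).trans ?_
    rw [Finset.sum_add_distrib, ← Finset.mul_sum, ← Finset.mul_sum]
    have h2 := shift_le (f := fun n => (SD j n - j) ^ 2) (fun n => sq_nonneg _) N r
    have h3 : b * ((N + r : ℕ) : ℝ) ≤ b * (2 * N) := by
      apply mul_le_mul_of_nonneg_left _ hb
      push_cast
      linarith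
    linarith
  have hS7 : ∑ n ∈ Icc 1 N, |dl (n + j)| ^ 5 * ((SD j (n + r) - j) - (SD j n - j)) ^ 2 ≤
      (J : ℝ) ^ 2 * ((2 * C7 + 384 * C8) * N) := by
    rcases Nat.eq_zero_or_pos j with h0 | hj0
    · subst h0
      have : ∀ n ∈ Icc 1 N, |dl (n + 0)| ^ 5 * ((SD 0 (n + r) - (0 : ℕ)) - (SD 0 n - (0 : ℕ))) ^ 2 =
          0 := by
        intro n _
        simp [SD]
      rw [Finset.sum_eq_zero this]
      positivity
    have hj1 : (0 : ℝ) < j := by exact_mod_cast hj0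
    have hjJ : (j : ℝ) ≤ J := by exact_mod_cast hj.le
    have h1 : ∀ n ∈ Icc 1 N, |dl (n + j)| ^ 5 * ((SD j (n + r) - j) - (SD j n - j)) ^ 2 ≤
        (j : ℝ) ^ 2 * (|dl (n + j)| ^ 7 + 1 / (j : ℝ) ^ 7 *
          (2 ^ 7 * (|SD j (n + r) - j| ^ 7 + |SD j n - j| ^ 7))) := by
      intro n _
      have h2 := pow52 (abs_nonneg (dl (n + j)))
        (show 0 ≤ |(SD j (n + r) - j) - (SD j n - j)| / j by positivity)
      have h3 := add_pow7 (a := SD j (n + r) - j) (b := SD j n - j)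
      have h4 : |dl (n + j)| ^ 5 * ((SD j (n + r) - j) - (SD j n - j)) ^ 2 =
          (j : ℝ) ^ 2 * (|dl (n + j)| ^ 5 * (|(SD j (n + r) - j) - (SD j n - j)| / j) ^ 2) := by
        rw [div_pow, sq_abs]
        field_simp
      rw [h4]
      apply mul_le_mul_of_nonneg_left _ (by positivity)
      refine h2.trans ?_
      have h5 : (|(SD j (n + r) - j) - (SD j n - j)| / j) ^ 7 =
          1 / (j : ℝ) ^ 7 * |(SD j (n + r) - j) - (SD j n - j)| ^ 7 := by
        rw [div_pow]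
        ring
      rw [h5]
      have h6 := mul_le_mul_of_nonneg_left h3 (show 0 ≤ 1 / (j : ℝ) ^ 7 by positivity)
      linarith
    refine (Finset.sum_le_sum h1).trans ?_
    rw [← Finset.mul_sum, Finset.sum_add_distrib, ← Finset.mul_sum, ← Finset.mul_sum,
      Finset.sum_add_distrib]
    have a1 : ∑ n ∈ Icc 1 N, |dl (n + j)| ^ 7 ≤ C7 * (2 * N) := by
      refine (shift_le (f := fun n => |dl n| ^ 7) (fun n => by positivity) N j).trans ?_
      refine (h7 (N + j)).trans ?_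
      apply mul_le_mul_of_nonneg_left _ hC7.le
      have : (j : ℝ) ≤ N := by exact_mod_cast (by omega : j ≤ N)
      push_cast
      linarith
    have a2 : ∑ n ∈ Icc 1 N, |SD j (n + r) - j| ^ 7 ≤ C8 * (j : ℝ) ^ 7 * (2 * N) := by
      refine (shift_le (f := fun n => |SD j n - j| ^ 7) (fun n => by positivity) N r).trans ?_
      refine (h8 j (N + r) (by omega)).trans ?_
      apply mul_le_mul_of_nonneg_left _ (by positivity)
      push_cast
      linarith
    have a3 : ∑ n ∈ Icc 1 N, |SD j n - j| ^ 7 ≤ C8 * (j : ℝ) ^ 7 * N := h8 j N (by omega)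
    have a4 : 1 / (j : ℝ) ^ 7 * (2 ^ 7 * (∑ n ∈ Icc 1 N, |SD j (n + r) - j| ^ 7 +
        ∑ n ∈ Icc 1 N, |SD j n - j| ^ 7)) ≤ 384 * C8 * N := by
      calc _ ≤ 1 / (j : ℝ) ^ 7 * (2 ^ 7 * (C8 * (j : ℝ) ^ 7 * (2 * N) + C8 * (j : ℝ) ^ 7 * N)) := by
            apply mul_le_mul_of_nonneg_left _ (by positivity)
            apply mul_le_mul_of_nonneg_left _ (by positivity)
            linarith
        _ = 384 * C8 * N := by
            field_simp
            ring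
    calc (j : ℝ) ^ 2 * (∑ n ∈ Icc 1 N, |dl (n + j)| ^ 7 + 1 / (j : ℝ) ^ 7 *
          (2 ^ 7 * (∑ n ∈ Icc 1 N, |SD j (n + r) - j| ^ 7 + ∑ n ∈ Icc 1 N, |SD j n - j| ^ 7))) ≤
          (j : ℝ) ^ 2 * ((2 * C7 + 384 * C8) * N) := by
          apply mul_le_mul_of_nonneg_left _ (by positivity)
          linarith
      _ ≤ _ := by
          apply mul_le_mul_of_nonneg_right _ (by positivity)
          exact pow_le_pow_left₀ hj1.le hjJ 2
  have h1 : ∀ n ∈ Icc 1 N, |dl (n + j)| * ((SD j (n + r) - j) - (SD j n - j)) ^ 2 ≤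
      Real.sqrt J * ((SD j (n + r) - j) - (SD j n - j)) ^ 2 +
      |dl (n + j)| ^ 5 * ((SD j (n + r) - j) - (SD j n - j)) ^ 2 / Real.sqrt J ^ 4 :=
    fun n _ => trunc hM (abs_nonneg _)
  refine (Finset.sum_le_sum h1).trans ?_
  rw [Finset.sum_add_distrib, ← Finset.mul_sum, ← Finset.sum_div, hM4]
  have h2 := mul_le_mul_of_nonneg_left hD2 hM.le
  have h3 : (∑ n ∈ Icc 1 N, |dl (n + j)| ^ 5 * ((SD j (n + r) - j) - (SD j n - j)) ^ 2) /
      (J : ℝ) ^ 2 ≤ (2 * C7 + 384 * C8) * N := by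
    rw [div_le_iff₀ (by positivity)]
    linarith
  linarith

/-- **one step of the recursion** -/
theorem pass (hRH : RiemannHypothesis) : ∃ C c : ℝ, 0 < C ∧ 0 < c ∧ ∃ m0 : ℕ, 1 ≤ m0 ∧
    ∀ r J : ℕ, 1 ≤ r → m0 ≤ J → (r : ℝ) ^ 6 * Real.exp (-c * J * Real.log J) ≤ 1 →
    ∀ b : ℕ → ℝ, (∀ j < J, 0 ≤ b j ∧ Vb j (b j)) →
    Vb r (C * (1 + Real.log r) + C / Real.sqrt J * ∑ j ∈ range J, b j) := by
  obtain ⟨CW, hCW, hW⟩ := wform hRH
  obtain ⟨C3, hC3, h3⟩ := mom_SD hRH 2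
  obtain ⟨C7, hC7, h7⟩ := mom hRH 7
  obtain ⟨C8, hC8, h8⟩ := mom_SD hRH 6
  obtain ⟨c, hc, m0, hm0, hcl⟩ := clus hRH
  refine ⟨4 * CW / c + 12 / c + 2 * (2 * C7 + 384 * C8) / c + C3 + 2, c, by positivity, hc, m0,
    hm0, fun r J hr hJ hexp b hb => ?_⟩
  have hJ1 : 1 ≤ J := hm0.trans hJ
  have hJ0 : (0 : ℝ) < J := by exact_mod_cast hJ1
  have hr0 : (0 : ℝ) < r := by exact_mod_cast hr
  have hlogr : 0 ≤ Real.log r := Real.log_nonneg (by exact_mod_cast hr)
  obtain ⟨X, hX⟩ : ∃ X : ℕ, C3 * (r : ℝ) ^ 3 ≤ X ∧ 1 ≤ X := ⟨⌈C3 * (r : ℝ) ^ 3⌉₊ + 1, by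
    push_cast
    linarith [Nat.le_ceil (C3 * (r : ℝ) ^ 3)], by omega⟩
  have hX0 : (0 : ℝ) < X := by exact_mod_cast hX.2
  have hev : ∀ᶠ N : ℕ in atTop, ∀ j ∈ range J, ∑ n ∈ Icc 1 N, (SD j n - j) ^ 2 ≤ b j * N ∧
      ∑ n ∈ Icc 1 (N + r), (SD j n - j) ^ 2 ≤ b j * (N + r : ℕ) := by
    rw [Filter.eventually_all_finset]
    intro j hj
    rw [Finset.mem_range] at hj
    exact (hb j hj).2.and ((tendsto_add_atTop_nat r).eventually (hb j hj).2)
  filter_upwards [hev, (tendsto_add_atTop_nat J).eventually (hW r hr X),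
    eventually_ge_atTop (r + J)] with N hN1 hN2 hN3
  have hN0 : (0 : ℝ) < N := by exact_mod_cast (by omega : 0 < N)
  have hNJ : (J : ℝ) ≤ N := by exact_mod_cast (by omega : J ≤ N)
  -- notation
  obtain ⟨φ, hφ⟩ : ∃ φ : ℕ → ℝ, φ = fun n => min |SD r n - r| (X : ℝ) ^ 2 := ⟨_, rfl⟩
  have hφ0 : ∀ n, 0 ≤ φ n := fun n => by rw [hφ]; exact sq_nonneg _
  have hφx : ∀ n, φ n ≤ (SD r n - r) ^ 2 := fun n => by
    rw [hφ]
    show min |SD r n - r| (X : ℝ) ^ 2 ≤ _
    rw [← sq_abs (SD r n - r)]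
    exact pow_le_pow_left₀ (le_min (abs_nonneg _) hX0.le) (min_le_left _ _) 2
  -- (i)
  have hi : ∑ n ∈ Icc 1 N, (SD r n - r) ^ 2 ≤ ∑ n ∈ Icc 1 N, φ n + N := by
    have h1 : ∀ n ∈ Icc 1 N, (SD r n - r) ^ 2 ≤ φ n + |SD r n - r| ^ 3 / X := by
      intro n _
      rw [hφ]
      show _ ≤ min |SD r n - r| (X : ℝ) ^ 2 + _
      rcases le_total |SD r n - r| X with h | h
      · rw [min_eq_left h, sq_abs]
        have : 0 ≤ |SD r n - r| ^ 3 / X := by positivity
        linarith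
      · have h2 : (SD r n - r) ^ 2 ≤ |SD r n - r| ^ 3 / X := by
          rw [le_div_iff₀ hX0, ← sq_abs]
          calc |SD r n - r| ^ 2 * X ≤ |SD r n - r| ^ 2 * |SD r n - r| :=
                mul_le_mul_of_nonneg_left h (by positivity)
            _ = _ := by ring
        have : 0 ≤ min |SD r n - r| (X : ℝ) ^ 2 := sq_nonneg _
        linarith
    refine (Finset.sum_le_sum h1).trans ?_
    rw [Finset.sum_add_distrib, ← Finset.sum_div]
    have h2 : (∑ n ∈ Icc 1 N, |SD r n - r| ^ 3) / X ≤ N := by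
      rw [div_le_iff₀ hX0]
      refine (h3 r N (by omega)).trans ?_
      calc C3 * (r : ℝ) ^ 3 * N ≤ X * N := mul_le_mul_of_nonneg_right hX.1 hN0.le
        _ = _ := mul_comm _ _
    linarith
  -- (ii)
  have hbad : ∑ n ∈ (Icc 1 N).filter (fun n => SD J n ≤ c * J), φ n ≤ (C3 + 1) * N := by
    have h1 : ∀ n ∈ (Icc 1 N).filter (fun n => SD J n ≤ c * J), φ n ≤
        1 / (r : ℝ) ^ 3 * |SD r n - r| ^ 3 + (r : ℝ) ^ 6 := by
      intro n _
      refine (hφx n).trans ((sq_le_cube (κ := 1 / (r : ℝ) ^ 3) (by positivity)).trans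
        (le_of_eq ?_))
      congr 1
      field_simp
    refine (Finset.sum_le_sum h1).trans ?_
    rw [Finset.sum_add_distrib, ← Finset.mul_sum, Finset.sum_const, nsmul_eq_mul]
    have h2 : ∑ n ∈ (Icc 1 N).filter (fun n => SD J n ≤ c * J), |SD r n - r| ^ 3 ≤
        C3 * (r : ℝ) ^ 3 * N :=
      (Finset.sum_le_sum_of_subset_of_nonneg (Finset.filter_subset _ _)
        fun n _ _ => by positivity).trans (h3 r N (by omega))
    have h4 := hcl N (by omega) J hJ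
    have h5 : 1 / (r : ℝ) ^ 3 * (∑ n ∈ (Icc 1 N).filter (fun n => SD J n ≤ c * J),
        |SD r n - r| ^ 3) ≤ C3 * N := by
      calc _ ≤ 1 / (r : ℝ) ^ 3 * (C3 * (r : ℝ) ^ 3 * N) :=
            mul_le_mul_of_nonneg_left h2 (by positivity)
        _ = _ := by field_simp
    have h6 : (((Icc 1 N).filter fun n => SD J n ≤ c * J).card : ℝ) * (r : ℝ) ^ 6 ≤ N := by
      calc _ ≤ (N * Real.exp (-c * J * Real.log J)) * (r : ℝ) ^ 6 :=
            mul_le_mul_of_nonneg_right h4 (by positivity)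
        _ = N * ((r : ℝ) ^ 6 * Real.exp (-c * J * Real.log J)) := by ring
        _ ≤ N * 1 := mul_le_mul_of_nonneg_left hexp hN0.le
        _ = N := mul_one _
    linarith
  -- (iii)
  have hgood : c * J * ∑ n ∈ (Icc 1 N).filter (fun n => ¬ SD J n ≤ c * J), φ n ≤
      ∑ n ∈ Icc 1 N, ∑ j ∈ range J, |dl (n + j)| *
        (2 * φ (n + j) + 2 * ((SD j (n + r) - j) - (SD j n - j)) ^ 2) := by
    have hnn : ∀ n, 0 ≤ ∑ j ∈ range J, |dl (n + j)| *
        (2 * φ (n + j) + 2 * ((SD j (n + r) - j) - (SD j n - j)) ^ 2) := fun n =>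
      Finset.sum_nonneg fun j _ => mul_nonneg (abs_nonneg _)
        (add_nonneg (by linarith [hφ0 (n + j)]) (by positivity))
    refine le_trans ?_ (Finset.sum_le_sum_of_subset_of_nonneg (Finset.filter_subset
      (fun n => ¬ SD J n ≤ c * J) _) fun n _ _ => hnn n)
    rw [Finset.mul_sum]
    refine Finset.sum_le_sum fun n hn => ?_
    rw [Finset.mem_filter, not_le] at hn
    have h1 : c * J ≤ ∑ j ∈ range J, |dl (n + j)| := by
      refine hn.2.le.trans ?_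
      unfold SD
      exact Finset.sum_le_sum fun j _ => le_abs_self _
    calc c * J * φ n ≤ (∑ j ∈ range J, |dl (n + j)|) * φ n :=
          mul_le_mul_of_nonneg_right h1 (hφ0 n)
      _ = ∑ j ∈ range J, |dl (n + j)| * φ n := by rw [Finset.sum_mul]
      _ ≤ _ := by
          refine Finset.sum_le_sum fun j _ => mul_le_mul_of_nonneg_left ?_ (abs_nonneg _)
          have h2 := min_add (a := SD r (n + j) - r) (b := -((SD j (n + r) - j) - (SD j n - j)))
            (X := (X : ℝ)) hX0.le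
          have e : SD r (n + j) - r + -((SD j (n + r) - j) - (SD j n - j)) = SD r n - r := by
            have := SD_diff r j n
            linarith
          rw [e, neg_sq] at h2
          rw [hφ]
          exact h2
  -- (iv)
  have hsum : ∑ n ∈ Icc 1 N, ∑ j ∈ range J, |dl (n + j)| *
        (2 * φ (n + j) + 2 * ((SD j (n + r) - j) - (SD j n - j)) ^ 2) ≤
      2 * (J * (CW * (1 + Real.log r) * (2 * N))) +
      2 * (6 * Real.sqrt J * (∑ j ∈ range J, b j) * N + J * ((2 * C7 + 384 * C8) * N)) := by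
    rw [Finset.sum_comm]
    have h1 : ∀ j ∈ range J, ∑ n ∈ Icc 1 N, |dl (n + j)| *
        (2 * φ (n + j) + 2 * ((SD j (n + r) - j) - (SD j n - j)) ^ 2) ≤
        2 * (CW * (1 + Real.log r) * (2 * N)) +
        2 * (6 * Real.sqrt J * b j * N + (2 * C7 + 384 * C8) * N) := by
      intro j hj
      have hjJ := Finset.mem_range.mp hj
      have e : ∑ n ∈ Icc 1 N, |dl (n + j)| *
          (2 * φ (n + j) + 2 * ((SD j (n + r) - j) - (SD j n - j)) ^ 2) =
          2 * ∑ n ∈ Icc 1 N, |dl (n + j)| * φ (n + j) +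
          2 * ∑ n ∈ Icc 1 N, |dl (n + j)| * ((SD j (n + r) - j) - (SD j n - j)) ^ 2 := by
        rw [Finset.mul_sum, Finset.mul_sum, ← Finset.sum_add_distrib]
        refine Finset.sum_congr rfl fun n _ => ?_
        ring
      rw [e]
      have h2 : ∑ n ∈ Icc 1 N, |dl (n + j)| * φ (n + j) ≤ CW * (1 + Real.log r) * (2 * N) := by
        refine (shift_le (f := fun n => |dl n| * φ n)
          (fun n => mul_nonneg (abs_nonneg _) (hφ0 n)) N j).trans ?_
        have h4 : ∑ n ∈ Icc 1 (N + j), |dl n| * φ n ≤ ∑ n ∈ Icc 1 (N + J), |dl n| * φ n :=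
          Finset.sum_le_sum_of_subset_of_nonneg (Finset.Icc_subset_Icc le_rfl (by omega))
            fun n _ _ => mul_nonneg (abs_nonneg _) (hφ0 n)
        refine h4.trans ?_
        have h5 : ∑ n ∈ Icc 1 (N + J), |dl n| * φ n ≤ CW * (1 + Real.log r) * ((N + J : ℕ) : ℝ) := by
          rw [hφ]
          exact hN2
        refine h5.trans ?_
        apply mul_le_mul_of_nonneg_left _ (by positivity)
        push_cast
        linarith
      obtain ⟨hb1, hb2⟩ := hN1 j hj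
      have h6 := disp h7 hC7 h8 hC8 hjJ hJ1 hN3 hb1 hb2 (hb j hjJ).1
      linarith
    refine (Finset.sum_le_sum h1).trans (le_of_eq ?_)
    rw [Finset.sum_add_distrib, Finset.sum_const, Finset.card_range, nsmul_eq_mul,
      ← Finset.mul_sum, Finset.sum_add_distrib, Finset.sum_const, Finset.card_range, nsmul_eq_mul,
      ← Finset.sum_mul, ← Finset.mul_sum]
    ring
  have hsplit := Finset.sum_filter_add_sum_filter_not (Icc 1 N) (fun n => SD J n ≤ c * J) φ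
  obtain ⟨G, hG⟩ : ∃ G : ℝ, G = ∑ n ∈ (Icc 1 N).filter (fun n => ¬ SD J n ≤ c * J), φ n := ⟨_, rfl⟩
  rw [← hG] at hsplit hgood
  have hS0 : 0 ≤ ∑ j ∈ range J, b j :=
    Finset.sum_nonneg fun j hj => (hb j (Finset.mem_range.mp hj)).1
  obtain ⟨S, hS⟩ : ∃ S : ℝ, S = ∑ j ∈ range J, b j := ⟨_, rfl⟩
  rw [← hS] at hsum hS0 ⊢
  have hM : 0 < Real.sqrt J := Real.sqrt_pos.2 hJ0
  have hMM : Real.sqrt J * Real.sqrt J = J := Real.mul_self_sqrt hJ0.le
  have hGle : G ≤ (4 * CW / c) * (1 + Real.log r) * N + (12 / c) / Real.sqrt J * S * N +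
      (2 * (2 * C7 + 384 * C8) / c) * N := by
    have h1 := hgood.trans hsum
    have h2 : c * J * ((4 * CW / c) * (1 + Real.log r) * N + (12 / c) / Real.sqrt J * S * N +
      (2 * (2 * C7 + 384 * C8) / c) * N) = 2 * (J * (CW * (1 + Real.log r) * (2 * N))) +
      2 * (6 * Real.sqrt J * S * N + J * ((2 * C7 + 384 * C8) * N)) := by
      have h3 : (J : ℝ) / Real.sqrt J = Real.sqrt J := by
        rw [div_eq_iff hM.ne', hMM]
      have h4 : c * J * ((12 / c) / Real.sqrt J * S * N) = 12 * (J / Real.sqrt J) * S * N := by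
        field_simp
      rw [mul_add, mul_add, h4, h3]
      field_simp
      ring
    rw [← h2] at h1
    exact le_of_mul_le_mul_left h1 (by positivity)
  have hlast : 0 ≤ C3 + 2 := by positivity
  have p1 : 0 ≤ 4 * CW / c := by positivity
  have p2 : 0 ≤ 12 / c := by positivity
  have p3 : 0 ≤ 2 * (2 * C7 + 384 * C8) / c := by positivity
  have q1 : 0 ≤ 1 / Real.sqrt J * S * N := by positivity
  have q2 : 0 ≤ Real.log r * N := by positivity
  have e1 : (12 / c) / Real.sqrt J * S * N = (12 / c) * (1 / Real.sqrt J * S * N) := by ring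
  rw [e1] at hGle
  have e2 : ((4 * CW / c + 12 / c + 2 * (2 * C7 + 384 * C8) / c + C3 + 2) * (1 + Real.log r) +
      (4 * CW / c + 12 / c + 2 * (2 * C7 + 384 * C8) / c + C3 + 2) / Real.sqrt J * S) * N =
      (4 * CW / c + 12 / c + 2 * (2 * C7 + 384 * C8) / c + C3 + 2) * (N + Real.log r * N) +
      (4 * CW / c + 12 / c + 2 * (2 * C7 + 384 * C8) / c + C3 + 2) *
        (1 / Real.sqrt J * S * N) := by ring
  rw [e2]
  have e3 : (4 * CW / c) * (1 + Real.log r) * N = (4 * CW / c) * (N + Real.log r * N) := by ring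
  rw [e3] at hGle
  generalize 4 * CW / c = A1 at *
  generalize 12 / c = A2 at *
  generalize 2 * (2 * C7 + 384 * C8) / c = A3 at *
  generalize 1 / Real.sqrt J * S * N = Q1 at *
  generalize Real.log r * N = Q2 at *
  have r1 : 0 ≤ A2 * Q2 := mul_nonneg p2 q2
  have r2 : 0 ≤ A3 * Q2 := mul_nonneg p3 q2
  have r3 : 0 ≤ (C3 + 2) * Q2 := mul_nonneg hlast q2
  have r4 : 0 ≤ A1 * Q1 := mul_nonneg p1 q1
  have r5 : 0 ≤ A3 * Q1 := mul_nonneg p3 q1
  have r6 : 0 ≤ (C3 + 2) * Q1 := mul_nonneg hlast q1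
  have r7 : 0 ≤ A2 * N := mul_nonneg p2 hN0.le
  nlinarith

end Pool.Agent.Q31.GV
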