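import Pool.Agent.Q31.GV.Block

set_option autoImplicit false

/-! # The weighted variance of sums of gaps, form for the sequence of gaps -/

open Filter Topology Finset

namespace Pool.Agent.Q31.GV

open SG (ord NZ)
open Pool.Agent.Y743.LR (dif yv dl dif_yv)

/-- sum of `r` normalised gaps -/
noncomputable def SD (r n : ℕ) : ℝ := ∑ i ∈ range r, dl (n + i)

lemma Zr_sum {T : ℝ} (hT : 1 < T) (r n : ℕ) : Zr T r n = ∑ i ∈ range r, dif (yv T) (n + i) := by
  rw [Pool.Agent.Y743.LR.sum_dif]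
  have hL := Real.log_pos hT
  have hpi := Real.pi_pos
  unfold Zr yv ww
  field_simp

lemma mul_sq_le {x y : ℝ} (hx : 0 ≤ x) (hy : 0 ≤ y) : x * y ^ 2 ≤ x ^ 3 + y ^ 3 := by
  rcases le_total x y with h | h
  · have : x * y ^ 2 ≤ y * y ^ 2 := mul_le_mul_of_nonneg_right h (by positivity)
    have h2 : 0 ≤ x ^ 3 := by positivity
    nlinarith
  · have : x * y ^ 2 ≤ x * x ^ 2 := mul_le_mul_of_nonneg_left (pow_le_pow_left₀ hy h 2) hx
    have h2 : 0 ≤ y ^ 3 := by positivity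
    nlinarith

lemma cube_sum_le {r : ℕ} {f : ℕ → ℝ} (hf : ∀ i, 0 ≤ f i) :
    (∑ i ∈ range r, f i) ^ 3 ≤ (r : ℝ) ^ 2 * ∑ i ∈ range r, f i ^ 3 := by
  rcases Nat.eq_zero_or_pos r with h | h
  · subst h; simp
  have h2 := pow_sum_div_card_le_sum_pow (s := range r) (f := f) (fun i _ => hf i) 2
  rw [card_range] at h2
  have hr : (0 : ℝ) < (r : ℝ) ^ 2 := by
    have : (0 : ℝ) < r := by exact_mod_cast h
    positivity
  rw [div_le_iff₀ hr, show 2 + 1 = 3 by rfl] at h2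
  rw [mul_comm]
  exact h2

/-- **the weighted form** -/
theorem wform (hRH : RiemannHypothesis) : ∃ C : ℝ, 0 < C ∧ ∀ r : ℕ, 1 ≤ r → ∀ X : ℕ,
    ∀ᶠ N : ℕ in atTop, ∑ n ∈ Icc 1 N, |dl n| * min |SD r n - r| X ^ 2 ≤
      C * (1 + Real.log r) * N := by
  have hRHs := H177.Lat.rhs_of hRH
  obtain ⟨C, hC, hblock⟩ := block hRHs
  obtain ⟨κ, D, C2, hκ, hκ1, hD, hC2, hgood⟩ := Pool.Agent.Y743.LR.good_ev
  obtain ⟨C3, hC3, hcube⟩ := Pool.Agent.Y743.LR.gam_cube hRHs (κ := κ) (D := D) hκ hC2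
  obtain ⟨C4, hC4, hcb⟩ := GP.cube hRH
  refine ⟨60 * (4 * C + 2), by positivity, fun r hr X => ?_⟩
  have hr1 : (1 : ℝ) ≤ r := by exact_mod_cast hr
  have hlogr : 0 ≤ Real.log r := Real.log_nonneg hr1
  have hX0 : (0 : ℝ) ≤ X := Nat.cast_nonneg X
  obtain ⟨T0, hT0, hg⟩ := hgood r
  obtain ⟨K, hK⟩ : ∃ K : ℝ, K = |Real.log κ| + |Real.log D| + Real.log (2 * Real.pi) := ⟨_, rfl⟩
  have hK0 : 0 ≤ K := by
    have : 0 ≤ Real.log (2 * Real.pi) := Real.log_nonneg (by linarith [Real.pi_gt_three])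
    rw [hK]; positivity
  have h60 : 60 * (4 * C + 2) * (1 + Real.log r) = 60 * ((4 * C + 2) * (1 + Real.log r)) := by ring
  rw [h60]
  have hf0 : ∀ n, 0 ≤ |dl n| * min |SD r n - r| (X : ℝ) ^ 2 := fun n =>
    mul_nonneg (abs_nonneg _) (sq_nonneg _)
  apply dyadic hf0 (by positivity)
  -- the step
  have hlim : Tendsto (fun T : ℝ => T * Real.log T) atTop atTop :=
    tendsto_id.atTop_mul_atTop₀ Real.tendsto_log_atTop
  filter_upwards [hblock r hr X, eventually_ge_atTop T0,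
    Real.tendsto_log_atTop.eventually_ge_atTop
      (K + 1 + 4 * K ^ 2 * ((1 + (r : ℝ) ^ 3) * C3)),
    hlim.eventually_ge_atTop (1 + C4 * C2 * X ^ 6)] with T hB hT hTL hTY
  have hT10 : 10 ≤ T := hT0.trans hT
  have hT1 : 1 < T := by linarith
  have hTpos : 0 < T := by linarith
  have hgd := hg T hT
  have hL := Real.log_pos hT1
  obtain ⟨L, hLd⟩ : ∃ L : ℝ, L = Real.log T := ⟨_, rfl⟩
  rw [← hLd] at hB hTL hTY hL ⊢
  have hKL : K + 1 ≤ L := by
    have : 0 ≤ 4 * K ^ 2 * ((1 + (r : ℝ) ^ 3) * C3) := by positivity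
    linarith
  have hKL2 : 4 * K ^ 2 * ((1 + (r : ℝ) ^ 3) * C3) ≤ L := by linarith
  have hL1 : 1 ≤ L := by linarith
  have hYpos : 0 < T * L := by positivity
  have hmon : NZ T ≤ NZ (2 * T) := SG.NZ_mono (by linarith)
  rcases hmon.eq_or_lt with heq | hlt
  · rw [← heq]
    have : 0 ≤ (4 * C + 2) * (1 + Real.log r) * (T * L) := by positivity
    linarith
  have hsplit : ∑ n ∈ Icc 1 (NZ (2 * T)), |dl n| * min |SD r n - r| (X : ℝ) ^ 2 =
      ∑ n ∈ Icc 1 (NZ T), |dl n| * min |SD r n - r| (X : ℝ) ^ 2 +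
      (∑ n ∈ Ico (NZ T + 1) (NZ (2 * T)), |dl n| * min |SD r n - r| (X : ℝ) ^ 2 +
      |dl (NZ (2 * T))| * min |SD r (NZ (2 * T)) - r| (X : ℝ) ^ 2) := by
    have e : ∀ m : ℕ, Icc 1 m = Ico 1 (m + 1) := fun m => by
      ext x
      rw [Finset.mem_Icc, Finset.mem_Ico]
      omega
    rw [← Finset.sum_Ico_succ_top (by omega), e, e,
      Finset.sum_Ico_consecutive _ (by omega) (by omega)]
  rw [hsplit]
  -- the last term
  have hlast : |dl (NZ (2 * T))| * min |SD r (NZ (2 * T)) - r| (X : ℝ) ^ 2 ≤ T * L := by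
    have h1 : |dl (NZ (2 * T))| ^ 3 ≤ C4 * (C2 * (T * L)) := by
      have h2 := hcb (NZ (2 * T)) (by omega)
      have h3 : |dl (NZ (2 * T))| ^ 3 ≤ ∑ n ∈ Icc 1 (NZ (2 * T)), |dl n| ^ 3 :=
        Finset.single_le_sum (f := fun n => |dl n| ^ 3) (fun n _ => by positivity)
          (Finset.mem_Icc.mpr ⟨by omega, le_rfl⟩)
      have h4 : (NZ (2 * T) : ℝ) ≤ C2 * (T * L) := by
        have h5 := hgd.card
        have h6 : NZ (2 * T) ≤ NZ (3 * T) := SG.NZ_mono (by linarith)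
        have h7 : (NZ (2 * T) : ℝ) ≤ NZ (3 * T) := by exact_mod_cast h6
        rw [← hLd] at h5
        linarith
      exact h3.trans (h2.trans (mul_le_mul_of_nonneg_left h4 hC4.le))
    have h2 : min |SD r (NZ (2 * T)) - r| (X : ℝ) ^ 2 ≤ (X : ℝ) ^ 2 :=
      pow_le_pow_left₀ (le_min (abs_nonneg _) hX0) (min_le_right _ _) 2
    refine (mul_le_mul_of_nonneg_left h2 (abs_nonneg _)).trans ?_
    have h3 : (|dl (NZ (2 * T))| * (X : ℝ) ^ 2) ^ 3 ≤ (T * L) ^ 3 := by
      have h5 : C4 * C2 * (X : ℝ) ^ 6 ≤ (T * L) ^ 2 := by nlinarith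
      calc (|dl (NZ (2 * T))| * (X : ℝ) ^ 2) ^ 3 = |dl (NZ (2 * T))| ^ 3 * (X : ℝ) ^ 6 := by ring
        _ ≤ C4 * (C2 * (T * L)) * (X : ℝ) ^ 6 := mul_le_mul_of_nonneg_right h1 (by positivity)
        _ = (C4 * C2 * (X : ℝ) ^ 6) * (T * L) := by ring
        _ ≤ (T * L) ^ 2 * (T * L) := mul_le_mul_of_nonneg_right h5 hYpos.le
        _ = _ := by ring
    exact le_of_pow_le_pow_left₀ (by norm_num) hYpos.le h3
  -- the main terms
  have hnear : ∀ m : ℕ, NZ T ≤ m → m ≤ NZ (2 * T) + r → 0 ≤ dif (yv T) m ∧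
      |dif (yv T) m - dl m| ≤ K / L * dif (yv T) m := by
    intro m h1 h2
    obtain ⟨a1, a2, a3⟩ := Pool.Agent.Y743.LR.gam_le hκ hT1.le hgd.lgκ hgd.n1 hgd.n2 h1
    refine ⟨a2, ?_⟩
    have h4 : 1 ≤ m := hgd.n1.trans h1
    have h3 : ord m ≤ D * T := (SG.ord_le_iff h4 _).mpr (h2.trans hgd.n3)
    have h5 := Pool.Agent.Y743.LR.dl_close (D := D) hκ (by linarith) hT1 h4 a1 h3
    rw [hK, hLd]
    exact h5
  have hmain : ∀ n ∈ Ico (NZ T + 1) (NZ (2 * T)), |dl n| * min |SD r n - r| (X : ℝ) ^ 2 ≤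
      4 * (dif (yv T) n * min |Zr T r n - r| (X : ℝ) ^ 2) +
      4 * (K / L) ^ 2 * (dif (yv T) n ^ 3 + Zr T r n ^ 3) := by
    intro n hn
    rw [Finset.mem_Ico] at hn
    obtain ⟨a1, a2⟩ := hnear n (by omega) (by omega)
    have hKL' : K / L ≤ 1 := by
      rw [div_le_one hL]
      linarith
    have hKL0 : 0 ≤ K / L := by positivity
    have h1 : |dl n| ≤ 2 * dif (yv T) n := by
      have h2 := (abs_le.mp a2).1
      have h3 := (abs_le.mp a2).2
      have h4 : K / L * dif (yv T) n ≤ 1 * dif (yv T) n := mul_le_mul_of_nonneg_right hKL' a1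
      rw [abs_le]
      constructor <;> linarith
    have hZ0 : 0 ≤ Zr T r n := by
      rw [Zr_sum hT1]
      refine Finset.sum_nonneg fun i hi => ?_
      rw [Finset.mem_range] at hi
      exact (hnear (n + i) (by omega) (by omega)).1
    have h2 : |SD r n - Zr T r n| ≤ K / L * Zr T r n := by
      rw [Zr_sum hT1]
      unfold SD
      rw [← Finset.sum_sub_distrib, Finset.mul_sum]
      refine (Finset.abs_sum_le_sum_abs _ _).trans (Finset.sum_le_sum fun i hi => ?_)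
      rw [Finset.mem_range] at hi
      rw [abs_sub_comm]
      exact (hnear (n + i) (by omega) (by omega)).2
    have h3 : min |SD r n - r| (X : ℝ) ^ 2 ≤ 2 * min |Zr T r n - r| (X : ℝ) ^ 2 +
        2 * (K / L * Zr T r n) ^ 2 := by
      have e : SD r n - r = (Zr T r n - r) + (SD r n - Zr T r n) := by ring
      rw [e]
      refine (min_add hX0).trans ?_
      have h4 : (SD r n - Zr T r n) ^ 2 ≤ (K / L * Zr T r n) ^ 2 := by
        rw [← sq_abs]
        exact pow_le_pow_left₀ (abs_nonneg _) h2 2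
      linarith
    have h5 : 0 ≤ min |Zr T r n - r| (X : ℝ) ^ 2 := sq_nonneg _
    calc |dl n| * min |SD r n - r| (X : ℝ) ^ 2 ≤ (2 * dif (yv T) n) *
          (2 * min |Zr T r n - r| (X : ℝ) ^ 2 + 2 * (K / L * Zr T r n) ^ 2) :=
          mul_le_mul h1 h3 (sq_nonneg _) (by positivity)
      _ = 4 * (dif (yv T) n * min |Zr T r n - r| (X : ℝ) ^ 2) +
          4 * (K / L) ^ 2 * (dif (yv T) n * Zr T r n ^ 2) := by ring
      _ ≤ _ := by
          have := mul_sq_le a1 hZ0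
          have h6 : 0 ≤ 4 * (K / L) ^ 2 := by positivity
          have := mul_le_mul_of_nonneg_left this h6
          linarith
  have hsum1 := Finset.sum_le_sum hmain
  rw [Finset.sum_add_distrib, ← Finset.mul_sum, ← Finset.mul_sum, Finset.sum_add_distrib] at hsum1
  have hc1 := hcube r T hgd (Ico (NZ T + 1) (NZ (2 * T))) (by
    intro n hn
    rw [Finset.mem_Ico] at hn
    have : NZ (2 * T) ≤ NZ (3 * T) := SG.NZ_mono (by linarith)
    omega)
  have hc2 : ∑ n ∈ Ico (NZ T + 1) (NZ (2 * T)), Zr T r n ^ 3 ≤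
      (r : ℝ) ^ 3 * (C3 * (T * Real.log T)) := by
    calc ∑ n ∈ Ico (NZ T + 1) (NZ (2 * T)), Zr T r n ^ 3 ≤
          ∑ n ∈ Ico (NZ T + 1) (NZ (2 * T)), (r : ℝ) ^ 2 *
            ∑ i ∈ range r, dif (yv T) (n + i) ^ 3 := by
          refine Finset.sum_le_sum fun n hn => ?_
          rw [Finset.mem_Ico] at hn
          rw [Zr_sum hT1]
          have h1 : ∀ i ∈ range r, dif (yv T) (n + i) = max (dif (yv T) (n + i)) 0 := by
            intro i hi
            rw [Finset.mem_range] at hi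
            rw [max_eq_left (hnear (n + i) (by omega) (by omega)).1]
          rw [Finset.sum_congr rfl h1]
          have h2 := cube_sum_le (r := r) (f := fun i => max (dif (yv T) (n + i)) 0)
            (fun i => le_max_right _ _)
          refine h2.trans (le_of_eq ?_)
          congr 1
          refine Finset.sum_congr rfl fun i hi => ?_
          rw [← h1 i hi]
      _ = (r : ℝ) ^ 2 * ∑ i ∈ range r, ∑ n ∈ Ico (NZ T + 1) (NZ (2 * T)),
            dif (yv T) (n + i) ^ 3 := by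
          rw [← Finset.mul_sum, Finset.sum_comm]
      _ ≤ (r : ℝ) ^ 2 * ∑ _i ∈ range r, C3 * (T * Real.log T) := by
          apply mul_le_mul_of_nonneg_left _ (by positivity)
          refine Finset.sum_le_sum fun i hi => ?_
          rw [Finset.mem_range] at hi
          rw [Finset.sum_Ico_add' (fun m => dif (yv T) m ^ 3)]
          apply hcube r T hgd
          intro n hn
          rw [Finset.mem_Ico] at hn
          have : NZ (2 * T) ≤ NZ (3 * T) := SG.NZ_mono (by linarith)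
          omega
      _ = _ := by
          rw [Finset.sum_const, Finset.card_range, nsmul_eq_mul]
          ring
  rw [← hLd] at hc1 hc2
  have h7 : 4 * (K / L) ^ 2 * (∑ n ∈ Ico (NZ T + 1) (NZ (2 * T)), dif (yv T) n ^ 3 +
      ∑ n ∈ Ico (NZ T + 1) (NZ (2 * T)), Zr T r n ^ 3) ≤ T * L := by
    have h8 : 4 * (K / L) ^ 2 * ((1 + (r : ℝ) ^ 3) * C3) ≤ 1 := by
      rw [div_pow, mul_div_assoc', div_mul_eq_mul_div, div_le_one (by positivity)]
      calc 4 * K ^ 2 * ((1 + (r : ℝ) ^ 3) * C3) ≤ L := hKL2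
        _ ≤ L ^ 2 := by nlinarith
    calc _ ≤ 4 * (K / L) ^ 2 * (C3 * (T * L) + (r : ℝ) ^ 3 * (C3 * (T * L))) := by
          apply mul_le_mul_of_nonneg_left _ (by positivity)
          linarith
      _ = (4 * (K / L) ^ 2 * ((1 + (r : ℝ) ^ 3) * C3)) * (T * L) := by ring
      _ ≤ 1 * (T * L) := mul_le_mul_of_nonneg_right h8 hYpos.le
      _ = _ := one_mul _
  have h9 : 0 ≤ Real.log r * (T * L) := by positivity
  nlinarith

end Pool.Agent.Q31.GV
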